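import Mathlib
import Pool.Agent.Helper7.Goursat
import Pool.Agent.Helper7.Sl2

/-!
The splitting of the Lie algebra of similitudes of a quaternary quadratic form over the complex
numbers into two copies of the Lie algebra of 2 by 2 matrices glued along the trace.
-/

namespace Pool.Agent.Helper36

open Matrix

/-- `M` is an infinitesimal similitude of the form `S` with multiplier `c` -/
def GSO (S M : Matrix (Fin 4) (Fin 4) ℂ) (c : ℂ) : Prop := Mᵀ * S + S * M = c • S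

/-- A splitting of the similitude Lie algebra of `S`. -/
structure Split4 (S : Matrix (Fin 4) (Fin 4) ℂ) where
  a : Fin 2 → (Matrix (Fin 4) (Fin 4) ℂ × ℂ) →ₗ[ℂ] Matrix (Fin 2) (Fin 2) ℂ
  Φ : Matrix (Fin 2) (Fin 2) ℂ ≃ₗ[ℂ] (Fin 4 → ℂ)
  act : ∀ M c, GSO S M c → ∀ w,
    M *ᵥ (Φ w) = Φ (a 0 (M, c) * w + w * (a 1 (M, c))ᵀ - (c / 2) • w)
  tr : ∀ ε M c, (a ε (M, c)).trace = c
  surj : ∀ x y c, x.trace = c → y.trace = c →
    ∃ M, GSO S M c ∧ a 0 (M, c) = x ∧ a 1 (M, c) = y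
  uniq : ∀ M M' c, GSO S M c → GSO S M' c → (∀ ε, a ε (M, c) = a ε (M', c)) → M = M'
  br : ∀ ε M c M' c', GSO S M c → GSO S M' c' →
    a ε (M * M' - M' * M, 0) = a ε (M, c) * a ε (M', c') - a ε (M', c') * a ε (M, c)

/-- the coordinate vector of a 2 by 2 matrix -/
def vec4 : Matrix (Fin 2) (Fin 2) ℂ ≃ₗ[ℂ] (Fin 4 → ℂ) where
  toFun w := ![w 0 0, w 0 1, w 1 0, w 1 1]
  invFun v := !![v 0, v 1; v 2, v 3]
  map_add' := by
    intro x y; ext i; fin_cases i <;> simp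
  map_smul' := by
    intro x y; ext i; fin_cases i <;> simp
  left_inv := by
    intro x; ext i j; fin_cases i <;> fin_cases j <;> simp
  right_inv := by
    intro x; ext i; fin_cases i <;> simp

lemma vec4_apply (w : Matrix (Fin 2) (Fin 2) ℂ) : vec4 w = ![w 0 0, w 0 1, w 1 0, w 1 1] := rfl

/-- the polar form of the determinant -/
def S0 : Matrix (Fin 4) (Fin 4) ℂ := !![0, 0, 0, 1; 0, 0, -1, 0; 0, -1, 0, 0; 1, 0, 0, 0]

/-- the matrix of `w ↦ x w + w yᵀ - (c/2) w` -/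
noncomputable def K4 (x y : Matrix (Fin 2) (Fin 2) ℂ) (c : ℂ) : Matrix (Fin 4) (Fin 4) ℂ :=
  !![x 0 0 + y 0 0 - c / 2, y 0 1, x 0 1, 0;
     y 1 0, x 0 0 + y 1 1 - c / 2, 0, x 0 1;
     x 1 0, 0, x 1 1 + y 0 0 - c / 2, y 0 1;
     0, x 1 0, y 1 0, x 1 1 + y 1 1 - c / 2]

lemma K4_mulVec (x y w : Matrix (Fin 2) (Fin 2) ℂ) (c : ℂ) :
    K4 x y c *ᵥ vec4 w = vec4 (x * w + w * yᵀ - (c / 2) • w) := by
  ext i
  fin_cases i <;>
    simp [K4, vec4_apply, Matrix.mulVec, dotProduct, Fin.sum_univ_four, Matrix.mul_apply,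
      Fin.sum_univ_two] <;> ring

lemma ext_vec4 {A B : Matrix (Fin 4) (Fin 4) ℂ} (h : ∀ w, A *ᵥ vec4 w = B *ᵥ vec4 w) :
    A = B := by
  apply Matrix.mulVec_injective
  ext1 v
  obtain ⟨w, rfl⟩ := vec4.surjective v
  exact h w

lemma K4_bracket (x y x' y' : Matrix (Fin 2) (Fin 2) ℂ) (c c' : ℂ) :
    K4 x y c * K4 x' y' c' - K4 x' y' c' * K4 x y c =
      K4 (x * x' - x' * x) (y * y' - y' * y) 0 := by
  apply ext_vec4
  intro w
  rw [sub_mulVec, ← mulVec_mulVec, ← mulVec_mulVec, K4_mulVec, K4_mulVec, K4_mulVec, K4_mulVec,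
    K4_mulVec, ← map_sub]
  congr 1
  simp only [transpose_sub, transpose_mul, mul_sub, sub_mul, mul_add, add_mul, smul_mul_assoc,
    mul_smul_comm, smul_sub, smul_add, mul_assoc, zero_div, zero_smul, sub_zero]
  rw [smul_comm (c / 2) (c' / 2) w]
  abel

lemma GSO_K4 (x y : Matrix (Fin 2) (Fin 2) ℂ) (c : ℂ) (hx : x.trace = c) (hy : y.trace = c) :
    GSO S0 (K4 x y c) c := by
  rw [trace_fin_two] at hx hy
  have hx' : x 1 1 = c - x 0 0 := by linear_combination hx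
  have hy' : y 1 1 = c - y 0 0 := by linear_combination hy
  unfold GSO
  ext i j
  fin_cases i <;> fin_cases j <;>
    simp [K4, S0, Matrix.mul_apply, Fin.sum_univ_four, hx', hy'] <;> ring

/-- first component -/
noncomputable def aL : (Matrix (Fin 4) (Fin 4) ℂ × ℂ) →ₗ[ℂ] Matrix (Fin 2) (Fin 2) ℂ where
  toFun p := !![(p.1 0 0 + p.1 1 1) / 2 +
      (p.2 / 2 - (p.1 0 0 + p.1 1 1 + p.1 2 2 + p.1 3 3) / 4), (p.1 0 2 + p.1 1 3) / 2;
      (p.1 2 0 + p.1 3 1) / 2, (p.1 2 2 + p.1 3 3) / 2 +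
      (p.2 / 2 - (p.1 0 0 + p.1 1 1 + p.1 2 2 + p.1 3 3) / 4)]
  map_add' := by
    intro p q
    ext i j; fin_cases i <;> fin_cases j <;> simp <;> ring
  map_smul' := by
    intro r p
    ext i j; fin_cases i <;> fin_cases j <;> simp <;> ring

/-- second component -/
noncomputable def aR : (Matrix (Fin 4) (Fin 4) ℂ × ℂ) →ₗ[ℂ] Matrix (Fin 2) (Fin 2) ℂ where
  toFun p := !![(p.1 0 0 + p.1 2 2) / 2 +
      (p.2 / 2 - (p.1 0 0 + p.1 1 1 + p.1 2 2 + p.1 3 3) / 4), (p.1 0 1 + p.1 2 3) / 2;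
      (p.1 1 0 + p.1 3 2) / 2, (p.1 1 1 + p.1 3 3) / 2 +
      (p.2 / 2 - (p.1 0 0 + p.1 1 1 + p.1 2 2 + p.1 3 3) / 4)]
  map_add' := by
    intro p q
    ext i j; fin_cases i <;> fin_cases j <;> simp <;> ring
  map_smul' := by
    intro r p
    ext i j; fin_cases i <;> fin_cases j <;> simp <;> ring

lemma aL_apply (M : Matrix (Fin 4) (Fin 4) ℂ) (c : ℂ) :
    aL (M, c) = !![(M 0 0 + M 1 1) / 2 +
      (c / 2 - (M 0 0 + M 1 1 + M 2 2 + M 3 3) / 4), (M 0 2 + M 1 3) / 2;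
      (M 2 0 + M 3 1) / 2, (M 2 2 + M 3 3) / 2 +
      (c / 2 - (M 0 0 + M 1 1 + M 2 2 + M 3 3) / 4)] := rfl

lemma aR_apply (M : Matrix (Fin 4) (Fin 4) ℂ) (c : ℂ) :
    aR (M, c) = !![(M 0 0 + M 2 2) / 2 +
      (c / 2 - (M 0 0 + M 1 1 + M 2 2 + M 3 3) / 4), (M 0 1 + M 2 3) / 2;
      (M 1 0 + M 3 2) / 2, (M 1 1 + M 3 3) / 2 +
      (c / 2 - (M 0 0 + M 1 1 + M 2 2 + M 3 3) / 4)] := rfl

lemma aL_tr (M : Matrix (Fin 4) (Fin 4) ℂ) (c : ℂ) : (aL (M, c)).trace = c := by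
  rw [aL_apply, trace_fin_two]; simp; ring

lemma aR_tr (M : Matrix (Fin 4) (Fin 4) ℂ) (c : ℂ) : (aR (M, c)).trace = c := by
  rw [aR_apply, trace_fin_two]; simp; ring

lemma aL_K4 (x y : Matrix (Fin 2) (Fin 2) ℂ) (c : ℂ) (hx : x.trace = c) (hy : y.trace = c) :
    aL (K4 x y c, c) = x := by
  rw [trace_fin_two] at hx hy
  have hx' : x 1 1 = c - x 0 0 := by linear_combination hx
  have hy' : y 1 1 = c - y 0 0 := by linear_combination hy
  rw [aL_apply]
  ext i j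
  fin_cases i <;> fin_cases j <;> simp [K4, hx', hy'] <;> ring

lemma aR_K4 (x y : Matrix (Fin 2) (Fin 2) ℂ) (c : ℂ) (hx : x.trace = c) (hy : y.trace = c) :
    aR (K4 x y c, c) = y := by
  rw [trace_fin_two] at hx hy
  have hx' : x 1 1 = c - x 0 0 := by linear_combination hx
  have hy' : y 1 1 = c - y 0 0 := by linear_combination hy
  rw [aR_apply]
  ext i j
  fin_cases i <;> fin_cases j <;> simp [K4, hx', hy'] <;> ring

lemma eq_K4 (M : Matrix (Fin 4) (Fin 4) ℂ) (c : ℂ) (h : GSO S0 M c) :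
    M = K4 (aL (M, c)) (aR (M, c)) c := by
  have key : ∀ i j, (Mᵀ * S0 + S0 * M) i j = (c • S0) i j := fun i j => by rw [h]
  have h00 := key 0 0
  have h01 := key 0 1
  have h02 := key 0 2
  have h03 := key 0 3
  have h11 := key 1 1
  have h12 := key 1 2
  have h13 := key 1 3
  have h22 := key 2 2
  have h23 := key 2 3
  have h33 := key 3 3
  simp [S0, Matrix.mul_apply, Fin.sum_univ_four, Matrix.vecMul, dotProduct]
    at h00 h01 h02 h03 h11 h12 h13 h22 h23 h33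
  have e30 : M 3 0 = 0 := h00
  have e31 : M 3 1 = M 2 0 := by linear_combination h01
  have e32 : M 3 2 = M 1 0 := by linear_combination h02
  have e33 : M 3 3 = c - M 0 0 := by linear_combination h03
  have e21 : M 2 1 = 0 := h11
  have e22 : M 2 2 = c - M 1 1 := by linear_combination -h12
  have e23 : M 2 3 = M 0 1 := by linear_combination -h13
  have e12 : M 1 2 = 0 := h22
  have e13 : M 1 3 = M 0 2 := by linear_combination -h23
  have e03 : M 0 3 = 0 := h33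
  rw [aL_apply, aR_apply]
  ext i j
  fin_cases i <;> fin_cases j <;>
    simp [K4, e30, e31, e32, e33, e21, e22, e23, e12, e13, e03] <;> ring

/-- all symmetric nondegenerate forms are congruent -/
lemma exists_congr (S : Matrix (Fin 4) (Fin 4) ℂ) (hS : Sᵀ = S) (hdet : S.det ≠ 0) :
    ∃ P P' : Matrix (Fin 4) (Fin 4) ℂ, P * P' = 1 ∧ P' * P = 1 ∧ S = Pᵀ * S0 * P := by
  have hS0 : S0ᵀ = S0 := by
    ext i j; fin_cases i <;> fin_cases j <;> simp [S0]
  have hdet0 : S0.det ≠ 0 := by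
    have h1 : S0 * S0 = 1 := by
      ext i j; fin_cases i <;> fin_cases j <;> simp [S0, Matrix.mul_apply, Fin.sum_univ_four]
    intro h2
    have h3 := congrArg Matrix.det h1
    rw [det_mul, h2, mul_zero, det_one] at h3
    exact zero_ne_one h3
  have hassoc : ∀ T : Matrix (Fin 4) (Fin 4) ℂ, Tᵀ = T →
      QuadraticMap.associated (R := ℂ) T.toQuadraticForm' = Matrix.toLinearMap₂' ℂ T := by
    intro T hT
    apply QuadraticMap.associated_left_inverse
    intro x y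
    simp only [Matrix.toLinearMap₂'_apply']
    rw [dotProduct_mulVec, ← mulVec_transpose, hT, dotProduct_comm]
  have hsep : ∀ T : Matrix (Fin 4) (Fin 4) ℂ, Tᵀ = T → T.det ≠ 0 →
      (QuadraticMap.associated (R := ℂ) T.toQuadraticForm').SeparatingLeft := by
    intro T hT hd
    rw [hassoc T hT]
    exact (Matrix.nondegenerate_of_det_ne_zero hd).separatingLeft.toLinearMap₂'
  obtain ⟨e⟩ := QuadraticForm.equivalent_of_isAlgClosed S.toQuadraticForm' S0.toQuadraticForm'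
    (hsep S hS hdet) (hsep S0 hS0 hdet0)
  obtain ⟨L, hL⟩ : ∃ L : (Fin 4 → ℂ) ≃ₗ[ℂ] (Fin 4 → ℂ),
      ∀ v, S0.toQuadraticForm' (L v) = S.toQuadraticForm' v :=
    ⟨e.toLinearEquiv, fun v => e.map_app v⟩
  refine ⟨LinearMap.toMatrix' (L : (Fin 4 → ℂ) →ₗ[ℂ] (Fin 4 → ℂ)),
    LinearMap.toMatrix' (L.symm : (Fin 4 → ℂ) →ₗ[ℂ] (Fin 4 → ℂ)), ?_, ?_, ?_⟩
  · rw [← LinearMap.toMatrix'_comp]
    simp
  · rw [← LinearMap.toMatrix'_comp]
    simp
  · obtain ⟨P, hP⟩ : ∃ P, P = LinearMap.toMatrix' (L : (Fin 4 → ℂ) →ₗ[ℂ] (Fin 4 → ℂ)) := ⟨_, rfl⟩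
    rw [← hP]
    have hPL : ∀ v, L v = P *ᵥ v := by
      intro v
      rw [hP, LinearMap.toMatrix'_mulVec]
      rfl
    have hT : (Pᵀ * S0 * P)ᵀ = Pᵀ * S0 * P := by
      rw [transpose_mul, transpose_mul, transpose_transpose, hS0, Matrix.mul_assoc]
    have hquad : S.toQuadraticForm' = (Pᵀ * S0 * P).toQuadraticForm' := by
      ext v
      rw [← hL v, hPL]
      simp only [Matrix.toQuadraticForm', LinearMap.BilinMap.toQuadraticMap_apply,
        Matrix.toLinearMap₂'_apply']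
      rw [← mulVec_mulVec, ← mulVec_mulVec, dotProduct_mulVec v, vecMul_transpose]
    have h1 := hassoc S hS
    rw [hquad, hassoc _ hT] at h1
    exact ((Matrix.toLinearMap₂' ℂ).injective h1).symm

/-- conjugation as a linear map on pairs -/
def conjPair (P P' : Matrix (Fin 4) (Fin 4) ℂ) :
    (Matrix (Fin 4) (Fin 4) ℂ × ℂ) →ₗ[ℂ] (Matrix (Fin 4) (Fin 4) ℂ × ℂ) where
  toFun p := (P * p.1 * P', p.2)
  map_add' := by
    intro p q
    simp [Matrix.mul_add, Matrix.add_mul]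
  map_smul' := by
    intro r p
    simp

lemma conjPair_apply (P P' M : Matrix (Fin 4) (Fin 4) ℂ) (c : ℂ) :
    conjPair P P' (M, c) = (P * M * P', c) := rfl

lemma GSO_conj {S P P' M : Matrix (Fin 4) (Fin 4) ℂ} {c : ℂ} (h1 : P * P' = 1) (h2 : P' * P = 1)
    (hS : S = Pᵀ * S0 * P) : GSO S M c ↔ GSO S0 (P * M * P') c := by
  have h1t : P'ᵀ * Pᵀ = 1 := by rw [← transpose_mul, h1, transpose_one]
  have h2t : Pᵀ * P'ᵀ = 1 := by rw [← transpose_mul, h2, transpose_one]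
  unfold GSO
  have key : Mᵀ * S + S * M = Pᵀ * ((P * M * P')ᵀ * S0 + S0 * (P * M * P')) * P := by
    rw [hS, transpose_mul, transpose_mul, Matrix.mul_add, Matrix.add_mul]
    congr 1
    · calc Mᵀ * (Pᵀ * S0 * P) = 1 * Mᵀ * Pᵀ * S0 * P := by simp [Matrix.mul_assoc]
        _ = _ := by rw [← h2t]; simp only [Matrix.mul_assoc]
    · calc Pᵀ * S0 * P * M = Pᵀ * S0 * P * M * 1 := by simp
        _ = _ := by rw [← h2]; simp only [Matrix.mul_assoc]
  have key2 : c • S = Pᵀ * (c • S0) * P := by rw [hS]; simp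
  rw [key, key2]
  constructor
  · intro h
    have h3 := congrArg (fun X => P'ᵀ * X * P') h
    have h4 : ∀ X : Matrix (Fin 4) (Fin 4) ℂ, P'ᵀ * (Pᵀ * X * P) * P' = X := by
      intro X
      calc P'ᵀ * (Pᵀ * X * P) * P' = (P'ᵀ * Pᵀ) * X * (P * P') := by
            simp only [Matrix.mul_assoc]
        _ = X := by rw [h1t, h1]; simp
    rwa [h4, h4] at h3
  · intro h
    rw [h]

/-- the linear equivalence given by an invertible matrix -/
def mulVecEquiv (P P' : Matrix (Fin 4) (Fin 4) ℂ) (h1 : P * P' = 1) (h2 : P' * P = 1) :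
    (Fin 4 → ℂ) ≃ₗ[ℂ] (Fin 4 → ℂ) where
  toFun v := P *ᵥ v
  invFun v := P' *ᵥ v
  map_add' := fun x y => mulVec_add _ _ _
  map_smul' := fun r x => mulVec_smul _ _ _
  left_inv := by
    intro v
    simp [mulVec_mulVec, h2]
  right_inv := by
    intro v
    simp [mulVec_mulVec, h1]

/-- (A1) every nondegenerate symmetric form has a splitting -/
theorem exists_split4 (S : Matrix (Fin 4) (Fin 4) ℂ) (hS : Sᵀ = S) (hdet : S.det ≠ 0) :
    Nonempty (Split4 S) := by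
  obtain ⟨P, P', h1, h2, h3⟩ := exists_congr S hS hdet
  have hconj : ∀ {M : Matrix (Fin 4) (Fin 4) ℂ} {c : ℂ}, GSO S M c ↔ GSO S0 (P * M * P') c :=
    GSO_conj h1 h2 h3
  have hinv : ∀ M : Matrix (Fin 4) (Fin 4) ℂ, P' * (P * M * P') * P = M := by
    intro M
    calc P' * (P * M * P') * P = (P' * P) * M * (P' * P) := by simp only [Matrix.mul_assoc]
      _ = M := by rw [h2]; simp
  have hinv' : ∀ M : Matrix (Fin 4) (Fin 4) ℂ, P * (P' * M * P) * P' = M := by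
    intro M
    calc P * (P' * M * P) * P' = (P * P') * M * (P * P') := by simp only [Matrix.mul_assoc]
      _ = M := by rw [h1]; simp
  have hmul : ∀ M N : Matrix (Fin 4) (Fin 4) ℂ, P * (M * N) * P' = (P * M * P') * (P * N * P') := by
    intro M N
    calc P * (M * N) * P' = P * M * 1 * N * P' := by simp [Matrix.mul_assoc]
      _ = _ := by rw [← h2]; simp only [Matrix.mul_assoc]
  obtain ⟨a, ha⟩ : ∃ a : Fin 2 → (Matrix (Fin 4) (Fin 4) ℂ × ℂ) →ₗ[ℂ] Matrix (Fin 2) (Fin 2) ℂ,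
      a = ![aL ∘ₗ conjPair P P', aR ∘ₗ conjPair P P'] := ⟨_, rfl⟩
  have ha0 : ∀ M c, a 0 (M, c) = aL (P * M * P', c) := by
    intro M c; rw [ha]; rfl
  have ha1 : ∀ M c, a 1 (M, c) = aR (P * M * P', c) := by
    intro M c; rw [ha]; rfl
  have hK : ∀ M c, GSO S M c → P * M * P' = K4 (a 0 (M, c)) (a 1 (M, c)) c := by
    intro M c h
    rw [ha0, ha1]
    exact eq_K4 _ _ (hconj.mp h)
  obtain ⟨Φ, hΦ⟩ : ∃ Φ : Matrix (Fin 2) (Fin 2) ℂ ≃ₗ[ℂ] (Fin 4 → ℂ),
      ∀ w, Φ w = P' *ᵥ vec4 w :=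
    ⟨vec4.trans (mulVecEquiv P' P h2 h1), fun w => rfl⟩
  have hact : ∀ M c, GSO S M c → ∀ w,
      M *ᵥ (Φ w) = Φ (a 0 (M, c) * w + w * (a 1 (M, c))ᵀ - (c / 2) • w) := by
    intro M c h w
    rw [hΦ, hΦ, ← K4_mulVec, ← hK M c h, mulVec_mulVec, mulVec_mulVec]
    congr 1
    calc M * P' = 1 * M * P' := by simp
      _ = _ := by rw [← h2]; simp only [Matrix.mul_assoc]
  have htr : ∀ ε M c, (a ε (M, c)).trace = c := by
    intro ε M c
    fin_cases ε
    · exact (congrArg Matrix.trace (ha0 M c)).trans (aL_tr _ _)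
    · exact (congrArg Matrix.trace (ha1 M c)).trans (aR_tr _ _)
  have hext : ∀ M M' : Matrix (Fin 4) (Fin 4) ℂ, P * M * P' = P * M' * P' → M = M' := by
    intro M M' h
    rw [← hinv M, h, hinv]
  refine ⟨⟨a, Φ, hact, htr, ?_, ?_, ?_⟩⟩
  · intro x y c hx hy
    refine ⟨P' * K4 x y c * P, ?_, ?_, ?_⟩
    · rw [hconj, hinv']
      exact GSO_K4 x y c hx hy
    · rw [ha0, hinv']
      exact aL_K4 x y c hx hy
    · rw [ha1, hinv']
      exact aR_K4 x y c hx hy
  · intro M M' c h h' he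
    apply hext
    rw [hK M c h, hK M' c h', he 0, he 1]
  · intro ε M c M' c' h h'
    have hx := htr 0 M c
    have hy := htr 1 M c
    have hx' := htr 0 M' c'
    have hy' := htr 1 M' c'
    have e1 := hK M c h
    have e2 := hK M' c' h'
    obtain ⟨x, hxd⟩ : ∃ x, x = a 0 (M, c) := ⟨_, rfl⟩
    obtain ⟨y, hyd⟩ : ∃ y, y = a 1 (M, c) := ⟨_, rfl⟩
    obtain ⟨x', hxd'⟩ : ∃ x', x' = a 0 (M', c') := ⟨_, rfl⟩
    obtain ⟨y', hyd'⟩ : ∃ y', y' = a 1 (M', c') := ⟨_, rfl⟩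
    rw [← hxd] at hx e1
    rw [← hyd] at hy e1
    rw [← hxd'] at hx' e2
    rw [← hyd'] at hy' e2
    have e3 : P * (M * M' - M' * M) * P' = K4 (x * x' - x' * x) (y * y' - y' * y) 0 := by
      rw [Matrix.mul_sub, Matrix.sub_mul, hmul, hmul, e1, e2]
      exact K4_bracket _ _ _ _ _ _
    have t1 : (x * x' - x' * x).trace = 0 := Helper7.trace_bracket _ _
    have t2 : (y * y' - y' * y).trace = 0 := Helper7.trace_bracket _ _
    fin_cases ε
    · show a 0 (M * M' - M' * M, 0) = a 0 (M, c) * a 0 (M', c') - a 0 (M', c') * a 0 (M, c)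
      rw [ha0 (M * M' - M' * M), e3, ← hxd, ← hxd']
      exact aL_K4 _ _ _ t1 t2
    · show a 1 (M * M' - M' * M, 0) = a 1 (M, c) * a 1 (M', c') - a 1 (M', c') * a 1 (M, c)
      rw [ha1 (M * M' - M' * M), e3, ← hyd, ← hyd']
      exact aR_K4 _ _ _ t1 t2

/-- exchanging the two components of a splitting -/
def Split4.flip {S : Matrix (Fin 4) (Fin 4) ℂ} (D : Split4 S) : Split4 S where
  a ε := D.a (1 - ε)
  Φ := (Matrix.transposeLinearEquiv (Fin 2) (Fin 2) ℂ ℂ).trans D.Φ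
  act := by
    intro M c h w
    show M *ᵥ (D.Φ wᵀ) = D.Φ (D.a 1 (M, c) * w + w * (D.a 0 (M, c))ᵀ - (c / 2) • w)ᵀ
    rw [D.act M c h]
    congr 1
    simp only [transpose_sub, transpose_add, transpose_mul, transpose_transpose, transpose_smul]
    abel
  tr ε M c := D.tr _ M c
  surj := by
    intro x y c hx hy
    obtain ⟨M, h1, h2, h3⟩ := D.surj y x c hy hx
    exact ⟨M, h1, h3, h2⟩
  uniq := by
    intro M M' c h h' he
    apply D.uniq M M' c h h'
    intro ε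
    have := he (1 - ε)
    rwa [sub_sub_cancel] at this
  br ε M c M' c' h h' := D.br _ M c M' c' h h'

section A2

variable {G : Type*} [AddCommGroup G] [Module ℂ G] {S : Matrix (Fin 4) (Fin 4) ℂ}
  (D : Split4 S) (c : G →ₗ[ℂ] ℂ) (B : G →ₗ[ℂ] Matrix (Fin 4) (Fin 4) ℂ)
  (hpol : ∀ X, GSO S (B X) (c X))
  (irr : ∀ U : Submodule ℂ (Fin 4 → ℂ), (∀ X, ∀ v ∈ U, B X *ᵥ v ∈ U) → U = ⊥ ∨ U = ⊤)

include hpol irr

/-- the first component acts without common eigenvector -/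
lemma no_eigenvector (v : Fin 2 → ℂ) (hv : v ≠ 0) :
    ∃ X, ∀ μ : ℂ, D.a 0 (B X, c X) *ᵥ v ≠ μ • v := by
  by_contra hcon
  push Not at hcon
  choose μ hμ using hcon
  obtain ⟨L, hL⟩ : ∃ L : (Fin 2 → ℂ) →ₗ[ℂ] (Fin 4 → ℂ), ∀ u, L u = D.Φ (vecMulVec v u) := by
    refine ⟨{ toFun := fun u => D.Φ (vecMulVec v u), map_add' := ?_, map_smul' := ?_ },
      fun u => rfl⟩
    · intro x y
      rw [vecMulVec_add, map_add]
    · intro r x
      rw [vecMulVec_smul, map_smul, RingHom.id_apply]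
  have hstab : ∀ X, ∀ w ∈ LinearMap.range L, B X *ᵥ w ∈ LinearMap.range L := by
    rintro X w ⟨u, rfl⟩
    refine ⟨μ X • u + D.a 1 (B X, c X) *ᵥ u - (c X / 2) • u, ?_⟩
    rw [hL, hL, D.act _ _ (hpol X)]
    congr 1
    have e1 : D.a 0 (B X, c X) * vecMulVec v u = μ X • vecMulVec v u := by
      rw [mul_vecMulVec, hμ X, smul_vecMulVec]
    have e2 : vecMulVec v u * (D.a 1 (B X, c X))ᵀ = vecMulVec v (D.a 1 (B X, c X) *ᵥ u) := by
      rw [vecMulVec_mul, vecMul_transpose]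
    rw [e1, e2, vecMulVec_sub, vecMulVec_add, vecMulVec_smul, vecMulVec_smul]
  rcases irr _ hstab with h | h
  · apply hv
    have h1 : L ![1, 0] = 0 := by
      have : L ![1, 0] ∈ LinearMap.range L := ⟨_, rfl⟩
      rwa [h, Submodule.mem_bot] at this
    rw [hL] at h1
    have h2 : vecMulVec v ![1, 0] = 0 := by
      apply D.Φ.injective
      rw [h1, map_zero]
    ext i
    have := congrFun (congrFun h2 i) 0
    simpa [vecMulVec_apply] using this
  · have h1 : D.Φ 1 ∈ LinearMap.range L := by rw [h]; trivial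
    obtain ⟨u, hu⟩ := h1
    rw [hL] at hu
    have h2 := D.Φ.injective hu
    have a00 := congrFun (congrFun h2 0) 0
    have a01 := congrFun (congrFun h2 0) 1
    have a10 := congrFun (congrFun h2 1) 0
    have a11 := congrFun (congrFun h2 1) 1
    simp only [vecMulVec_apply, Matrix.one_apply_eq, Matrix.one_apply_ne (by decide : (0 : Fin 2) ≠ 1),
      Matrix.one_apply_ne (by decide : (1 : Fin 2) ≠ 0)] at a00 a01 a10 a11
    have : (1 : ℂ) = 0 := by
      calc (1 : ℂ) = (v 0 * u 0) * (v 1 * u 1) := by rw [a00, a11, one_mul]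
        _ = (v 0 * u 1) * (v 1 * u 0) := by ring
        _ = 0 := by rw [a01, zero_mul]
    exact one_ne_zero this

/-- (A2) (1) for the first component -/
lemma comp_surj0 (br : G → G → G)
    (hbr : ∀ X Y, B (br X Y) = B X * B Y - B Y * B X) (hc : ∀ X Y, c (br X Y) = 0)
    (Z : Matrix (Fin 2) (Fin 2) ℂ) (hZ : Z.trace = 0) : ∃ X, D.a 0 (B X, c X) = Z := by
  obtain ⟨f, hf⟩ : ∃ f : G →ₗ[ℂ] Matrix (Fin 2) (Fin 2) ℂ, ∀ X, f X = D.a 0 (B X, c X) :=
    ⟨D.a 0 ∘ₗ (B.prod c), fun X => rfl⟩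
  have hirr : ∀ v : Fin 2 → ℂ, v ≠ 0 → ∃ x ∈ LinearMap.range f, ∀ μ : ℂ, x *ᵥ v ≠ μ • v := by
    intro v hv
    obtain ⟨X, hX⟩ := no_eigenvector D c B hpol irr v hv
    exact ⟨f X, ⟨X, rfl⟩, by rw [hf]; exact hX⟩
  have hbrf : ∀ x ∈ LinearMap.range f, ∀ y ∈ LinearMap.range f,
      x * y - y * x ∈ LinearMap.range f := by
    rintro _ ⟨X, rfl⟩ _ ⟨Y, rfl⟩
    refine ⟨br X Y, ?_⟩
    rw [hf, hf, hf, hbr, hc]
    exact D.br 0 _ _ _ _ (hpol X) (hpol Y)
  have hcomm : ∀ t : Matrix (Fin 2) (Fin 2) ℂ, (∀ x ∈ LinearMap.range f, x * t = t * x) →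
      ∃ μ : ℂ, t = μ • 1 := by
    intro t ht
    obtain ⟨μ, hμ⟩ := Module.End.exists_eigenvalue (Matrix.toLin' t)
    obtain ⟨v, hv⟩ := hμ.exists_hasEigenvector
    have hv0 : v ≠ 0 := hv.2
    have htv : t *ᵥ v = μ • v := by
      have := hv.apply_eq_smul
      rwa [Matrix.toLin'_apply] at this
    obtain ⟨x, hx, hxv⟩ := hirr v hv0
    have htx : t *ᵥ (x *ᵥ v) = μ • (x *ᵥ v) := by
      rw [mulVec_mulVec, ← ht x hx, ← mulVec_mulVec, htv, mulVec_smul]
    refine ⟨μ, ?_⟩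
    obtain ⟨w, hw⟩ : ∃ w, w = x *ᵥ v := ⟨_, rfl⟩
    rw [← hw] at htx hxv
    have hdet : v 0 * w 1 - v 1 * w 0 ≠ 0 := by
      intro h0
      by_cases hv1 : v 0 = 0
      · have hv2 : v 1 ≠ 0 := by
          intro h2
          apply hv0
          ext i; fin_cases i
          · exact hv1
          · exact h2
        apply hxv (w 1 / v 1)
        ext i; fin_cases i
        · show w 0 = (w 1 / v 1) * v 0
          rw [hv1, zero_mul, zero_sub, neg_eq_zero] at h0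
          rw [hv1, mul_zero]
          exact (mul_eq_zero.mp h0).resolve_left hv2
        · show w 1 = (w 1 / v 1) * v 1
          field_simp
      · apply hxv (w 0 / v 0)
        ext i; fin_cases i
        · show w 0 = (w 0 / v 0) * v 0
          field_simp
        · show w 1 = (w 0 / v 0) * v 1
          field_simp
          linear_combination h0
    have ev0 := congrFun htv 0
    have ev1 := congrFun htv 1
    have ew0 := congrFun htx 0
    have ew1 := congrFun htx 1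
    simp only [Matrix.mulVec, dotProduct, Fin.sum_univ_two, Pi.smul_apply, smul_eq_mul]
      at ev0 ev1 ew0 ew1
    have k : ∀ p q : ℂ, p * v 0 + q * v 1 = 0 → p * w 0 + q * w 1 = 0 → p = 0 ∧ q = 0 := by
      intro p q h1 h2
      constructor
      · have h3 : p * (v 0 * w 1 - v 1 * w 0) = 0 := by linear_combination w 1 * h1 - v 1 * h2
        exact (mul_eq_zero.mp h3).resolve_right hdet
      · have h3 : q * (v 0 * w 1 - v 1 * w 0) = 0 := by linear_combination v 0 * h2 - w 0 * h1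
        exact (mul_eq_zero.mp h3).resolve_right hdet
    have r0 := k (t 0 0 - μ) (t 0 1) (by linear_combination ev0) (by linear_combination ew0)
    have r1 := k (t 1 0) (t 1 1 - μ) (by linear_combination ev1) (by linear_combination ew1)
    ext i j
    fin_cases i <;> fin_cases j
    · simpa using sub_eq_zero.mp r0.1
    · simpa using r0.2
    · simpa using r1.1
    · simpa using sub_eq_zero.mp r1.2
  obtain ⟨X, hX⟩ := Helper7.sl2_mem (LinearMap.range f) hbrf hirr hcomm Z hZ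
  exact ⟨X, by rw [← hf, hX]⟩

/-- (A2) (1): both components are onto the trace zero matrices -/
theorem comp_surj (br : G → G → G)
    (hbr : ∀ X Y, B (br X Y) = B X * B Y - B Y * B X) (hc : ∀ X Y, c (br X Y) = 0)
    (ε : Fin 2) (Z : Matrix (Fin 2) (Fin 2) ℂ) (hZ : Z.trace = 0) :
    ∃ X, D.a ε (B X, c X) = Z := by
  fin_cases ε
  · exact comp_surj0 D c B hpol irr br hbr hc Z hZ
  · exact comp_surj0 D.flip c B hpol irr br hbr hc Z hZ

/-- (A2) (2): the two components are not conjugate -/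
theorem comp_not_conj :
    ¬ ∃ Q : Matrix (Fin 2) (Fin 2) ℂ, Q.det ≠ 0 ∧
      ∀ X, D.a 0 (B X, c X) * Q = Q * D.a 1 (B X, c X) := by
  rintro ⟨Q, hQ, hc⟩
  obtain ⟨J, hJ⟩ : ∃ J : Matrix (Fin 2) (Fin 2) ℂ, J = !![0, 1; -1, 0] := ⟨_, rfl⟩
  have hJJ : J * J = -1 := by
    rw [hJ]; ext i j; fin_cases i <;> fin_cases j <;> simp
  have hyJ : ∀ y : Matrix (Fin 2) (Fin 2) ℂ, y * J + J * yᵀ = y.trace • J := by
    intro y
    rw [hJ, trace_fin_two]
    ext i j; fin_cases i <;> fin_cases j <;>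
      simp [Matrix.mul_apply, Fin.sum_univ_two, Matrix.vecMul, dotProduct, Matrix.transpose_apply]
  have hstab : ∀ X, ∀ w ∈ Submodule.span ℂ {D.Φ (Q * J)},
      B X *ᵥ w ∈ Submodule.span ℂ {D.Φ (Q * J)} := by
    intro X w hw
    obtain ⟨r, rfl⟩ := Submodule.mem_span_singleton.mp hw
    rw [mulVec_smul]
    apply Submodule.smul_mem
    rw [D.act _ _ (hpol X)]
    have e1 : D.a 0 (B X, c X) * (Q * J) + Q * J * (D.a 1 (B X, c X))ᵀ - (c X / 2) • (Q * J) =
        (c X / 2) • (Q * J) := by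
      rw [← mul_assoc, hc X, mul_assoc, mul_assoc, ← mul_add, hyJ, D.tr, mul_smul_comm,
        ← sub_smul]
      congr 1
      ring
    rw [e1, map_smul]
    exact Submodule.smul_mem _ _ (Submodule.mem_span_singleton_self _)
  have hQJ : Q * J ≠ 0 := by
    intro h
    have h1 : Q * J * J = 0 := by rw [h, zero_mul]
    rw [mul_assoc, hJJ, mul_neg, mul_one, neg_eq_zero] at h1
    rw [h1] at hQ
    simp at hQ
  rcases irr _ hstab with h | h
  · have h1 : D.Φ (Q * J) ∈ Submodule.span ℂ {D.Φ (Q * J)} := Submodule.mem_span_singleton_self _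
    rw [h, Submodule.mem_bot] at h1
    exact hQJ (D.Φ.injective (by rw [h1, map_zero]))
  · have h1 := finrank_span_singleton (K := ℂ)
      (show D.Φ (Q * J) ≠ 0 from fun h0 => hQJ (D.Φ.injective (by rw [h0, map_zero])))
    rw [h, finrank_top, Module.finrank_fin_fun] at h1
    norm_num at h1

end A2

end Pool.Agent.Helper36
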