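import Mathlib
import Pool.Agent.Helper36.So4

/-!
The splitting of the similitude Lie algebra of a quaternary form: idempotents, squares and traces.
-/

namespace Pool.Agent.Helper36

open Matrix

/-- if `x ⊗ y` is scalar and `y` has trace zero, then `x` or `y` vanishes -/
lemma tensor_scalar (x y : Matrix (Fin 2) (Fin 2) ℂ) (s : ℂ)
    (h : ∀ w : Matrix (Fin 2) (Fin 2) ℂ, x * w * yᵀ = s • w) (hy : y.trace = 0) :
    x = 0 ∨ y = 0 := by
  have e : ∀ i k l j, x i k * y l j = s * (if k = i ∧ j = l then 1 else 0) := by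
    intro i k l j
    have h1 := congrFun (congrFun (h (Matrix.single k j 1)) i) l
    rw [Matrix.smul_apply, Matrix.single_apply, smul_eq_mul] at h1
    rw [← h1]
    fin_cases j <;> fin_cases k <;>
      simp [Matrix.mul_apply, Fin.sum_univ_two, Matrix.single_apply]
  have hs : s = 0 := by
    have h1 := e 0 0 0 0
    have h2 := e 0 0 1 1
    simp at h1 h2
    rw [trace_fin_two] at hy
    have h3 : x 0 0 * (y 0 0 + y 1 1) = s + s := by rw [mul_add, h1, h2]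
    rw [hy, mul_zero] at h3
    linear_combination -h3 / 2
  by_cases hx : x = 0
  · exact Or.inl hx
  · right
    obtain ⟨i, k, hik⟩ : ∃ i k, x i k ≠ 0 := by
      by_contra hcon
      push Not at hcon
      exact hx (by ext i k; exact hcon i k)
    ext l j
    have h1 := e i k l j
    rw [hs, zero_mul] at h1
    exact (mul_eq_zero.mp h1).resolve_left hik

lemma sq_of_trace_zero (x : Matrix (Fin 2) (Fin 2) ℂ) (hx : x.trace = 0) :
    x * x = (-x.det) • 1 := by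
  rw [trace_fin_two] at hx
  have hx' : x 1 1 = - x 0 0 := by linear_combination hx
  ext i j
  fin_cases i <;> fin_cases j <;>
    simp [Matrix.mul_apply, Fin.sum_univ_two, det_fin_two, hx'] <;> ring

lemma anticomm_of_trace_zero (x y : Matrix (Fin 2) (Fin 2) ℂ) (hx : x.trace = 0)
    (hy : y.trace = 0) : x * y + y * x = (x * y).trace • 1 := by
  rw [trace_fin_two] at hx hy
  have hx' : x 1 1 = - x 0 0 := by linear_combination hx
  have hy' : y 1 1 = - y 0 0 := by linear_combination hy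
  ext i j
  fin_cases i <;> fin_cases j <;>
    simp [Matrix.mul_apply, Fin.sum_univ_two, trace_fin_two, hx', hy'] <;> ring

section

variable {S : Matrix (Fin 4) (Fin 4) ℂ} (D : Split4 S)

namespace Split4

lemma ext_mat {A B : Matrix (Fin 4) (Fin 4) ℂ} (h : ∀ w, A *ᵥ D.Φ w = B *ᵥ D.Φ w) : A = B := by
  apply Matrix.mulVec_injective
  ext1 v
  obtain ⟨w, rfl⟩ := D.Φ.surjective v
  exact h w

lemma act0 {M : Matrix (Fin 4) (Fin 4) ℂ} (h : GSO S M 0) (w : Matrix (Fin 2) (Fin 2) ℂ) :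
    M *ᵥ D.Φ w = D.Φ (D.a 0 (M, 0) * w + w * (D.a 1 (M, 0))ᵀ) := by
  rw [D.act M 0 h, zero_div, zero_smul, sub_zero]

end Split4

/-- (A3) (3) -/
theorem sq_scalar_iff {M : Matrix (Fin 4) (Fin 4) ℂ} (h : GSO S M 0) :
    (∃ s : ℂ, M * M = s • 1) ↔ D.a 0 (M, 0) = 0 ∨ D.a 1 (M, 0) = 0 := by
  obtain ⟨x, hx⟩ : ∃ x, x = D.a 0 (M, 0) := ⟨_, rfl⟩
  obtain ⟨y, hy⟩ : ∃ y, y = D.a 1 (M, 0) := ⟨_, rfl⟩
  have tx : x.trace = 0 := by rw [hx, D.tr]
  have ty : y.trace = 0 := by rw [hy, D.tr]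
  have hM : ∀ w, M *ᵥ D.Φ w = D.Φ (x * w + w * yᵀ) := by
    intro w
    rw [D.act0 h, hx, hy]
  have hMM : ∀ w, (M * M) *ᵥ D.Φ w =
      D.Φ ((-x.det - y.det) • w + (2 : ℂ) • (x * w * yᵀ)) := by
    intro w
    rw [← mulVec_mulVec, hM, hM]
    congr 1
    have e1 : x * (x * w + w * yᵀ) + (x * w + w * yᵀ) * yᵀ =
        (x * x) * w + (2 : ℂ) • (x * w * yᵀ) + w * (y * y)ᵀ := by
      rw [transpose_mul, mul_add, add_mul, two_smul]
      simp only [mul_assoc]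
      abel
    rw [e1, sq_of_trace_zero x tx, sq_of_trace_zero y ty, transpose_smul, transpose_one,
      smul_mul_assoc, one_mul, mul_smul_comm, mul_one, sub_smul, neg_smul, neg_smul]
    abel
  rw [← hx, ← hy]
  constructor
  · rintro ⟨s, hs⟩
    apply tensor_scalar x y ((s + x.det + y.det) / 2) _ ty
    intro w
    have h1 := hMM w
    rw [hs, smul_mulVec, one_mulVec, ← map_smul] at h1
    have h2 := D.Φ.injective h1
    have h3 : (2 : ℂ) • (x * w * yᵀ) = (s + x.det + y.det) • w := by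
      have h4 : (2 : ℂ) • (x * w * yᵀ) = s • w - (-x.det - y.det) • w := by
        rw [h2]; abel
      rw [h4, ← sub_smul]
      congr 1
      ring
    have h5 := congrArg (fun m => (2 : ℂ)⁻¹ • m) h3
    simp only [smul_smul] at h5
    rw [inv_mul_cancel₀ two_ne_zero, one_smul] at h5
    rw [h5]
    congr 1
    ring
  · intro h0
    refine ⟨-x.det - y.det, D.ext_mat fun w => ?_⟩
    have h1 : x * w * yᵀ = 0 := by
      rcases h0 with h0 | h0
      · rw [h0]; simp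
      · rw [h0]; simp
    rw [hMM, h1, smul_zero, add_zero, map_smul, smul_mulVec, one_mulVec]

/-- coordinates: a splitting is conjugate to the standard one -/
lemma exists_coord : ∃ P P' : Matrix (Fin 4) (Fin 4) ℂ, P * P' = 1 ∧ P' * P = 1 ∧
    (∀ w, D.Φ w = P *ᵥ vec4 w) ∧
    ∀ M c, GSO S M c → M = P * K4 (D.a 0 (M, c)) (D.a 1 (M, c)) c * P' := by
  obtain ⟨L, hL⟩ : ∃ L : (Fin 4 → ℂ) ≃ₗ[ℂ] (Fin 4 → ℂ), ∀ w, L (vec4 w) = D.Φ w :=
    ⟨vec4.symm.trans D.Φ, fun w => by simp⟩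
  refine ⟨LinearMap.toMatrix' (L : (Fin 4 → ℂ) →ₗ[ℂ] (Fin 4 → ℂ)),
    LinearMap.toMatrix' (L.symm : (Fin 4 → ℂ) →ₗ[ℂ] (Fin 4 → ℂ)), ?_, ?_, ?_, ?_⟩
  · rw [← LinearMap.toMatrix'_comp]
    simp
  · rw [← LinearMap.toMatrix'_comp]
    simp
  · intro w
    rw [LinearMap.toMatrix'_mulVec, ← hL]
    rfl
  · intro M c h
    have h1 : LinearMap.toMatrix' (L : (Fin 4 → ℂ) →ₗ[ℂ] (Fin 4 → ℂ)) *
        LinearMap.toMatrix' (L.symm : (Fin 4 → ℂ) →ₗ[ℂ] (Fin 4 → ℂ)) = 1 := by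
      rw [← LinearMap.toMatrix'_comp]
      simp
    have h2 : M * LinearMap.toMatrix' (L : (Fin 4 → ℂ) →ₗ[ℂ] (Fin 4 → ℂ)) =
        LinearMap.toMatrix' (L : (Fin 4 → ℂ) →ₗ[ℂ] (Fin 4 → ℂ)) *
          K4 (D.a 0 (M, c)) (D.a 1 (M, c)) c := by
      apply ext_vec4
      intro w
      rw [← mulVec_mulVec, ← mulVec_mulVec, K4_mulVec, LinearMap.toMatrix'_mulVec,
        LinearMap.toMatrix'_mulVec]
      show M *ᵥ L (vec4 w) = L (vec4 _)
      rw [hL, hL, D.act M c h]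
    rw [← h2, Matrix.mul_assoc, h1, Matrix.mul_one]

/-- (A3) (4) -/
theorem trace_sq {M : Matrix (Fin 4) (Fin 4) ℂ} (h : GSO S M 0) :
    (M * M).trace = 2 * (D.a 0 (M, 0) * D.a 0 (M, 0)).trace +
      2 * (D.a 1 (M, 0) * D.a 1 (M, 0)).trace := by
  obtain ⟨P, P', h1, h2, -, h4⟩ := exists_coord D
  have h5 := h4 M 0 h
  have tx : (D.a 0 (M, 0)).trace = 0 := D.tr _ _ _
  have ty : (D.a 1 (M, 0)).trace = 0 := D.tr _ _ _
  obtain ⟨x, hx⟩ : ∃ x, x = D.a 0 (M, 0) := ⟨_, rfl⟩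
  obtain ⟨y, hy⟩ : ∃ y, y = D.a 1 (M, 0) := ⟨_, rfl⟩
  rw [← hx] at tx h5 ⊢
  rw [← hy] at ty h5 ⊢
  have h6 : (M * M).trace = (K4 x y 0 * K4 x y 0).trace := by
    rw [h5]
    calc (P * K4 x y 0 * P' * (P * K4 x y 0 * P')).trace
        = (P * (K4 x y 0 * (P' * P) * K4 x y 0 * P')).trace := by simp only [Matrix.mul_assoc]
      _ = (K4 x y 0 * (P' * P) * K4 x y 0 * P' * P).trace := by rw [trace_mul_comm]
      _ = (K4 x y 0 * (P' * P) * K4 x y 0 * (P' * P)).trace := by simp only [Matrix.mul_assoc]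
      _ = _ := by rw [h2]; simp
  rw [h6]
  rw [trace_fin_two] at tx ty
  have hx' : x 1 1 = - x 0 0 := by linear_combination tx
  have hy' : y 1 1 = - y 0 0 := by linear_combination ty
  simp [K4, Matrix.trace, Matrix.mul_apply, Fin.sum_univ_four, Fin.sum_univ_two, hx', hy']
  ring

lemma GSO_add {M N : Matrix (Fin 4) (Fin 4) ℂ} {c d : ℂ} (h : GSO S M c) (h' : GSO S N d) :
    GSO S (M + N) (c + d) := by
  unfold GSO at *
  rw [transpose_add, Matrix.add_mul, Matrix.mul_add, add_smul, ← h, ← h']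
  abel

lemma GSO_smul {M : Matrix (Fin 4) (Fin 4) ℂ} {c : ℂ} (r : ℂ) (h : GSO S M c) :
    GSO S (r • M) (r * c) := by
  unfold GSO at *
  rw [transpose_smul, Matrix.smul_mul, Matrix.mul_smul, ← smul_add, h, smul_smul]

lemma GSO_one : GSO S 1 2 := by
  unfold GSO
  rw [transpose_one, Matrix.one_mul, Matrix.mul_one, two_smul]

/-- the components of the identity matrix -/
lemma a_one (ε : Fin 2) : D.a ε (1, 2) = 1 := by
  obtain ⟨M, h, h0, h1⟩ := D.surj 1 1 2 (by simp) (by simp)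
  have hM : M = 1 := by
    apply D.ext_mat
    intro w
    rw [D.act M 2 h, h0, h1, one_mulVec, one_mul, transpose_one, mul_one, div_self two_ne_zero,
      one_smul, add_sub_cancel_right]
  rw [hM] at h0 h1
  fin_cases ε
  · exact h0
  · exact h1

/-- the involution attached to an idempotent -/
lemma inv_props {M : Matrix (Fin 4) (Fin 4) ℂ} (h : GSO S M 1) (hM : M * M = M) :
    GSO S ((2 : ℂ) • M - 1) 0 ∧ ((2 : ℂ) • M - 1) * ((2 : ℂ) • M - 1) = 1 ∧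
    ∀ ε, D.a ε ((2 : ℂ) • M - 1, 0) = (2 : ℂ) • D.a ε (M, 1) - 1 := by
  refine ⟨?_, ?_, ?_⟩
  · have h1 := GSO_add (GSO_smul 2 h) (GSO_smul (-1) (GSO_one (S := S)))
    rw [show (2 : ℂ) * 1 + -1 * 2 = 0 by norm_num, neg_smul, one_smul, ← sub_eq_add_neg] at h1
    exact h1
  · rw [Matrix.sub_mul, Matrix.mul_sub, Matrix.one_mul, Matrix.mul_one, Matrix.smul_mul,
      Matrix.mul_smul, hM, smul_smul]
    rw [show (2 : ℂ) * 2 = 2 + 2 by norm_num, add_smul]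
    abel
  · intro ε
    have h1 : (((2 : ℂ) • M - 1, (0 : ℂ)) : Matrix (Fin 4) (Fin 4) ℂ × ℂ) =
        (2 : ℂ) • (M, (1 : ℂ)) - (1, (2 : ℂ)) := by
      ext1 <;> simp
    rw [h1, map_sub, map_smul, a_one]

/-- (A3) (5) -/
theorem exists_unique_half {M : Matrix (Fin 4) (Fin 4) ℂ} (h : GSO S M 1) (hM : M * M = M) :
    ∃! ε, D.a ε (M, 1) = (1 / 2 : ℂ) • 1 := by
  obtain ⟨hT, hTT, hTa⟩ := inv_props D h hM
  have hiff : ∀ ε, D.a ε ((2 : ℂ) • M - 1, 0) = 0 ↔ D.a ε (M, 1) = (1 / 2 : ℂ) • 1 := by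
    intro ε
    rw [hTa, sub_eq_zero]
    constructor
    · intro h1
      rw [← h1, smul_smul]
      norm_num
    · intro h1
      rw [h1, smul_smul]
      norm_num
  have hnot : ¬ (D.a 0 ((2 : ℂ) • M - 1, 0) = 0 ∧ D.a 1 ((2 : ℂ) • M - 1, 0) = 0) := by
    rintro ⟨h0, h1⟩
    have h2 : (2 : ℂ) • M - 1 = 0 := by
      apply D.ext_mat
      intro w
      rw [D.act0 hT, h0, h1]
      simp
    rw [h2] at hTT
    simp at hTT
  rcases (sq_scalar_iff D hT).mp ⟨1, by rw [hTT, one_smul]⟩ with h0 | h1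
  · refine ⟨0, (hiff 0).mp h0, ?_⟩
    intro ε hε
    fin_cases ε
    · rfl
    · exact absurd ⟨h0, (hiff 1).mpr hε⟩ hnot
  · refine ⟨1, (hiff 1).mp h1, ?_⟩
    intro ε hε
    fin_cases ε
    · exact absurd ⟨(hiff 0).mpr hε, h1⟩ hnot
    · rfl

lemma half_iff {M : Matrix (Fin 4) (Fin 4) ℂ} (h : GSO S M 1) (hM : M * M = M) (ε : Fin 2)
    (hε : D.a ε (M, 1) = (1 / 2 : ℂ) • 1) : D.a ε ((2 : ℂ) • M - 1, 0) = 0 := by
  rw [(inv_props D h hM).2.2 ε, hε, smul_smul]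
  norm_num

/-- the other component of the involution squares to one -/
lemma inv_sq {T : Matrix (Fin 4) (Fin 4) ℂ} (hT : GSO S T 0) (hTT : T * T = 1)
    (h0 : D.a 0 (T, 0) = 0) : D.a 1 (T, 0) * D.a 1 (T, 0) = 1 := by
  have h1 : (D.a 1 (T, 0) * D.a 1 (T, 0))ᵀ = 1 := by
    apply D.Φ.injective
    have h2 : (T * T) *ᵥ D.Φ 1 = D.Φ 1 := by rw [hTT, one_mulVec]
    rw [← mulVec_mulVec, D.act0 hT, D.act0 hT, h0] at h2
    simpa [transpose_mul] using h2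
  rw [← transpose_one (n := Fin 2) (α := ℂ)] at h1
  exact transpose_injective h1

/-- (A3) (6), first case -/
lemma anticomm_zero0 {T N : Matrix (Fin 4) (Fin 4) ℂ} (hT : GSO S T 0) (hTT : T * T = 1)
    (h0 : D.a 0 (T, 0) = 0) (hN : GSO S N 0) (hTN : T * N = -(N * T)) : D.a 0 (N, 0) = 0 := by
  have hz := inv_sq D hT hTT h0
  obtain ⟨z, hzd⟩ : ∃ z, z = D.a 1 (T, 0) := ⟨_, rfl⟩
  obtain ⟨x, hx⟩ : ∃ x, x = D.a 0 (N, 0) := ⟨_, rfl⟩
  obtain ⟨y, hy⟩ : ∃ y, y = D.a 1 (N, 0) := ⟨_, rfl⟩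
  have tz : z.trace = 0 := by rw [hzd, D.tr]
  have ty : y.trace = 0 := by rw [hy, D.tr]
  rw [← hzd] at hz
  have aT : ∀ w, T *ᵥ D.Φ w = D.Φ (w * zᵀ) := by
    intro w
    rw [D.act0 hT, h0, zero_mul, zero_add, hzd]
  have aN : ∀ w, N *ᵥ D.Φ w = D.Φ (x * w + w * yᵀ) := by
    intro w
    rw [D.act0 hN, hx, hy]
  have key : ∀ w, x * w * zᵀ = (-(z * y).trace / 2) • w := by
    intro w
    have h1 : (T * N + N * T) *ᵥ D.Φ w = 0 := by rw [hTN, neg_add_cancel, zero_mulVec]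
    rw [add_mulVec, ← mulVec_mulVec, ← mulVec_mulVec, aN, aT, aT, aN, ← map_add] at h1
    have h2 := D.Φ.injective (h1.trans (map_zero D.Φ).symm)
    have h3 : (x * w + w * yᵀ) * zᵀ + (x * (w * zᵀ) + w * zᵀ * yᵀ) =
        (2 : ℂ) • (x * w * zᵀ) + w * (z * y + y * z)ᵀ := by
      rw [transpose_add, transpose_mul, transpose_mul, two_smul]
      noncomm_ring
    rw [h3, anticomm_of_trace_zero z y tz ty, transpose_smul, transpose_one, mul_smul_comm,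
      mul_one] at h2
    have h4 := congrArg (fun m => (2 : ℂ)⁻¹ • m) (eq_neg_of_add_eq_zero_left h2)
    simp only [smul_smul] at h4
    rw [inv_mul_cancel₀ two_ne_zero, one_smul, ← neg_smul, smul_smul] at h4
    rw [h4]
    congr 1
    ring
  rcases tensor_scalar x z _ key tz with h5 | h5
  · rw [← hx, h5]
  · rw [h5] at hz
    simp at hz

/-- (A3) (6) -/
theorem anticomm_zero {M N : Matrix (Fin 4) (Fin 4) ℂ} (h : GSO S M 1) (hM : M * M = M)
    (ε : Fin 2) (hε : D.a ε (M, 1) = (1 / 2 : ℂ) • 1) (hN : GSO S N 0)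
    (hMN : ((2 : ℂ) • M - 1) * N = -(N * ((2 : ℂ) • M - 1))) : D.a ε (N, 0) = 0 := by
  obtain ⟨hT, hTT, -⟩ := inv_props D h hM
  have h0 := half_iff D h hM ε hε
  fin_cases ε
  · exact anticomm_zero0 D hT hTT h0 hN hMN
  · exact anticomm_zero0 D.flip hT hTT h0 hN hMN

/-- the decomposition of a trace zero similitude into its two components -/
theorem exists_decomp {N : Matrix (Fin 4) (Fin 4) ℂ} (hN : GSO S N 0) (ε : Fin 2) :
    ∃ l r, GSO S l 0 ∧ GSO S r 0 ∧ N = l + r ∧ D.a (1 - ε) (l, 0) = 0 ∧ D.a ε (r, 0) = 0 ∧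
      D.a ε (l, 0) = D.a ε (N, 0) ∧ D.a (1 - ε) (r, 0) = D.a (1 - ε) (N, 0) := by
  have key : ∀ D : Split4 S, ∃ l r, GSO S l 0 ∧ GSO S r 0 ∧ N = l + r ∧ D.a 1 (l, 0) = 0 ∧
      D.a 0 (r, 0) = 0 ∧ D.a 0 (l, 0) = D.a 0 (N, 0) ∧ D.a 1 (r, 0) = D.a 1 (N, 0) := by
    intro D
    obtain ⟨l, hl, l0, l1⟩ := D.surj (D.a 0 (N, 0)) 0 0 (D.tr _ _ _) (by simp)
    obtain ⟨r, hr, r0, r1⟩ := D.surj 0 (D.a 1 (N, 0)) 0 (by simp) (D.tr _ _ _)
    refine ⟨l, r, hl, hr, ?_, l1, r0, l0, r1⟩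
    apply D.ext_mat
    intro w
    rw [add_mulVec, D.act0 hN, D.act0 hl, D.act0 hr, l0, l1, r0, r1, ← map_add]
    simp
  fin_cases ε
  · exact key D
  · exact key D.flip

/-- (A3) (7), first case -/
lemma decomp_inv0 {T l r : Matrix (Fin 4) (Fin 4) ℂ} (hT : GSO S T 0) (hTT : T * T = 1)
    (h0 : D.a 0 (T, 0) = 0) (hl : GSO S l 0) (hr : GSO S r 0) (l1 : D.a 1 (l, 0) = 0)
    (r0 : D.a 0 (r, 0) = 0) :
    (∃ s : ℂ, r + T * r * T = (2 * s) • T) ∧ l * T = T * l ∧ (l * T).trace = 0 := by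
  have hz := inv_sq D hT hTT h0
  obtain ⟨z, hzd⟩ : ∃ z, z = D.a 1 (T, 0) := ⟨_, rfl⟩
  obtain ⟨x, hx⟩ : ∃ x, x = D.a 0 (l, 0) := ⟨_, rfl⟩
  obtain ⟨y, hy⟩ : ∃ y, y = D.a 1 (r, 0) := ⟨_, rfl⟩
  have tz : z.trace = 0 := by rw [hzd, D.tr]
  have ty : y.trace = 0 := by rw [hy, D.tr]
  rw [← hzd] at hz
  have aT : ∀ w, T *ᵥ D.Φ w = D.Φ (w * zᵀ) := by
    intro w
    rw [D.act0 hT, h0, zero_mul, zero_add, hzd]
  have al : ∀ w, l *ᵥ D.Φ w = D.Φ (x * w) := by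
    intro w
    rw [D.act0 hl, l1, transpose_zero, mul_zero, add_zero, hx]
  have ar : ∀ w, r *ᵥ D.Φ w = D.Φ (w * yᵀ) := by
    intro w
    rw [D.act0 hr, r0, zero_mul, zero_add, hy]
  have hcomm : l * T = T * l := by
    apply D.ext_mat
    intro w
    rw [← mulVec_mulVec, ← mulVec_mulVec, al, aT, aT, al, mul_assoc]
  refine ⟨⟨(z * y).trace / 2, ?_⟩, hcomm, ?_⟩
  · apply D.ext_mat
    intro w
    rw [add_mulVec, ← mulVec_mulVec, ← mulVec_mulVec, aT, ar, ar, aT, smul_mulVec, aT, ← map_add,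
      ← map_smul]
    congr 1
    have h1 : z * y * z + y = (z * y).trace • z := by
      have h2 := anticomm_of_trace_zero z y tz ty
      have h3 : z * y * z = (z * y + y * z) * z - y * (z * z) := by noncomm_ring
      rw [h3, h2, hz, mul_one, smul_mul_assoc, one_mul, sub_add_cancel]
    have h4 : w * yᵀ + w * zᵀ * yᵀ * zᵀ = w * (z * y * z + y)ᵀ := by
      rw [transpose_add, transpose_mul, transpose_mul, mul_add]
      simp only [mul_assoc]
      abel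
    rw [h4, h1, transpose_smul, mul_smul_comm]
    congr 1
    ring
  · have e1 := trace_sq D (M := l + T) (by simpa using GSO_add hl hT)
    have e2 := trace_sq D hl
    have e3 := trace_sq D hT
    have hsum : ∀ ε, D.a ε (l + T, 0) = D.a ε (l, 0) + D.a ε (T, 0) := by
      intro ε
      rw [← map_add]
      congr 1
      ext1 <;> simp
    rw [hsum, hsum, h0, l1, add_zero, zero_add] at e1
    rw [l1] at e2
    rw [h0] at e3
    have e4 : ((l + T) * (l + T)).trace = (l * l).trace + 2 * (l * T).trace + (T * T).trace := by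
      rw [Matrix.add_mul, Matrix.mul_add, Matrix.mul_add, trace_add, trace_add, trace_add,
        ← hcomm]
      ring
    rw [e4] at e1
    simp only [mul_zero, trace_zero, add_zero, zero_add] at e1 e2 e3
    rw [e2, e3] at e1
    have e5 : (2 : ℂ) * (l * T).trace = 0 := by linear_combination e1
    exact (mul_eq_zero.mp e5).resolve_left two_ne_zero

/-- (A3) (7) -/
theorem decomp_inv {M l r : Matrix (Fin 4) (Fin 4) ℂ} (h : GSO S M 1) (hM : M * M = M)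
    (ε : Fin 2) (hε : D.a ε (M, 1) = (1 / 2 : ℂ) • 1) (hl : GSO S l 0) (hr : GSO S r 0)
    (l1 : D.a (1 - ε) (l, 0) = 0) (r0 : D.a ε (r, 0) = 0) :
    (∃ s : ℂ, r + ((2 : ℂ) • M - 1) * r * ((2 : ℂ) • M - 1) = (2 * s) • ((2 : ℂ) • M - 1)) ∧
      l * ((2 : ℂ) • M - 1) = ((2 : ℂ) • M - 1) * l ∧ (l * ((2 : ℂ) • M - 1)).trace = 0 := by
  obtain ⟨hT, hTT, -⟩ := inv_props D h hM
  have h0 := half_iff D h hM ε hε
  fin_cases ε
  · exact decomp_inv0 D hT hTT h0 hl hr l1 r0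
  · exact decomp_inv0 D.flip hT hTT h0 hl hr l1 r0

end

/-- (8), the case of the identity permutation -/
lemma intertwine0 {G : Type*} {S S' : Matrix (Fin 4) (Fin 4) ℂ} (D : Split4 S) (D' : Split4 S')
    (B B' : G → Matrix (Fin 4) (Fin 4) ℂ) (c : G → ℂ) (hpol : ∀ X, GSO S (B X) (c X))
    (hpol' : ∀ X, GSO S' (B' X) (c X)) (Q : Fin 2 → Matrix (Fin 2) (Fin 2) ℂ)
    (hQ : ∀ ε, (Q ε).det ≠ 0)
    (hc : ∀ ε X, D.a ε (B X, c X) * Q ε = Q ε * D'.a ε (B' X, c X)) :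
    ∃ R : Matrix (Fin 4) (Fin 4) ℂ, R.det ≠ 0 ∧ ∀ X, B X * R = R * B' X := by
  have hu : ∀ ε, IsUnit (Q ε).det := fun ε => (hQ ε).isUnit
  obtain ⟨W, hW⟩ : ∃ W : (Fin 4 → ℂ) ≃ₗ[ℂ] (Fin 4 → ℂ),
      ∀ w, W (D'.Φ w) = D.Φ (Q 0 * w * (Q 1)ᵀ) := by
    let E : Matrix (Fin 2) (Fin 2) ℂ ≃ₗ[ℂ] Matrix (Fin 2) (Fin 2) ℂ :=
      { toFun := fun w => Q 0 * w * (Q 1)ᵀ
        invFun := fun w => (Q 0)⁻¹ * w * ((Q 1)⁻¹)ᵀ
        map_add' := by intro x y; rw [mul_add, add_mul]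
        map_smul' := by intro r x; simp
        left_inv := by
          intro w
          show (Q 0)⁻¹ * (Q 0 * w * (Q 1)ᵀ) * ((Q 1)⁻¹)ᵀ = w
          have h1 : (Q 1)ᵀ * ((Q 1)⁻¹)ᵀ = 1 := by
            rw [← transpose_mul, nonsing_inv_mul _ (hu 1), transpose_one]
          calc (Q 0)⁻¹ * (Q 0 * w * (Q 1)ᵀ) * ((Q 1)⁻¹)ᵀ
              = ((Q 0)⁻¹ * Q 0) * w * ((Q 1)ᵀ * ((Q 1)⁻¹)ᵀ) := by simp only [mul_assoc]
            _ = w := by rw [h1, nonsing_inv_mul _ (hu 0), one_mul, mul_one]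
        right_inv := by
          intro w
          show Q 0 * ((Q 0)⁻¹ * w * ((Q 1)⁻¹)ᵀ) * (Q 1)ᵀ = w
          have h1 : ((Q 1)⁻¹)ᵀ * (Q 1)ᵀ = 1 := by
            rw [← transpose_mul, mul_nonsing_inv _ (hu 1), transpose_one]
          calc Q 0 * ((Q 0)⁻¹ * w * ((Q 1)⁻¹)ᵀ) * (Q 1)ᵀ
              = (Q 0 * (Q 0)⁻¹) * w * (((Q 1)⁻¹)ᵀ * (Q 1)ᵀ) := by simp only [mul_assoc]
            _ = w := by rw [h1, mul_nonsing_inv _ (hu 0), one_mul, mul_one] }
    refine ⟨(D'.Φ.symm.trans E).trans D.Φ, ?_⟩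
    intro w
    show D.Φ (E (D'.Φ.symm (D'.Φ w))) = _
    rw [LinearEquiv.symm_apply_apply]
    rfl
  refine ⟨LinearMap.toMatrix' (W : (Fin 4 → ℂ) →ₗ[ℂ] (Fin 4 → ℂ)), ?_, ?_⟩
  · have h1 : LinearMap.toMatrix' (W : (Fin 4 → ℂ) →ₗ[ℂ] (Fin 4 → ℂ)) *
        LinearMap.toMatrix' (W.symm : (Fin 4 → ℂ) →ₗ[ℂ] (Fin 4 → ℂ)) = 1 := by
      rw [← LinearMap.toMatrix'_comp]
      simp
    intro h2
    have h3 := congrArg Matrix.det h1
    rw [det_mul, h2, zero_mul, det_one] at h3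
    exact zero_ne_one h3
  · intro X
    apply D'.ext_mat
    intro w
    rw [← mulVec_mulVec, ← mulVec_mulVec, LinearMap.toMatrix'_mulVec, LinearMap.toMatrix'_mulVec]
    show B X *ᵥ W (D'.Φ w) = W (B' X *ᵥ D'.Φ w)
    rw [hW, D.act _ _ (hpol X), D'.act _ _ (hpol' X), hW]
    congr 1
    have e1 : D.a 0 (B X, c X) * (Q 0 * w * (Q 1)ᵀ) =
        Q 0 * (D'.a 0 (B' X, c X) * w) * (Q 1)ᵀ := by
      rw [← mul_assoc, ← mul_assoc, hc 0 X]
      simp only [mul_assoc]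
    have e2 : Q 0 * w * (Q 1)ᵀ * (D.a 1 (B X, c X))ᵀ =
        Q 0 * (w * (D'.a 1 (B' X, c X))ᵀ) * (Q 1)ᵀ := by
      rw [mul_assoc, ← transpose_mul, hc 1 X, transpose_mul]
      simp only [mul_assoc]
    rw [e1, e2, mul_sub, mul_add, sub_mul, add_mul, mul_smul_comm, smul_mul_assoc]

/-- (8) -/
theorem intertwine {G : Type*} {S S' : Matrix (Fin 4) (Fin 4) ℂ} (D : Split4 S) (D' : Split4 S')
    (B B' : G → Matrix (Fin 4) (Fin 4) ℂ) (c : G → ℂ) (hpol : ∀ X, GSO S (B X) (c X))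
    (hpol' : ∀ X, GSO S' (B' X) (c X)) (π : Equiv.Perm (Fin 2))
    (Q : Fin 2 → Matrix (Fin 2) (Fin 2) ℂ) (hQ : ∀ ε, (Q ε).det ≠ 0)
    (hc : ∀ ε X, D.a ε (B X, c X) * Q ε = Q ε * D'.a (π ε) (B' X, c X)) :
    ∃ R : Matrix (Fin 4) (Fin 4) ℂ, R.det ≠ 0 ∧ ∀ X, B X * R = R * B' X := by
  have hπ : π = 1 ∨ ∀ ε, π ε = 1 - ε := by
    have h0 : π 0 = 0 ∨ π 0 = 1 := by
      have := (π 0).isLt
      omega
    have h1 : π 1 = 0 ∨ π 1 = 1 := by
      have := (π 1).isLt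
      omega
    have hne : π 0 ≠ π 1 := fun h => by
      have := π.injective h
      exact absurd this (by decide)
    rcases h0 with h0 | h0 <;> rcases h1 with h1 | h1
    · exact absurd (h0.trans h1.symm) hne
    · left
      ext ε
      fin_cases ε
      · exact congrArg _ h0
      · exact congrArg _ h1
    · right
      intro ε
      fin_cases ε
      · exact h0
      · exact h1
    · exact absurd (h0.trans h1.symm) hne
  rcases hπ with rfl | hπ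
  · exact intertwine0 D D' B B' c hpol hpol' Q hQ hc
  · apply intertwine0 D D'.flip B B' c hpol hpol' Q hQ
    intro ε X
    have := hc ε X
    rw [hπ ε] at this
    exact this

end Pool.Agent.Helper36
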