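import Pool.Agent.Helper20.PosTr
import Pool.Agent.Helper36.So4b

/-!
Matrices for compact pieces (module F12 for theorem III of MP_bf54cf_ag).
-/

namespace Pool.Agent.Helper36

open Matrix
open scoped ComplexConjugate ComplexOrder

section mat

variable {m : Type*} [Fintype m] [DecidableEq m]

/-- real elements: the part anticommuting with `h` -/
lemma antiPart_real {H h X : Matrix m m ℂ} (hh : h * h = 1) (hadj : hᴴ * H = H * h)
    (hX : Xᴴ * H = -(H * (h * X * h))) :
    (X - h * X * h)ᴴ * H = -(H * (h * (X - h * X * h) * h)) ∧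
      h * (X - h * X * h) = -((X - h * X * h) * h) := by
  have e1 : h * (X - h * X * h) = h * X - X * h := by
    rw [Matrix.mul_sub]
    congr 1
    calc h * (h * X * h) = (h * h) * X * h := by simp only [Matrix.mul_assoc]
      _ = X * h := by rw [hh, Matrix.one_mul]
  have e2 : (X - h * X * h) * h = X * h - h * X := by
    rw [Matrix.sub_mul]
    congr 1
    calc h * X * h * h = h * X * (h * h) := by simp only [Matrix.mul_assoc]
      _ = h * X := by rw [hh, Matrix.mul_one]
  refine ⟨?_, by rw [e1, e2, neg_sub]⟩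
  have e3 : (h * X * h)ᴴ * H = -(H * X) := by
    calc (h * X * h)ᴴ * H = hᴴ * Xᴴ * (hᴴ * H) := by
          simp only [Matrix.conjTranspose_mul, Matrix.mul_assoc]
      _ = hᴴ * (Xᴴ * H) * h := by rw [hadj]; simp only [Matrix.mul_assoc]
      _ = -((hᴴ * H) * (h * X * h) * h) := by
          rw [hX]; simp only [Matrix.mul_neg, Matrix.neg_mul, Matrix.mul_assoc]
      _ = -(H * (h * h) * X * (h * h)) := by rw [hadj]; simp only [Matrix.mul_assoc]
      _ = -(H * X) := by rw [hh, Matrix.mul_one, Matrix.mul_one]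
  have e4 : h * (X - h * X * h) * h = h * X * h - X := by
    rw [e1, Matrix.sub_mul]
    congr 1
    rw [Matrix.mul_assoc, hh, Matrix.mul_one]
  rw [Matrix.conjTranspose_sub, Matrix.sub_mul, hX, e3, e4, Matrix.mul_sub]
  abel

omit [DecidableEq m] in
/-- a real combination whose part anticommuting with `h` does not vanish -/
theorem exists_anti {H h N N' : Matrix m m ℂ} (h1 : Nᴴ * H = -(H * (h * N' * h)))
    (h2 : N'ᴴ * H = -(H * (h * N * h))) (hne : N - h * N * h ≠ 0) :
    ∃ c : ℂ, ∃ X, X = c • N + conj c • N' ∧ Xᴴ * H = -(H * (h * X * h)) ∧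
      X - h * X * h ≠ 0 := by
  have hc : ∀ c : ℂ, (c • N + conj c • N')ᴴ * H =
      -(H * (h * (c • N + conj c • N') * h)) := by
    intro c
    have e1 : star (conj c) = c := Complex.conj_conj c
    rw [Matrix.conjTranspose_add, Matrix.conjTranspose_smul, Matrix.conjTranspose_smul,
      Matrix.add_mul, Matrix.smul_mul, Matrix.smul_mul, h1, h2, e1]
    simp only [Matrix.mul_add, Matrix.add_mul, Matrix.mul_smul, Matrix.smul_mul, smul_neg, neg_add]
    rw [add_comm]
    rfl
  have hl : ∀ c : ℂ, (c • N + conj c • N') - h * (c • N + conj c • N') * h =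
      c • (N - h * N * h) + conj c • (N' - h * N' * h) := by
    intro c
    simp only [Matrix.mul_add, Matrix.add_mul, Matrix.mul_smul, Matrix.smul_mul, smul_sub]
    abel
  by_contra hcon
  push Not at hcon
  have f1 := hcon 1 _ rfl (hc 1)
  have f2 := hcon Complex.I _ rfl (hc Complex.I)
  rw [hl, map_one, one_smul, one_smul] at f1
  rw [hl, Complex.conj_I] at f2
  apply hne
  have f3 : N' - h * N' * h = -(N - h * N * h) := eq_neg_of_add_eq_zero_right f1
  rw [f3, neg_smul_neg, ← two_smul ℂ, smul_smul] at f2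
  exact (smul_eq_zero.mp f2).resolve_left (mul_ne_zero two_ne_zero Complex.I_ne_zero)

/-- traces and complex conjugation -/
lemma trace_bar {H h N N' : Matrix m m ℂ} (hH : H.PosDef) (hh : h * h = 1)
    (hadj : hᴴ * H = H * h) (h2 : N'ᴴ * H = -(H * (h * N * h))) :
    star (N' * h).trace = -(N * h).trace := by
  have hu : IsUnit H.det := (Matrix.isUnit_iff_isUnit_det H).mp hH.isUnit
  rw [← Matrix.trace_conjTranspose, Matrix.conjTranspose_mul]
  calc (hᴴ * N'ᴴ).trace = (hᴴ * (N'ᴴ * H) * H⁻¹).trace := by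
        rw [← Matrix.mul_assoc, Matrix.mul_assoc _ H, Matrix.mul_nonsing_inv _ hu, Matrix.mul_one]
    _ = (-((hᴴ * H) * (h * N * h) * H⁻¹)).trace := by
        rw [h2]; simp only [Matrix.mul_neg, Matrix.neg_mul, Matrix.mul_assoc]
    _ = -((H * ((h * h) * N * h)) * H⁻¹).trace := by
        rw [hadj, Matrix.trace_neg]; simp only [Matrix.mul_assoc]
    _ = -(H⁻¹ * (H * (N * h))).trace := by
        rw [hh, Matrix.one_mul, Matrix.trace_mul_comm]
    _ = -(N * h).trace := by
        rw [← Matrix.mul_assoc, Matrix.nonsing_inv_mul _ hu, Matrix.one_mul]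

end mat

/-- rank two -/
lemma zero_of_comm {T Z : Matrix (Fin 2) (Fin 2) ℂ} (hT : T.trace = 0) (hTT : T * T = 1)
    (hZ : Z.trace = 0) (hc : Z * T = T * Z) (htr : (Z * T).trace = 0) : Z = 0 := by
  have h1 := anticomm_of_trace_zero Z T hZ hT
  rw [htr, zero_smul, ← hc, ← two_smul ℂ] at h1
  have h2 : Z * T = 0 := (smul_eq_zero.mp h1).resolve_left two_ne_zero
  calc Z = Z * (T * T) := by rw [hTT, Matrix.mul_one]
    _ = 0 := by rw [← Matrix.mul_assoc, h2, Matrix.zero_mul]

/-- elements orthogonal to a given one -/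
lemma exists_orth (T : Matrix (Fin 2) (Fin 2) ℂ) :
    ∃ Z : Matrix (Fin 2) (Fin 2) ℂ, Z ≠ 0 ∧ Z.trace = 0 ∧ (Z * T).trace = 0 := by
  by_cases h : T 1 0 = 0
  · refine ⟨!![0, 1; 0, 0], ?_, ?_, ?_⟩
    · intro h0
      have := congrFun (congrFun h0 0) 1
      simp at this
    · simp [trace_fin_two]
    · simp [trace_fin_two, Matrix.vecMul, dotProduct, Fin.sum_univ_two, h]
  · refine ⟨!![0, T 0 1; -T 1 0, 0], ?_, ?_, ?_⟩
    · intro h0
      have := congrFun (congrFun h0 1) 0
      simp at this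
      exact h this
    · simp [trace_fin_two]
    · simp [trace_fin_two, Matrix.vecMul, dotProduct, Fin.sum_univ_two]
      ring

/-- real elements with square of positive trace, rank two -/
theorem posS {H h N N' : Matrix (Fin 2) (Fin 2) ℂ} (hH : H.PosDef) (ht : h.trace = 0)
    (hh : h * h = 1) (hadj : hᴴ * H = H * h) (hN : N.trace = 0) (hN' : N'.trace = 0)
    (h1 : Nᴴ * H = -(H * (h * N' * h))) (h2 : N'ᴴ * H = -(H * (h * N * h))) (hne : N ≠ 0)
    (htr : (N * h).trace = 0) : ∃ c : ℂ, ∃ t : ℝ, 0 < t ∧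
      ((c • N + conj c • N') * (c • N + conj c • N')).trace = t := by
  have key : ∀ X : Matrix (Fin 2) (Fin 2) ℂ, X.trace = 0 → (X * h).trace = 0 →
      X - h * X * h = (2 : ℂ) • X := by
    intro X hX hXh
    have e1 := anticomm_of_trace_zero X h hX ht
    rw [hXh, zero_smul] at e1
    have e2 : h * X * h = -X := by
      rw [eq_neg_of_add_eq_zero_right e1, Matrix.neg_mul, Matrix.mul_assoc, hh, Matrix.mul_one]
    rw [e2, sub_neg_eq_add, two_smul]
  have hNN : N - h * N * h ≠ 0 := by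
    rw [key N hN htr]
    exact smul_ne_zero two_ne_zero hne
  obtain ⟨c, X, rfl, hX, hX0⟩ := exists_anti h1 h2 hNN
  have htr' : (N' * h).trace = 0 := by
    have e := trace_bar hH hh hadj h2
    rw [htr, neg_zero] at e
    exact star_eq_zero.mp e
  have hXt : (c • N + conj c • N').trace = 0 := by
    rw [trace_add, trace_smul, trace_smul, hN, hN', smul_zero, smul_zero, add_zero]
  have hXh : ((c • N + conj c • N') * h).trace = 0 := by
    rw [Matrix.add_mul, Matrix.smul_mul, Matrix.smul_mul, trace_add, trace_smul, trace_smul, htr,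
      htr', smul_zero, smul_zero, add_zero]
  obtain ⟨f1, f2⟩ := antiPart_real hh hadj hX
  obtain ⟨t, ht0, ht1⟩ := Pool.Agent.Helper20.anticomm_trace_sq hH hh f1 f2 hX0
  refine ⟨c, t / 4, by positivity, ?_⟩
  rw [key _ hXt hXh, Matrix.smul_mul, Matrix.mul_smul, smul_smul, trace_smul, smul_eq_mul] at ht1
  push_cast
  linear_combination ht1 / 4

section

variable {S : Matrix (Fin 4) (Fin 4) ℂ} (D : Split4 S)

/-- the trace of a product -/
lemma trace_mul4 {M N : Matrix (Fin 4) (Fin 4) ℂ} (hM : GSO S M 0) (hN : GSO S N 0) :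
    (M * N).trace = 2 * (D.a 0 (M, 0) * D.a 0 (N, 0)).trace +
      2 * (D.a 1 (M, 0) * D.a 1 (N, 0)).trace := by
  have e1 := trace_sq D (M := M + N) (by simpa using GSO_add hM hN)
  have e2 := trace_sq D hM
  have e3 := trace_sq D hN
  have hsum : ∀ ε, D.a ε (M + N, 0) = D.a ε (M, 0) + D.a ε (N, 0) := by
    intro ε
    rw [← map_add]
    congr 1
    ext1 <;> simp
  have hexp : ∀ {p : ℕ} (x y : Matrix (Fin p) (Fin p) ℂ), ((x + y) * (x + y)).trace =
      (x * x).trace + 2 * (x * y).trace + (y * y).trace := by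
    intro p x y
    rw [Matrix.add_mul, Matrix.mul_add, Matrix.mul_add, trace_add, trace_add, trace_add,
      trace_mul_comm y x]
    ring
  rw [hsum, hsum, hexp, hexp, hexp] at e1
  linear_combination e1 / 2 - e2 / 2 - e3 / 2

/-- conjugation by an element of the algebra -/
lemma GSO_conj4 {h X : Matrix (Fin 4) (Fin 4) ℂ} (hT : GSO S h 0) (hX : GSO S X 0) :
    GSO S (h * X * h) 0 := by
  unfold GSO at *
  rw [zero_smul] at *
  have e1 : hᵀ * S = -(S * h) := eq_neg_of_add_eq_zero_left hT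
  have e2 : Xᵀ * S = -(S * X) := eq_neg_of_add_eq_zero_left hX
  have e3 : (h * X * h)ᵀ * S = -(S * (h * X * h)) := by
    calc (h * X * h)ᵀ * S = hᵀ * (Xᵀ * (hᵀ * S)) := by
          simp only [transpose_mul, Matrix.mul_assoc]
      _ = -(hᵀ * ((Xᵀ * S) * h)) := by rw [e1]; simp only [Matrix.mul_neg, Matrix.mul_assoc]
      _ = (hᵀ * S) * X * h := by
          rw [e2]; simp only [Matrix.mul_neg, Matrix.neg_mul, Matrix.mul_assoc, neg_neg]
      _ = -(S * (h * X * h)) := by
          rw [e1]; simp only [Matrix.neg_mul, Matrix.mul_assoc]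
  rw [e3, neg_add_cancel]

/-- real elements with square of positive trace, rank four -/
theorem posQ0 {H h N N' : Matrix (Fin 4) (Fin 4) ℂ} (hH : H.PosDef)
    (hT : GSO S h 0) (hh : h * h = 1) (h0 : D.a 0 (h, 0) = 0) (hadj : hᴴ * H = H * h)
    (hN : GSO S N 0) (hN' : GSO S N' 0) (h1 : Nᴴ * H = -(H * (h * N' * h)))
    (h2 : N'ᴴ * H = -(H * (h * N * h))) (hne : D.a 1 (N, 0) ≠ 0)
    (htr : (D.a 1 (N, 0) * D.a 1 (h, 0)).trace = 0) :
    ∃ c : ℂ, ∃ t : ℝ, 0 < t ∧ (D.a 1 (c • N + conj c • N', 0) *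
      D.a 1 (c • N + conj c • N', 0)).trace = t := by
  have hTT := inv_sq D hT hh h0
  have tT : (D.a 1 (h, 0)).trace = 0 := D.tr _ _ _
  have htrh : ∀ X, GSO S X 0 → (X * h).trace = 2 * (D.a 1 (X, 0) * D.a 1 (h, 0)).trace := by
    intro X hX
    rw [trace_mul4 D hX hT, h0, Matrix.mul_zero, trace_zero, mul_zero, zero_add]
  have key : ∀ X, GSO S X 0 → (D.a 1 (X, 0) * D.a 1 (h, 0)).trace = 0 →
      GSO S (X - h * X * h) 0 ∧ D.a 1 (X - h * X * h, 0) = (2 : ℂ) • D.a 1 (X, 0) := by
    intro X hX hXt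
    have g1 := GSO_conj4 hT hX
    have g2 : GSO S (X + h * X * h) 0 := by simpa using GSO_add hX g1
    have g3 : GSO S (X - h * X * h) 0 := by
      have := GSO_add hX (GSO_smul (-1) g1)
      simpa [sub_eq_add_neg] using this
    refine ⟨g3, ?_⟩
    have c1 : (X + h * X * h) * h - h * (X + h * X * h) = 0 := by
      have e1 : h * X * h * h = h * X := by rw [Matrix.mul_assoc, hh, Matrix.mul_one]
      have e2 : h * (h * X * h) = X * h := by
        calc h * (h * X * h) = (h * h) * X * h := by simp only [Matrix.mul_assoc]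
          _ = X * h := by rw [hh, Matrix.one_mul]
      rw [Matrix.add_mul, Matrix.mul_add, e1, e2]
      abel
    have c2 := D.br 1 _ _ _ _ g2 hT
    rw [c1] at c2
    have c3 : ((0 : Matrix (Fin 4) (Fin 4) ℂ), (0 : ℂ)) = 0 := rfl
    rw [c3, map_zero] at c2
    have c4 := sub_eq_zero.mp c2.symm
    have c5 : (D.a 1 (X + h * X * h, 0) * D.a 1 (h, 0)).trace = 0 := by
      have e1 := htrh _ g2
      have e2 : ((X + h * X * h) * h).trace = 2 * (X * h).trace := by
        rw [Matrix.add_mul, trace_add, Matrix.mul_assoc (h * X), hh, Matrix.mul_one,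
          trace_mul_comm h X]
        ring
      rw [e2, htrh X hX, hXt] at e1
      linear_combination (-1 / 2 : ℂ) * e1
    have c6 := zero_of_comm tT hTT (D.tr _ _ _) c4 c5
    have c7 : ((X - h * X * h, (0 : ℂ)) : Matrix (Fin 4) (Fin 4) ℂ × ℂ) =
        (2 : ℂ) • (X, (0 : ℂ)) - (X + h * X * h, (0 : ℂ)) := by
      ext1
      · show X - h * X * h = (2 : ℂ) • X - (X + h * X * h)
        rw [two_smul]
        abel
      · simp
    rw [c7, map_sub, map_smul, c6, sub_zero]
  have hNN : N - h * N * h ≠ 0 := by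
    intro e
    have e1 := (key N hN htr).2
    rw [e] at e1
    have c3 : ((0 : Matrix (Fin 4) (Fin 4) ℂ), (0 : ℂ)) = 0 := rfl
    rw [c3, map_zero] at e1
    exact hne ((smul_eq_zero.mp e1.symm).resolve_left two_ne_zero)
  obtain ⟨c, X, rfl, hX, hX0⟩ := exists_anti h1 h2 hNN
  have hXg : GSO S (c • N + conj c • N') 0 := by
    simpa using GSO_add (GSO_smul c hN) (GSO_smul (conj c) hN')
  have htr' : (D.a 1 (N', 0) * D.a 1 (h, 0)).trace = 0 := by
    have e := trace_bar hH hh hadj h2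
    rw [htrh N hN, htr, mul_zero, neg_zero] at e
    have e1 := star_eq_zero.mp e
    rw [htrh N' hN'] at e1
    exact (mul_eq_zero.mp e1).resolve_left two_ne_zero
  have hlin : D.a 1 (c • N + conj c • N', 0) = c • D.a 1 (N, 0) + conj c • D.a 1 (N', 0) := by
    rw [← map_smul, ← map_smul, ← map_add]
    congr 1
    ext1 <;> simp
  have hXh : (D.a 1 (c • N + conj c • N', 0) * D.a 1 (h, 0)).trace = 0 := by
    rw [hlin, Matrix.add_mul, Matrix.smul_mul, Matrix.smul_mul, trace_add, trace_smul, trace_smul,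
      htr, htr', smul_zero, smul_zero, add_zero]
  obtain ⟨f1, f2⟩ := antiPart_real hh hadj hX
  obtain ⟨t, ht0, ht1⟩ := Pool.Agent.Helper20.anticomm_trace_sq hH hh f1 f2 hX0
  obtain ⟨k1, k2⟩ := key _ hXg hXh
  have k3 := anticomm_zero0 D hT hh h0 k1 f2
  refine ⟨c, t / 8, by positivity, ?_⟩
  rw [trace_sq D k1, k3, k2, Matrix.mul_zero, trace_zero, mul_zero, zero_add, Matrix.smul_mul,
    Matrix.mul_smul, smul_smul, trace_smul, smul_eq_mul] at ht1
  push_cast
  linear_combination ht1 / 8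

/-- real elements with square of positive trace, rank four -/
theorem posQ {H h N N' : Matrix (Fin 4) (Fin 4) ℂ} (hH : H.PosDef) (ε : Fin 2)
    (hT : GSO S h 0) (hh : h * h = 1) (h0 : D.a (1 - ε) (h, 0) = 0) (hadj : hᴴ * H = H * h)
    (hN : GSO S N 0) (hN' : GSO S N' 0) (h1 : Nᴴ * H = -(H * (h * N' * h)))
    (h2 : N'ᴴ * H = -(H * (h * N * h))) (hne : D.a ε (N, 0) ≠ 0)
    (htr : (D.a ε (N, 0) * D.a ε (h, 0)).trace = 0) :
    ∃ c : ℂ, ∃ t : ℝ, 0 < t ∧ (D.a ε (c • N + conj c • N', 0) *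
      D.a ε (c • N + conj c • N', 0)).trace = t := by
  fin_cases ε
  · exact posQ0 D.flip hH hT hh h0 hadj hN hN' h1 h2 hne htr
  · exact posQ0 D hH hT hh h0 hadj hN hN' h1 h2 hne htr

end

end Pool.Agent.Helper36
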