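import Pool.Agent.Helper20.Hodge2
import Pool.Agent.Helper28.GPC.TwistU
import Pool.Agent.Helper36.CptMat
import Pool.Agent.Helper8.D.LinkDefs

/-!
Compact pieces (module F12 for theorem III of MP_bf54cf_ag).
-/

namespace Pool.Agent.Helper36

open Module NumberField Pool.Agent.Helper7 Pool.Agent.Helper24 Pool.Agent.Helper8.D Matrix
open Pool.Agent.GPC (AbVar Emb)
open scoped ComplexConjugate ComplexOrder

set_option linter.unusedSectionVars false

section single

variable {A : AbVar} {K : Type} [Field K] [NumberField K]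

lemma hod_sym : Sym (pData A) (hod A) 1 where
  comm g hg v := (hod_comm g hg v).symm
  pol u v := by rw [psi_hod, one_mul]

lemma refl_sym : Sym (pData A) (refl' A) 0 where
  comm g hg v := by
    rw [refl'_apply, refl'_apply, map_sub, map_smul, hod_comm g hg]
  pol u v := by
    rw [psi_refl', zero_mul, neg_add_cancel]

lemma matAt_refl {r : ℕ} (F : UF (pData A) K r) (σ : K →+* ℂ) :
    F.matAt σ (refl' A) = (2 : ℂ) • ent F σ (hod A) - 1 := by
  rw [refl', F.matAt_sub, F.matAt_smul, F.matAt_one]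
  rfl

lemma ent_hod_idem {r : ℕ} (F : UF (pData A) K r) (σ : K →+* ℂ) :
    ent F σ (hod A) * ent F σ (hod A) = ent F σ (hod A) := by
  rw [← ent_mul F σ _ _ F.hod_comm']
  congr 1

/-- the adjoint of a symmetry, by its complex conjugate -/
lemma HM_bar {r : ℕ} (F : UF (pData A) K r) (σ : K →+* ℂ) {Y Y' : Module.End ℂ A.H1}
    (hY : F.Comm Y) (hY' : F.Comm Y')
    (hψ : ∀ u v, (pData A).ψ (Y' u) v + (pData A).ψ u (Y' v) = 0)
    (hbar : ∀ v, Y' v = cB (pData A) (Y (cB (pData A) v))) :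
    (F.matAt σ Y').conjTranspose * F.HM σ =
      -(F.HM σ * (F.matAt σ (refl' A) * F.matAt σ Y * F.matAt σ (refl' A))) := by
  have hh := F.refl'_comm
  have h1 : F.Comm (-(refl' A * Y * refl' A)) := by
    intro x v
    rw [LinearMap.neg_apply, LinearMap.neg_apply, ((hh.mul hY).mul hh) x v, map_neg]
  have hneg : ∀ u v, Hf A u (-v) = - Hf A u v := by
    intro u v
    unfold Hf
    rw [map_neg, cB_neg, map_neg]
  have h0 : ∀ u v, Hf A (Y' u) v = Hf A u ((-(refl' A * Y * refl' A)) v) := by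
    intro u v
    rw [LinearMap.neg_apply, hneg]
    unfold Hf
    have e1 := eq_neg_of_add_eq_zero_left (hψ u (cB (pData A) (refl' A v)))
    rw [e1, hbar, cB_cB]
    have e2 : Y (refl' A v) = refl' A ((refl' A * Y * refl' A) v) := by
      show Y (refl' A v) = refl' A (refl' A (Y (refl' A v)))
      rw [refl'_refl']
    rw [← e2]
  have h2 := F.HM_adj σ hY' h1 h0
  rw [UF.matAt_neg, F.matAt_mul σ _ hh, F.matAt_mul σ _ hY, Matrix.conjTranspose_neg] at h2
  have h3 := congrArg Matrix.conjTranspose h2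
  rw [Matrix.conjTranspose_mul, Matrix.conjTranspose_mul, Matrix.conjTranspose_neg,
    Matrix.conjTranspose_conjTranspose, (F.HM_posDef σ).1, Matrix.mul_neg] at h3
  exact h3

/-- the reflection in the representations of dimension two -/
lemma A_refl (f : Fac3 (pData A) K) (hf : f.isS ∨ f.isQ) (σ : K →+* ℂ) (ε : Fin 2) :
    f.A σ ε (refl' A, 0) = (2 : ℂ) • f.A σ ε (hod A, 1) - 1 := by
  cases f with
  | S F h => exact matAt_refl F σ
  | Q F =>
    show (F.sp σ).a ε (ent F.toUF σ (refl' A), 0) =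
      (2 : ℂ) • (F.sp σ).a ε (ent F.toUF σ (hod A), 1) - 1
    rw [show ent F.toUF σ (refl' A) = _ from matAt_refl F.toUF σ]
    exact (inv_props _ (F.gso σ hod_sym) (ent_hod_idem F.toUF σ)).2.2 ε
  | R F => rcases hf with hf | hf <;> exact hf.elim
  | T F => rcases hf with hf | hf <;> exact hf.elim

/-- a place of kind `Q` has exactly one compact index -/
theorem exists_unique_cpt (f : Fac3 (pData A) K) (hf : f.isQ) (σ : K →+* ℂ) :
    ∃! ε, f.A σ ε (hod A, 1) = (1 / 2 : ℂ) • 1 := by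
  cases f with
  | S F h => exact hf.elim
  | Q F => exact exists_unique_half (F.sp σ) (F.gso σ hod_sym) (ent_hod_idem F.toUF σ)
  | R F => exact hf.elim
  | T F => exact hf.elim

/-- places of kind `S` are not compact -/
theorem not_cpt (f : Fac3 (pData A) K) (hf : f.isS) (σ : K →+* ℂ) (ε : Fin 2) :
    f.A σ ε (hod A, 1) ≠ (1 / 2 : ℂ) • 1 := by
  cases f with
  | S F h =>
    intro h1
    have h2 : ent F σ (hod A) = (1 / 2 : ℂ) • 1 := h1
    have h3 := ent_hod_idem F σ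
    rw [h2, Matrix.smul_mul, Matrix.one_mul, smul_smul] at h3
    have h4 := congrFun (congrFun h3 0) 0
    norm_num [Matrix.smul_apply] at h4
  | Q F => exact hf.elim
  | R F => exact hf.elim
  | T F => exact hf.elim

/-- real elements at a compact index -/
theorem cpt_neg (f : Fac3 (pData A) K) (hf : f.isQ) (σ : K →+* ℂ) (ε : Fin 2)
    (hc : f.A σ ε (hod A, 1) = (1 / 2 : ℂ) • 1) {X : Module.End ℂ A.H1} (hX : Sym (pData A) X 0)
    (hr : ∀ v, cB (pData A) (X v) = X (cB (pData A) v)) :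
    ∃ t : ℝ, 0 ≤ t ∧ (f.A σ ε (X, 0) * f.A σ ε (X, 0)).trace = -t := by
  cases f with
  | S F h => exact hf.elim
  | Q F =>
    have hc' : (F.sp σ).a ε (ent F.toUF σ (hod A), 1) = (1 / 2 : ℂ) • 1 := hc
    have hM := F.gso σ (hod_sym (A := A))
    have hMM := ent_hod_idem F.toUF σ
    have hN := F.gso σ hX
    obtain ⟨l, r, hl, hr', hsum, l1, r0, l2, r2⟩ := exists_decomp (F.sp σ) hN ε
    obtain ⟨⟨s, hs⟩, hcomm, htr⟩ := decomp_inv (F.sp σ) hM hMM ε hc' hl hr' l1 r0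
    rw [← matAt_refl F.toUF σ] at hs hcomm htr
    obtain ⟨t, ht0, ht1, -⟩ := Pool.Agent.Helper20.commPart_trace_sq (F.toUF.HM_posDef σ)
      (F.toUF.hh_one σ) (F.toUF.HM_refl' σ)
      (F.toUF.HM_real σ (hX.commF F.toUF) hr (fun u v => by rw [hX.pol, zero_mul]))
      hsum hcomm htr hs
    refine ⟨t / 2, by positivity, ?_⟩
    show ((F.sp σ).a ε (ent F.toUF σ X, 0) * (F.sp σ).a ε (ent F.toUF σ X, 0)).trace = _
    rw [← l2]
    have e1 := trace_sq (F.sp σ) hl
    rw [ht1] at e1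
    have e2 : (l * l).trace = 2 * ((F.sp σ).a ε (l, 0) * (F.sp σ).a ε (l, 0)).trace := by
      rw [trace_sq (F.sp σ) hl]
      fin_cases ε
      · change (F.sp σ).a 1 (l, 0) = 0 at l1
        rw [l1, Matrix.mul_zero, trace_zero, mul_zero, add_zero]
        rfl
      · change (F.sp σ).a 0 (l, 0) = 0 at l1
        rw [l1, Matrix.mul_zero, trace_zero, mul_zero, zero_add]
        rfl
    rw [ht1] at e2
    push_cast
    linear_combination (-1 / 2 : ℂ) * e2
  | R F => exact hf.elim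
  | T F => exact hf.elim

/-- real elements at an index which is not compact -/
theorem ncpt_pos (f : Fac3 (pData A) K) (hf : f.isS ∨ f.isQ) (σ : K →+* ℂ) (ε : Fin 2)
    (hc : f.A σ ε (hod A, 1) ≠ (1 / 2 : ℂ) • 1) {Y Y' : Module.End ℂ A.H1}
    (hY : Sym (pData A) Y 0) (hY' : Sym (pData A) Y' 0)
    (hbar : ∀ v, Y' v = cB (pData A) (Y (cB (pData A) v)))
    (hne : f.A σ ε (Y, 0) ≠ 0) (htr : (f.A σ ε (Y, 0) * f.A σ ε (refl' A, 0)).trace = 0) :
    ∃ c : ℂ, ∃ t : ℝ, 0 < t ∧ (f.A σ ε (c • Y + conj c • Y', 0) *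
      f.A σ ε (c • Y + conj c • Y', 0)).trace = t := by
  have hbar' : ∀ v, Y v = cB (pData A) (Y' (cB (pData A) v)) := by
    intro v
    rw [hbar, cB_cB, cB_cB]
  have hψ : ∀ u v, (pData A).ψ (Y u) v + (pData A).ψ u (Y v) = 0 := fun u v => by
    rw [hY.pol, zero_mul]
  have hψ' : ∀ u v, (pData A).ψ (Y' u) v + (pData A).ψ u (Y' v) = 0 := fun u v => by
    rw [hY'.pol, zero_mul]
  cases f with
  | S F h =>
    have hlin : ∀ c : ℂ, ent F σ (c • Y + conj c • Y') = c • ent F σ Y + conj c • ent F σ Y' := by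
      intro c
      rw [map_add, map_smul, map_smul]
    have t1 : (ent F σ (refl' A)).trace = 0 := (Fac3.S F h).A_tr σ ε refl_sym
    have t2 : (ent F σ Y).trace = 0 := (Fac3.S F h).A_tr σ ε hY
    have t3 : (ent F σ Y').trace = 0 := (Fac3.S F h).A_tr σ ε hY'
    obtain ⟨c, t, ht, h1⟩ := posS (F.HM_posDef σ) t1 (F.hh_one σ) (F.HM_refl' σ) t2 t3
      (HM_bar F σ (hY'.commF F) (hY.commF F) hψ hbar')
      (HM_bar F σ (hY.commF F) (hY'.commF F) hψ' hbar) hne htr
    refine ⟨c, t, ht, ?_⟩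
    show (ent F σ (c • Y + conj c • Y') * ent F σ (c • Y + conj c • Y')).trace = t
    rw [hlin]
    exact h1
  | Q F =>
    have hM := F.gso σ (hod_sym (A := A))
    have hMM := ent_hod_idem F.toUF σ
    obtain ⟨ε₀, he, -⟩ := exists_unique_half (F.sp σ) hM hMM
    have hε : ε₀ = 1 - ε := by
      have hne' : ε₀ ≠ ε := by
        rintro rfl
        exact hc he
      fin_cases ε <;> fin_cases ε₀ <;> first | rfl | exact absurd rfl hne'
    rw [hε] at he
    have h0 := half_iff (F.sp σ) hM hMM _ he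
    rw [← matAt_refl F.toUF σ] at h0
    have hlin : ∀ c : ℂ, ent F.toUF σ (c • Y + conj c • Y') =
        c • ent F.toUF σ Y + conj c • ent F.toUF σ Y' := by
      intro c
      rw [map_add, map_smul, map_smul]
    obtain ⟨c, t, ht, h1⟩ := posQ (F.sp σ) (F.toUF.HM_posDef σ) ε (F.gso σ refl_sym)
      (F.toUF.hh_one σ) h0 (F.toUF.HM_refl' σ) (F.gso σ hY) (F.gso σ hY')
      (HM_bar F.toUF σ (hY'.commF F.toUF) (hY.commF F.toUF) hψ hbar')
      (HM_bar F.toUF σ (hY.commF F.toUF) (hY'.commF F.toUF) hψ' hbar) hne htr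
    refine ⟨c, t, ht, ?_⟩
    show ((F.sp σ).a ε (ent F.toUF σ (c • Y + conj c • Y'), 0) *
      (F.sp σ).a ε (ent F.toUF σ (c • Y + conj c • Y'), 0)).trace = t
    rw [hlin]
    exact h1
  | R F => rcases hf with hf | hf <;> exact hf.elim
  | T F => rcases hf with hf | hf <;> exact hf.elim

end single

section family

variable {I : Type} [Fintype I] [DecidableEq I] (n : I → ℕ) (A : I → AbVar)
  {K : I → Type} [∀ i, Field (K i)] [∀ i, NumberField (K i)]
  {k : ℕ} (α : MultilinearMap ℂ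
    (fun _ : Fin (2 * k) => HW (fun i => Fin (A i).g ⊕ Fin (A i).g) n) ℂ)
  (F : ∀ i, Fac3 (pData (A i)) (K i))

/-- (F1a) -/
theorem cpt_unique (s : Emb K) (hs : (F s.1).isQ) : ∃! ε, Cpt A F (s, ε) :=
  exists_unique_cpt (F s.1) hs s.2

/-- (F1b) -/
theorem cpt_not_S (s : Emb K) (hs : (F s.1).isS) (ε : Fin 2) : ¬ Cpt A F (s, ε) :=
  not_cpt (F s.1) hs s.2 ε

variable
  (hB : ∀ v : Fin (2 * k) → HW (fun i => Fin (A i).g ⊕ Fin (A i).g) n,
    (∀ r, IsRatP n (fun i => pData (A i)) (v r)) →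
      ∃ q : ℚ, α v = (2 * Real.pi * Complex.I) ^ k * q)
  (hA : ∀ v : Fin (2 * k) → HW (fun i => Fin (A i).g ⊕ Fin (A i).g) n,
    (∀ r i m j, IsAlgebraic ℚ (v r i m j)) → IsAlgebraic ℚ (α v))

include hB hA in
lemma cpt_of_lk_one (t t' : Emb K × Fin 2) (ht : (F t.1.1).isS ∨ (F t.1.1).isQ)
    (ht' : (F t'.1.1).isS ∨ (F t'.1.1).isQ)
    (h : Lk n (fun i => pData (A i)) α F t t') (hc : Cpt A F t) : Cpt A F t' := by
  have hϖ : (2 * Real.pi * Complex.I : ℂ) ≠ 0 := Complex.two_pi_I_ne_zero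
  by_contra hnc
  have htQ : (F t.1.1).isQ := by
    rcases ht with ht | ht
    · exact absurd hc (cpt_not_S A F t.1 ht t.2)
    · exact ht
  obtain ⟨Z, hZ0, hZt, hZT⟩ := exists_orth ((F t'.1.1).A t'.1.2 t'.2 (refl' (A t'.1.1), 0))
  obtain ⟨Y, hY⟩ := AS_surj n (fun i => pData (A i)) α hϖ hB hA F t' ht' Z hZt
  have hY2 : (vl n (fun i => pData (A i)) α Y).2 = 0 := by
    have h1 := AS_tr n (fun i => pData (A i)) α F t' Y
    rw [hY, hZt, cS_apply] at h1
    exact h1.symm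
  obtain ⟨Y', hY', hY'2, -, hbar⟩ := Pool.Agent.Helper28.GPC.exists_real n
    (fun i => pData (A i)) α hϖ hB _ (vl_inv n (fun i => pData (A i)) α Y)
  obtain ⟨Y₀, hY₀⟩ : ∃ Y₀, Y₀ = vl n (fun i => pData (A i)) α Y := ⟨_, rfl⟩
  have hYi : IsInv n (fun i => pData (A i)) α Y₀ := by
    rw [hY₀]; exact vl_inv n (fun i => pData (A i)) α Y
  rw [← hY₀] at hY2 hY'2 hbar
  rw [hY2, map_zero] at hY'2
  have hYs : ∀ i, Sym (pData (A i)) (Y₀.1 i) 0 := by
    intro i
    have := symI n (fun i => pData (A i)) α hYi i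
    rwa [hY2] at this
  have hYs' : ∀ i, Sym (pData (A i)) (Y'.1 i) 0 := by
    intro i
    have := symI n (fun i => pData (A i)) α hY' i
    rwa [hY'2] at this
  have hZ : (F t'.1.1).A t'.1.2 t'.2 (Y₀.1 t'.1.1, 0) = Z := by
    rw [← hY, AS_apply, AA_apply, ← hY₀, hY2]
  obtain ⟨c, s, hs, hpos⟩ := ncpt_pos (F t'.1.1) ht' t'.1.2 t'.2 hnc (hYs t'.1.1) (hYs' t'.1.1)
    (hbar t'.1.1) (by rw [hZ]; exact hZ0) (by rw [hZ]; exact hZT)
  obtain ⟨X, hX⟩ : ∃ X, X = c • Y₀ + conj c • Y' := ⟨_, rfl⟩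
  have hXi : IsInv n (fun i => pData (A i)) α X := by
    rw [hX]
    exact (hYi.smul n _ α c).add n _ α (hY'.smul n _ α (conj c))
  have hX2 : X.2 = 0 := by
    rw [hX]
    show c • Y₀.2 + conj c • Y'.2 = 0
    rw [hY2, hY'2, smul_zero, smul_zero, add_zero]
  have hX1 : ∀ i, X.1 i = c • Y₀.1 i + conj c • Y'.1 i := by
    intro i; rw [hX]; rfl
  have hXs : ∀ i, Sym (pData (A i)) (X.1 i) 0 := by
    intro i
    have := symI n (fun i => pData (A i)) α hXi i
    rwa [hX2] at this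
  have hXr : ∀ i v, cB (pData (A i)) (X.1 i v) = X.1 i (cB (pData (A i)) v) := by
    intro i v
    rw [hX1, LinearMap.add_apply, LinearMap.add_apply, LinearMap.smul_apply, LinearMap.smul_apply,
      LinearMap.smul_apply, LinearMap.smul_apply, cB_add, cB_smul, cB_smul, hbar, hbar, cB_cB,
      cB_cB, Complex.conj_conj, add_comm]
  obtain ⟨s', hs', hneg⟩ := cpt_neg (F t.1.1) htQ t.1.2 t.2 hc (hXs t.1.1) (hXr t.1.1)
  rw [lk_iff] at h
  obtain ⟨Q, hQ, hconj⟩ := h
  have h1 := hconj X hXi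
  rw [AA_apply, AA_apply, hX2] at h1
  rw [← hX1] at hpos
  have hu : IsUnit Q.det := isUnit_iff_ne_zero.mpr hQ
  have h2 : ((F t.1.1).A t.1.2 t.2 (X.1 t.1.1, 0) * (F t.1.1).A t.1.2 t.2 (X.1 t.1.1, 0)).trace =
      ((F t'.1.1).A t'.1.2 t'.2 (X.1 t'.1.1, 0) *
        (F t'.1.1).A t'.1.2 t'.2 (X.1 t'.1.1, 0)).trace := by
    generalize (F t.1.1).A t.1.2 t.2 (X.1 t.1.1, 0) = U at h1 ⊢
    generalize (F t'.1.1).A t'.1.2 t'.2 (X.1 t'.1.1, 0) = W at h1 ⊢
    calc (U * U).trace = (U * U * (Q * Q⁻¹)).trace := by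
          rw [Matrix.mul_nonsing_inv _ hu, Matrix.mul_one]
      _ = (U * (U * Q) * Q⁻¹).trace := by simp only [Matrix.mul_assoc]
      _ = ((U * Q) * W * Q⁻¹).trace := by rw [h1, ← Matrix.mul_assoc U Q W, h1]
      _ = (Q * (W * W) * Q⁻¹).trace := by rw [h1]; simp only [Matrix.mul_assoc]
      _ = (Q⁻¹ * (Q * (W * W))).trace := Matrix.trace_mul_comm _ _
      _ = (W * W).trace := by
          rw [← Matrix.mul_assoc, Matrix.nonsing_inv_mul _ hu, Matrix.one_mul]
  rw [hneg, hpos] at h2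
  have h3 : (-s' : ℝ) = s := by exact_mod_cast h2
  linarith

include hB hA in
/-- (F2) compactness of a piece depends only on the class of links -/
theorem cpt_of_lk (t t' : Emb K × Fin 2) (ht : (F t.1.1).isS ∨ (F t.1.1).isQ)
    (ht' : (F t'.1.1).isS ∨ (F t'.1.1).isQ)
    (h : Lk n (fun i => pData (A i)) α F t t') : Cpt A F t ↔ Cpt A F t' :=
  ⟨cpt_of_lk_one n A α F hB hA t t' ht ht' h,
    cpt_of_lk_one n A α F hB hA t' t ht' ht h.symm⟩

end family

end Pool.Agent.Helper36
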