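import Pool.Agent.Helper36.NoLink
import Pool.Agent.Helper11.AF.Rigid

/-!
Module NoLink for theorem III of MP_bf54cf_ag, with the rigidity theorem.
-/

namespace Pool.Agent.Helper36

open Module NumberField Matrix
open Pool.Agent.Helper7 Pool.Agent.Helper8.D
open Pool.Agent.GPC (Emb AbVar)

set_option linter.unusedSectionVars false

/-- endomorphisms of the rational structure which respect the Hodge structure are endomorphisms -/
theorem end_of_hodge (A : AbVar) {K : Type} [Field K] [NumberField K] {r : ℕ}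
    (F' : QF (pData A) K r) (f : Module.End ℂ (Fin A.g ⊕ Fin A.g → ℂ))
    (h1 : ∀ v ∈ (pData A).Q, f v ∈ (pData A).Q) (h2 : ∀ v, f (hod A v) = hod A (f v)) :
    ∃ x y, ∀ v, f v = F'.ρ x v + F'.ρ y (F'.j v) := by
  have hb : ∀ v : A.H1, A.IsBetti v → A.IsBetti (f v) := fun v hv => by
    rw [← mem_pData_Q] at hv ⊢
    exact h1 v hv
  have hh : ∀ v : A.H1, A.IsFil v → A.IsFil (f v) := fun v hv => by
    rw [hod_fil] at hv ⊢
    rw [← h2, hv, map_zero]
  exact F'.hend f ((isDRB_iff A A f).mpr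
    ⟨hb, Pool.Agent.GPC.deRham_of_hodge A A f f.isLinear hb hh⟩)

section nolink

variable {I : Type} [Fintype I] [DecidableEq I] (n : I → ℕ) (A : I → AbVar)
  {K : I → Type} [∀ i, Field (K i)] [∀ i, NumberField (K i)]
  {k : ℕ} (α : MultilinearMap ℂ
    (fun _ : Fin (2 * k) => HW (fun i => Fin (A i).g ⊕ Fin (A i).g) n) ℂ)
  (F : ∀ i, Fac3 (pData (A i)) (K i))
  (hB : ∀ v : Fin (2 * k) → HW (fun i => Fin (A i).g ⊕ Fin (A i).g) n,
    (∀ r, IsRatP n (fun i => pData (A i)) (v r)) →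
      ∃ q : ℚ, α v = (2 * Real.pi * Complex.I) ^ k * q)
  (hA : ∀ v : Fin (2 * k) → HW (fun i => Fin (A i).g ⊕ Fin (A i).g) n,
    (∀ r i m j, IsAlgebraic ℚ (v r i m j)) → IsAlgebraic ℚ (α v))

include hB hA in
/-- Pieces of places of type III are linked only with pieces of the same place and of its
conjugate. -/
theorem no_link'
    (hHom : ∀ i j, (F i).isQ → (F j).isQ → i ≠ j →
      ∀ g : (Fin (A i).g ⊕ Fin (A i).g → ℂ) →ₗ[ℂ] (Fin (A j).g ⊕ Fin (A j).g → ℂ),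
        IsDRB (pData (A i)) (pData (A j)) g → g = 0)
    (hdeg : ∀ i, (F i).isQ → finrank ℚ (K i) = 2 ∨
      ∃ p : ℕ, p.Prime ∧ finrank ℚ (K i) = 2 * p)
    (hpair : ∀ i j, (F i).isQ → (F j).isQ → i ≠ j →
      (finrank ℚ (K i) = 2 ∧ finrank ℚ (K j) = 2) ∨
      (finrank ℚ (K i) ≠ finrank ℚ (K j) ∧ finrank ℚ (K i) ≠ 2 * finrank ℚ (K j) ∧
        finrank ℚ (K j) ≠ 2 * finrank ℚ (K i)))
    (s : Emb K) (ε : Fin 2) (t' : Emb K × Fin 2) (hs : (F s.1).isQ)
    (ht' : (F t'.1.1).isS ∨ (F t'.1.1).isQ) (h : Lk n (fun i => pData (A i)) α F (s, ε) t') :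
    t'.1 = s ∨ t'.1 = conjT s :=
  no_link n A α F hB hA (fun i F' _ f h1 h2 => end_of_hodge (A i) F' f h1 h2) hHom hdeg hpair
    s ε t' hs ht' h

end nolink

end Pool.Agent.Helper36
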