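import Mathlib

set_option autoImplicit false

namespace Pool.Agent.Helper36.FitLin

section basic
variable {V : Type} [AddCommGroup V]

lemma iter_add (Y : V →+ V) (u i : V) (hi : Y i = i) (h : Y u = u + i) (j : ℕ) :
    Y^[j] u = u + j • i := by
  induction j with
  | zero => simp
  | succ j ih =>
    rw [Function.iterate_succ_apply', ih, map_add, h, map_nsmul, hi, succ_nsmul]; abel

lemma odd_smul_eq (h2 : ∀ v : V, v + v = 0) {m : ℕ} (hm : Odd m) (v : V) : m • v = v := by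
  obtain ⟨k, rfl⟩ := hm
  have : (2 * k) • v = 0 := by
    rw [mul_comm, mul_nsmul, two_nsmul, ← smul_add] 
    simp [h2]
  rw [add_nsmul, this, one_nsmul, zero_add]

lemma tel (h2 : ∀ v : V, v + v = 0) (Y : V →+ V) {m : ℕ} (hm : Odd m)
    (hY : ∀ v, Y^[m] v = v) (u : V) (h : Y (Y u - u) = Y u - u) : Y u = u := by
  have h1 := iter_add Y u (Y u - u) h (by abel) m
  rw [hY, odd_smul_eq h2 hm] at h1
  simpa using h1.symm

lemma dec (h2 : ∀ v : V, v + v = 0) (Y : V →+ V) {m : ℕ} (hm : Odd m)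
    (hY : ∀ v, Y^[m] v = v) (S : AddSubgroup V) (hS : ∀ s ∈ S, Y s ∈ S) (v : V) (hv : v ∈ S) :
    ∃ u ∈ S, ∃ c ∈ S, Y c = c ∧ v = (Y u - u) + c := by
  have hit : ∀ j : ℕ, Y^[j] v ∈ S := by
    intro j
    induction j with
    | zero => simpa using hv
    | succ j ih => rw [Function.iterate_succ_apply']; exact hS _ ih
  set D : V →+ V := Y - AddMonoidHom.id V with hD
  have hDa : ∀ x, D x = Y x - x := fun x => rfl
  have h1 : ∀ j : ℕ, v - Y^[j] v ∈ S.map D := by
    intro j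
    induction j with
    | zero => simp
    | succ j ih =>
      have : v - Y^[j+1] v = (v - Y^[j] v) - D (Y^[j] v) := by
        rw [hDa, ← Function.iterate_succ_apply' (f := Y)]; abel
      rw [this]
      exact AddSubgroup.sub_mem _ ih (AddSubgroup.mem_map_of_mem D (hit j))
  have h3 : v - ∑ j ∈ Finset.range m, Y^[j] v ∈ S.map D := by
    have : v - ∑ j ∈ Finset.range m, Y^[j] v = ∑ j ∈ Finset.range m, (v - Y^[j] v) := by
      rw [Finset.sum_sub_distrib, Finset.sum_const, Finset.card_range, odd_smul_eq h2 hm]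
    rw [this]
    exact AddSubgroup.sum_mem _ (fun j _ => h1 j)
  obtain ⟨u, hu, hu'⟩ := h3
  refine ⟨u, hu, ∑ j ∈ Finset.range m, Y^[j] v, AddSubgroup.sum_mem _ (fun j _ => hit j), ?_, ?_⟩
  · rw [map_sum]
    have : ∀ j, Y (Y^[j] v) = Y^[j+1] v := fun j => (Function.iterate_succ_apply' _ _ _).symm
    simp_rw [this]
    have h4 := Finset.sum_range_succ (fun j => Y^[j] v) m
    have h5 := Finset.sum_range_succ' (fun j => Y^[j] v) m
    rw [h4] at h5
    rw [hY] at h5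
    simp only [Function.iterate_zero, id] at h5
    exact (add_right_cancel h5).symm
  · rw [← hDa, hu']; abel

end basic

section main
variable {V W : Type} [AddCommGroup V] [AddCommGroup W]

structure Lin (N : ℕ) (β : V →+ V →+ W) : Prop where
  alt : ∀ a b, β a b = - β b a
  V2 : ∀ v : V, v + v = 0
  W2 : ∀ w : W, w + w = 0
  ca : ∀ v, v ≠ 0 → N ≤ Nat.card (β v).range
  cb : AddSubgroup.closure {v | Nat.card (β v).range ≤ N} = ⊤
  cc : ∀ v v', Nat.card (β v).range ≤ N → Nat.card (β v').range ≤ N →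
    (β v).range ≠ (β v').range → β v v' = 0

def VU (β : V →+ V →+ W) (U : AddSubgroup W) : AddSubgroup V where
  carrier := {v | ∀ u, β v u ∈ U}
  zero_mem' := by intro u; simp
  add_mem' := by
    intro a b ha hb u
    rw [map_add, AddMonoidHom.add_apply]
    exact U.add_mem (ha u) (hb u)
  neg_mem' := by
    intro a ha u
    rw [map_neg, AddMonoidHom.neg_apply]
    exact U.neg_mem (ha u)

lemma mem_VU {β : V →+ V →+ W} {U : AddSubgroup W} {v : V} : v ∈ VU β U ↔ ∀ u, β v u ∈ U :=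
  Iff.rfl

variable {N : ℕ} {β : V →+ V →+ W}

lemma self_mem_VU (v : V) : v ∈ VU β (β v).range := fun u => ⟨u, rfl⟩

lemma D3 (h : Lin N β) (v : V) (hv : Nat.card (β v).range ≤ N) (b : V) :
    ∃ b' ∈ VU β (β v).range, β v b' = β v b := by
  have hb : b ∈ AddSubgroup.closure {v | Nat.card (β v).range ≤ N} := by
    rw [h.cb]; trivial
  induction hb using AddSubgroup.closure_induction with
  | mem x hx =>
    by_cases he : (β v).range = (β x).range
    · exact ⟨x, by rw [he]; exact self_mem_VU x, rfl⟩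
    · exact ⟨0, AddSubgroup.zero_mem _, by rw [h.cc v x hv hx he, map_zero]⟩
  | zero => exact ⟨0, AddSubgroup.zero_mem _, rfl⟩
  | add x y _ _ hx hy =>
    obtain ⟨x', hx', ex⟩ := hx
    obtain ⟨y', hy', ey⟩ := hy
    exact ⟨x' + y', AddSubgroup.add_mem _ hx' hy', by rw [map_add, map_add, ex, ey]⟩
  | neg x _ hx =>
    obtain ⟨x', hx', ex⟩ := hx
    exact ⟨-x', AddSubgroup.neg_mem _ hx', by rw [map_neg, map_neg, ex]⟩

variable [Finite W]

lemma D4 (h : Lin N β) {U : AddSubgroup W} (hU : Nat.card U = N) {v : V} (hv : v ∈ VU β U)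
    (h0 : v ≠ 0) : (β v).range = U := by
  apply AddSubgroup.eq_of_le_of_card_ge
  · rintro _ ⟨u, rfl⟩; exact hv u
  · rw [hU]; exact h.ca v h0

lemma D4' (h : Lin N β) {U : AddSubgroup W} (hU : Nat.card U = N) {v : V} (hv : v ∈ VU β U)
    (h0 : v ≠ 0) {w : W} (hw : w ∈ U) : ∃ b ∈ VU β U, β v b = w := by
  have h1 := D4 h hU hv h0
  rw [← h1] at hw
  obtain ⟨b, rfl⟩ := hw
  have h2 := D3 h v (by rw [h1, hU]) b
  rwa [h1] at h2

lemma D5 (h : Lin N β) {U U' : AddSubgroup W} (hU : Nat.card U = N) (hU' : Nat.card U' = N)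
    (hne : U ≠ U') {v v' : V} (hv : v ∈ VU β U) (hv' : v' ∈ VU β U') : β v v' = 0 := by
  by_cases h0 : v = 0
  · simp [h0]
  by_cases h0' : v' = 0
  · simp [h0']
  have h1 := D4 h hU hv h0
  have h2 := D4 h hU' hv' h0'
  exact h.cc v v' (by rw [h1, hU]) (by rw [h2, hU']) (by rw [h1, h2]; exact hne)

lemma D5' (h : Lin N β) {U U' : AddSubgroup W} (hU : Nat.card U = N) (hU' : Nat.card U' = N)
    (hne : U ≠ U') {v : V} (hv : v ∈ VU β U) (hv' : v ∈ VU β U') : v = 0 := by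
  by_contra h0
  exact hne ((D4 h hU hv h0).symm.trans (D4 h hU' hv' h0))

omit [Finite W] in
lemma range_map (T : V →+ V) (T' : W →+ W) (hT : ∀ a b, β (T a) (T b) = T' (β a b))
    (hs : Function.Surjective T) (v : V) : (β (T v)).range = (β v).range.map T' := by
  ext w
  constructor
  · rintro ⟨u, rfl⟩
    obtain ⟨u, rfl⟩ := hs u
    exact ⟨β v u, ⟨u, rfl⟩, (hT _ _).symm⟩
  · rintro ⟨_, ⟨u, rfl⟩, rfl⟩
    exact ⟨T u, hT _ _⟩

omit [Finite W] in
lemma VU_map (T : V →+ V) (T' : W →+ W) (hT : ∀ a b, β (T a) (T b) = T' (β a b))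
    (hs : Function.Surjective T) {U : AddSubgroup W} {v : V} (hv : v ∈ VU β U) :
    T v ∈ VU β (U.map T') := by
  intro u
  obtain ⟨u, rfl⟩ := hs u
  rw [hT]
  exact AddSubgroup.mem_map_of_mem _ (hv u)

omit [Finite W] in
lemma card_map (T' : W →+ W) (hi : Function.Injective T') (U : AddSubgroup W) :
    Nat.card (U.map T') = Nat.card U :=
  (Nat.card_congr (U.equivMapOfInjective T' hi).toEquiv).symm

/-- 1b -/
lemma stepB (h : Lin N β) (Y : V →+ V) (Y' : W →+ W)
    (hY : ∀ a b, β (Y a) (Y b) = Y' (β a b)) {m : ℕ} (hm : Odd m)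
    (hYm' : ∀ v, Y'^[m] v = v)
    (hs : Function.Surjective Y) (hi : Function.Injective Y')
    (h1 : ∀ a b, Y' (β (Y a - a) (Y b - b)) = β (Y a - a) (Y b - b))
    {U : AddSubgroup W} (hU : Nat.card U = N) {v0 : V} (hv0 : v0 ∈ VU β U) (h0 : v0 ≠ 0) :
    U.map Y' = U := by
  by_contra hne
  apply hne
  have key : ∀ w ∈ U, Y' w = w := by
    intro w hw
    obtain ⟨b, hb, rfl⟩ := D4' h hU hv0 h0 hw
    have e1 : β (Y v0) b = 0 :=
      D5 h (by rw [card_map Y' hi, hU]) hU hne (VU_map Y Y' hY hs hv0) hb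
    have e2 : β v0 (Y b) = 0 :=
      D5 h hU (by rw [card_map Y' hi, hU]) (Ne.symm hne) hv0 (VU_map Y Y' hY hs hb)
    have e3 := h1 v0 b
    have e4 : β (Y v0 - v0) (Y b - b) = Y' (β v0 b) + β v0 b := by
      simp only [map_sub, AddMonoidHom.sub_apply, hY, e1, e2]
      abel
    rw [e4, map_add] at e3
    set w := β v0 b
    have e5 : Y' (Y' w) = w := by
      have : Y' (Y' w) + Y' w = w + Y' w := by rw [e3]; abel
      exact add_right_cancel this
    apply tel h.W2 Y' hm hYm'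
    rw [map_sub, e5]
    have hn : ∀ x : W, -x = x := fun x => by
      have := h.W2 x
      exact neg_eq_of_add_eq_zero_left this
    rw [sub_eq_add_neg, sub_eq_add_neg, hn, hn]; abel
  ext w
  constructor
  · rintro ⟨x, hx, rfl⟩; rw [key x hx]; exact hx
  · intro hw; exact ⟨w, hw, key w hw⟩

theorem step1 {ι : Type} (h : Lin N β) (Y : V →+ V) (Y' : W →+ W)
    (hY : ∀ a b, β (Y a) (Y b) = Y' (β a b)) {m : ℕ} (hm : Odd m) (hYm : ∀ v, Y^[m] v = v)
    (hYm' : ∀ v, Y'^[m] v = v)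
    (hs : Function.Surjective Y) (hi : Function.Injective Y')
    (T : ι → V →+ V) (T' : ι → W →+ W) (hT : ∀ t a b, β (T t a) (T t b) = T' t (β a b))
    (hTs : ∀ t, Function.Bijective (T t)) (hTi : ∀ t, Function.Injective (T' t))
    (h1 : ∀ a b, Y' (β (Y a - a) (Y b - b)) = β (Y a - a) (Y b - b))
    (h1' : ∀ t a b, T' t (β (Y a - a) (Y b - b)) = β (Y a - a) (Y b - b))
    (h2 : ∀ t a, Y (T t (Y a - a) - (Y a - a)) = T t (Y a - a) - (Y a - a))
    (h2' : ∀ t a b, β (T t (Y a - a) - (Y a - a)) (Y b - b) = 0)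
    (h3 : ∀ t w, Y' (T' t (Y' w - w) - (Y' w - w)) = T' t (Y' w - w) - (Y' w - w))
    (h4 : ∀ w, (∀ t, T' t (Y' w - w) = Y' w - w) → Y' (Y' w - w) = Y' w - w)
    {U : AddSubgroup W} (hU : Nat.card U = N) {v0 : V} (hv0 : v0 ∈ VU β U) (h0 : v0 ≠ 0) :
    ∀ w ∈ U, Y' w = w := by
  by_contra hcon
  push Not at hcon
  obtain ⟨w0, hw0, hne0⟩ := hcon
  have hUY : ∀ {U : AddSubgroup W}, Nat.card U = N → ∀ {v0 : V}, v0 ∈ VU β U → v0 ≠ 0 →
      U.map Y' = U := fun hU _ hv0 h0 => stepB h Y Y' hY hm hYm' hs hi h1 hU hv0 h0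
  have hUU := hUY hU hv0 h0
  have UY : ∀ w ∈ U, Y' w ∈ U := by
    intro w hw; rw [← hUU]; exact AddSubgroup.mem_map_of_mem _ hw
  have VY : ∀ v ∈ VU β U, Y v ∈ VU β U := by
    intro v hv
    have := VU_map Y Y' hY hs hv
    rwa [hUU] at this
  have decV := fun v hv => dec h.V2 Y hm hYm (VU β U) VY v hv
  have telW : ∀ w, Y' (Y' w - w) = Y' w - w → Y' w - w = 0 := fun w hw =>
    sub_eq_zero.mpr (tel h.W2 Y' hm hYm' w hw)
  have telV : ∀ v, Y (Y v - v) = Y v - v → Y v - v = 0 := fun w hw =>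
    sub_eq_zero.mpr (tel h.V2 Y hm hYm w hw)
  have ic : ∀ u c, Y c = c → β (Y u - u) c = Y' (β u c) - β u c := by
    intro u c hc
    rw [map_sub, AddMonoidHom.sub_apply, ← hY, hc]
  have cc0 : ∀ c c', Y c = c → Y c' = c' → Y' (β c c') = β c c' := by
    intro c c' hc hc'
    rw [← hY, hc, hc']
  have L4 : ∀ u ∈ VU β U, Y u - u ≠ 0 → ∀ w ∈ U, ∃ c ∈ VU β U, Y c = c ∧
      β (Y u - u) c = Y' w - w := by
    intro u hu hne w hw
    obtain ⟨b, hb, hbe⟩ := D4' h hU (AddSubgroup.sub_mem _ (VY u hu) hu) hne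
      (U.sub_mem (UY w hw) hw)
    obtain ⟨u', hu', c, hc, hYc, rfl⟩ := decV b hb
    refine ⟨c, hc, hYc, ?_⟩
    rw [map_add, ic u c hYc] at hbe
    have e1 : β (Y u - u) (Y u' - u') = Y' (w - β u c) - (w - β u c) := by
      rw [map_sub Y']
      have : β (Y u - u) (Y u' - u') = Y' w - w - (Y' (β u c) - β u c) := by
        rw [← hbe]; abel
      rw [this]; abel
    have e2 := telW (w - β u c) (by rw [← e1]; exact h1 u u')
    rw [ic u c hYc]
    rw [map_sub] at e2
    have e3 : Y' w - w - (Y' (β u c) - β u c) = 0 := by rw [← e2]; abel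
    exact (sub_eq_zero.mp e3).symm
  have L4' : ∀ u ∈ VU β U, Y u - u ≠ 0 → ∀ w ∈ U, Y' w = w → ∃ u' ∈ VU β U,
      β (Y u - u) (Y u' - u') = w := by
    intro u hu hne w hw hw'
    obtain ⟨b, hb, hbe⟩ := D4' h hU (AddSubgroup.sub_mem _ (VY u hu) hu) hne hw
    obtain ⟨u', hu', c, hc, hYc, rfl⟩ := decV b hb
    refine ⟨u', hu', ?_⟩
    rw [map_add, ic u c hYc] at hbe
    have e2 := telW (β u c) (by
      have : Y' (β u c) - β u c = w - β (Y u - u) (Y u' - u') := by rw [← hbe]; abel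
      rw [this, map_sub, hw', h1])
    rw [e2, add_zero] at hbe
    exact hbe
  have L5 : ∀ c ∈ VU β U, Y c = c → c ≠ 0 → ∀ w ∈ U, ∃ u ∈ VU β U,
      β c (Y u - u) = Y' w - w := by
    intro c hc hYc hne w hw
    obtain ⟨b, hb, hbe⟩ := D4' h hU hc hne (U.sub_mem (UY w hw) hw)
    obtain ⟨u, hu, c', hc', hYc', rfl⟩ := decV b hb
    refine ⟨u, hu, ?_⟩
    have e0 : β c (Y u - u) = - (Y' (β u c) - β u c) := by rw [h.alt, ic u c hYc]
    rw [map_add, e0] at hbe
    have e1 : β c c' = Y' (w + β u c) - (w + β u c) := by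
      rw [map_add]
      have : β c c' = Y' w - w + (Y' (β u c) - β u c) := by rw [← hbe]; abel
      rw [this]; abel
    have e2 := telW (w + β u c) (by rw [← e1]; exact cc0 c c' hYc hYc')
    rw [e0]
    rw [map_add] at e2
    have e3 : Y' w - w - (- (Y' (β u c) - β u c)) = 0 := by rw [← e2]; abel
    exact (sub_eq_zero.mp e3).symm
  have L6 : ∃ u ∈ VU β U, Y u - u ≠ 0 := by
    by_contra hcon
    push Not at hcon
    obtain ⟨b, hb, rfl⟩ := D4' h hU hv0 h0 hw0
    apply hne0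
    rw [← hY, sub_eq_zero.mp (hcon v0 hv0), sub_eq_zero.mp (hcon b hb)]
  obtain ⟨u0, hu0, hi0⟩ := L6
  have hi0U : Y u0 - u0 ∈ VU β U := AddSubgroup.sub_mem _ (VY u0 hu0) hu0
  have L7 : ∀ t, U.map (T' t) = U := by
    intro t
    by_contra hne
    have hc : Nat.card (U.map (T' t)) = N := by rw [card_map _ (hTi t), hU]
    have hm1 : T t (Y u0 - u0) ∈ VU β (U.map (T' t)) :=
      VU_map _ _ (hT t) (hTs t).2 hi0U
    have hn1 : T t (Y u0 - u0) ≠ 0 := by
      intro h'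
      apply hi0
      exact (hTs t).1 (by rw [h', map_zero])
    have hU' := hUY hc hm1 hn1
    have hm2 : Y (T t (Y u0 - u0)) ∈ VU β (U.map (T' t)) := by
      have := VU_map Y Y' hY hs hm1
      rwa [hU'] at this
    have e := h2 t u0
    rw [map_sub] at e
    have e' : Y (T t (Y u0 - u0)) - T t (Y u0 - u0) = Y (Y u0 - u0) - (Y u0 - u0) := by
      have : Y (T t (Y u0 - u0)) = T t (Y u0 - u0) - (Y u0 - u0) + Y (Y u0 - u0) := by
        rw [← e]; abel
      rw [this]; abel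
    have e0 : Y (Y u0 - u0) - (Y u0 - u0) = 0 := by
      apply D5' h hU hc (Ne.symm hne)
      · exact AddSubgroup.sub_mem _ (VY _ hi0U) hi0U
      · rw [← e']; exact AddSubgroup.sub_mem _ hm2 hm1
    exact hi0 (telV u0 (sub_eq_zero.mp e0))
  have VT : ∀ t, ∀ v ∈ VU β U, T t v ∈ VU β U := by
    intro t v hv
    have := VU_map (T t) (T' t) (hT t) (hTs t).2 hv
    rwa [L7] at this
  have L8 : ∀ t, ∀ u ∈ VU β U, T t (Y u - u) = Y u - u := by
    intro t u hu
    have hiU : Y u - u ∈ VU β U := AddSubgroup.sub_mem _ (VY u hu) hu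
    by_contra hne
    have hg : T t (Y u - u) - (Y u - u) ≠ 0 := fun h' => hne (sub_eq_zero.mp h')
    obtain ⟨u', _, he⟩ := L5 _ (AddSubgroup.sub_mem _ (VT t _ hiU) hiU) (h2 t u) hg w0 hw0
    rw [h2'] at he
    exact hne0 (sub_eq_zero.mp he.symm)
  have L9 : ∀ t, ∀ c ∈ VU β U, Y c = c → ∃ e ∈ VU β U, T t c - c = Y e - e := by
    intro t c hc hYc
    obtain ⟨e, he, c', hc', hYc', hde⟩ := decV (T t c - c) (AddSubgroup.sub_mem _ (VT t c hc) hc)
    refine ⟨e, he, ?_⟩
    have hz : c' = 0 := by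
      by_contra hne
      obtain ⟨u, hu, hue⟩ := L5 c' hc' hYc' hne w0 hw0
      have k1 : T' t (β (Y u - u) c) - β (Y u - u) c
          = β (Y u - u) (Y e - e) + β (Y u - u) c' := by
        rw [← hT, L8 t u hu, ← map_sub, hde, map_add]
      have k2 : β (Y u - u) c' = - (Y' w0 - w0) := by rw [h.alt, hue]
      have k3 := h3 t (β u c)
      rw [← ic u c hYc, k1, map_add, h1, k2] at k3
      have k4 := add_left_cancel k3
      rw [map_neg] at k4
      exact hne0 (sub_eq_zero.mp (telW w0 (neg_injective k4)))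
    rw [hde, hz, add_zero]
  have L10 : ∀ t, ∀ w ∈ U, Y' w = w → T' t w = w := by
    intro t w hw hw'
    obtain ⟨u', _, rfl⟩ := L4' u0 hu0 hi0 w hw hw'
    exact h1' t u0 u'
  have L11 : ∀ t, ∀ c ∈ VU β U, Y c = c → ∀ c' ∈ VU β U, Y c' = c' →
      β (T t c - c) (T t c' - c') = 0 := by
    intro t c hc hYc c' hc' hYc'
    obtain ⟨e, he, hee⟩ := L9 t c hc hYc
    obtain ⟨e', he', hee'⟩ := L9 t c' hc' hYc'
    have k1 : β (T t c) (T t c') = β c c' := by
      rw [hT]; exact L10 t _ (hc c') (cc0 c c' hYc hYc')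
    have k2 : β (T t c) (T t c') = β c c' + β c (Y e' - e') + β (Y e - e) c'
        + β (Y e - e) (Y e' - e') := by
      have a1 : T t c = c + (Y e - e) := by rw [← hee]; abel
      have a2 : T t c' = c' + (Y e' - e') := by rw [← hee']; abel
      rw [a1, a2]
      simp only [map_add, AddMonoidHom.add_apply]
      abel
    have k3 : β c (Y e' - e') = - (Y' (β e' c) - β e' c) := by rw [h.alt, ic e' c hYc]
    rw [k1, k3, ic e c' hYc'] at k2
    have k4 : β (Y e - e) (Y e' - e') = Y' (β e' c - β e c') - (β e' c - β e c') := by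
      rw [map_sub Y']
      have : β (Y e - e) (Y e' - e') = β c c' - (β c c' + -(Y' (β e' c) - β e' c)
        + (Y' (β e c') - β e c')) := by
        generalize β (Y e - e) (Y e' - e') = B at k2
        rw [eq_sub_iff_add_eq, add_comm]
        exact k2.symm
      rw [this]; abel
    rw [hee, hee', k4]
    apply telW
    rw [← k4]; exact h1 e e'
  have L12 : ∀ t, ∀ x ∈ U, T' t (Y' x - x) = Y' x - x := by
    intro t x hx
    by_cases hcase : ∃ c' ∈ VU β U, Y c' = c' ∧ T t c' - c' ≠ 0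
    · obtain ⟨c', hc', hYc', hne⟩ := hcase
      obtain ⟨e', he', hee'⟩ := L9 t c' hc' hYc'
      rw [hee'] at hne
      obtain ⟨c, hc, hYc, hce⟩ := L4 e' he' hne x hx
      rw [← hce, ← hT, L8 t e' he']
      have : β (Y e' - e') (T t c) = β (Y e' - e') c + β (Y e' - e') (T t c - c) := by
        rw [← map_add]; congr 1; abel
      rw [this, ← hee', L11 t c' hc' hYc' c hc hYc, add_zero]
    · push Not at hcase
      obtain ⟨c, hc, hYc, hce⟩ := L4 u0 hu0 hi0 x hx
      rw [← hce, ← hT, L8 t u0 hu0, sub_eq_zero.mp (hcase c hc hYc)]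
  exact hne0 (sub_eq_zero.mp (telW w0 (h4 w0 (fun t => L12 t w0 hw0))))

theorem step1' {ι : Type} (h : Lin N β) (Y : V →+ V) (Y' : W →+ W)
    (hY : ∀ a b, β (Y a) (Y b) = Y' (β a b)) {m : ℕ} (hm : Odd m) (hYm : ∀ v, Y^[m] v = v)
    (hYm' : ∀ v, Y'^[m] v = v)
    (hs : Function.Surjective Y) (hi : Function.Injective Y')
    (T : ι → V →+ V) (T' : ι → W →+ W) (hT : ∀ t a b, β (T t a) (T t b) = T' t (β a b))
    (hTs : ∀ t, Function.Bijective (T t)) (hTi : ∀ t, Function.Injective (T' t))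
    (h1 : ∀ a b, Y' (β (Y a - a) (Y b - b)) = β (Y a - a) (Y b - b))
    (h1' : ∀ t a b, T' t (β (Y a - a) (Y b - b)) = β (Y a - a) (Y b - b))
    (h2 : ∀ t a, Y (T t (Y a - a) - (Y a - a)) = T t (Y a - a) - (Y a - a))
    (h2' : ∀ t a b, β (T t (Y a - a) - (Y a - a)) (Y b - b) = 0)
    (h3 : ∀ t w, Y' (T' t (Y' w - w) - (Y' w - w)) = T' t (Y' w - w) - (Y' w - w))
    (h4 : ∀ w, (∀ t, T' t (Y' w - w) = Y' w - w) → Y' (Y' w - w) = Y' w - w) :
    ∀ a b, Y' (β a b) = β a b := by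
  intro a b
  have ha : a ∈ AddSubgroup.closure {v | Nat.card (β v).range ≤ N} := by
    rw [h.cb]; trivial
  induction ha using AddSubgroup.closure_induction with
  | mem x hx =>
    by_cases h0 : x = 0
    · simp [h0]
    exact step1 h Y Y' hY hm hYm hYm' hs hi T T' hT hTs hTi h1 h1' h2 h2' h3 h4
      (le_antisymm hx (h.ca x h0)) (self_mem_VU x) h0 _ ⟨b, rfl⟩
  | zero => simp
  | add x y _ _ hx hy => rw [map_add, AddMonoidHom.add_apply, map_add, hx, hy]
  | neg x _ hx => rw [map_neg, AddMonoidHom.neg_apply, map_neg, hx]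

end main

end Pool.Agent.Helper36.FitLin
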