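import Mathlib
import Pool.Agent.Helper36.FitLin

set_option autoImplicit false

namespace Pool.Agent.Helper36.Fit

open scoped commutatorElement

lemma one_of_pow {G : Type} [Monoid G] {g : G} {n m : ℕ} (h2 : g ^ 2 ^ n = 1) (hm : Odd m)
    (h : g ^ m = 1) : g = 1 := by
  have h1 : orderOf g ∣ 2 ^ n := orderOf_dvd_of_pow_eq_one h2
  have h3 : orderOf g ∣ m := orderOf_dvd_of_pow_eq_one h
  have hc : Nat.Coprime (2 ^ n) m := (Nat.coprime_two_left.mpr hm).pow_left n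
  have : orderOf g ∣ 1 := by
    rw [← Nat.Coprime.gcd_eq_one hc]; exact Nat.dvd_gcd h1 h3
  exact orderOf_eq_one_iff.mp (Nat.dvd_one.mp this)

lemma mem_of_pow {G : Type} [Group G] {K : Subgroup G} {g : G} {n m : ℕ} (h2 : g ^ 2 ^ n = 1)
    (hm : Odd m) (h : g ^ m ∈ K) : g ∈ K := by
  have hc : Nat.Coprime (2 ^ n) m := (Nat.coprime_two_left.mpr hm).pow_left n
  have hb := Nat.gcd_eq_gcd_ab (2 ^ n) m
  rw [Nat.Coprime.gcd_eq_one hc] at hb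
  have : g = (g ^ 2 ^ n) ^ (Nat.gcdA (2 ^ n) m) * (g ^ m) ^ (Nat.gcdB (2 ^ n) m) := by
    rw [← zpow_natCast, ← zpow_natCast, ← zpow_mul, ← zpow_mul, ← zpow_add, ← hb]
    simp
  rw [this, h2, one_zpow, one_mul]
  exact K.zpow_mem h _

lemma fixQ {Q : Type} [Group Q] [Finite Q] (K : Subgroup Q) [K.Normal]
    (comm : ∀ a ∈ K, ∀ b ∈ K, a * b = b * a) (two : ∀ k ∈ K, ∃ n : ℕ, k ^ 2 ^ n = 1)
    (odd : ∀ x : Q, ∃ m, Odd m ∧ x ^ m ∈ K)
    (gen : Subgroup.closure {g : Q | Odd (orderOf g)} = ⊤) {k : Q} (hk : k ∈ K)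
    (central : ∀ x, x * k = k * x) : k = 1 := by
  let _ : CommGroup K := { (inferInstance : Group K) with
    mul_comm := fun a b => Subtype.ext (comm a a.2 b b.2) }
  set φ : K →* K := MonoidHom.id K
  have key : ∀ (j : ℕ) (g₀ : Q), g₀⁻¹ * k ^ j * g₀ = k ^ j := by
    intro j g₀
    have : Commute g₀ (k ^ j) := Commute.pow_right (central g₀) j
    rw [mul_assoc, ← this.eq, inv_mul_cancel_left]
  have h1 := MonoidHom.transfer_eq_pow (ϕ := φ) k (fun j g₀ _ => key j g₀)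
  have h2 : ∀ x : Q, MonoidHom.transfer φ x = 1 := by
    intro x
    have hx : x ∈ Subgroup.closure {g : Q | Odd (orderOf g)} := by rw [gen]; trivial
    induction hx using Subgroup.closure_induction with
    | mem x hx =>
      obtain ⟨n, hn⟩ := two _ (MonoidHom.transfer φ x).2
      refine one_of_pow (n := n) (m := orderOf x) ?_ hx ?_
      · exact Subtype.ext hn
      · rw [← map_pow, pow_orderOf_eq_one, map_one]
    | one => exact map_one _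
    | mul x y _ _ hx hy => rw [map_mul, hx, hy, one_mul]
    | inv x _ hx => rw [map_inv, hx, inv_one]
  rw [h2 k] at h1
  have h3 : k ^ K.index = 1 := congrArg Subtype.val h1.symm
  obtain ⟨n, hn⟩ := two k hk
  refine one_of_pow hn ?_ h3
  by_contra hev
  rw [Nat.not_odd_iff_even] at hev
  have h2d : 2 ∣ Nat.card (Q ⧸ K) := hev.two_dvd
  obtain ⟨q, hq⟩ := exists_prime_orderOf_dvd_card' 2 h2d
  obtain ⟨x, rfl⟩ := QuotientGroup.mk_surjective q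
  obtain ⟨m, hm, hxm⟩ := odd x
  have h4 : (x : Q ⧸ K) ^ m = 1 := by
    rw [← QuotientGroup.mk_pow]; exact (QuotientGroup.eq_one_iff _).mpr hxm
  have h5 : orderOf (x : Q ⧸ K) ∣ m := orderOf_dvd_of_pow_eq_one h4
  rw [hq] at h5
  exact (Nat.not_even_iff_odd.mpr hm) (even_iff_two_dvd.mpr h5)


variable {G : Type} [Group G]

def O2 (A : Subgroup G) : Subgroup G := Subgroup.closure {g | g ∈ A ∧ Odd (orderOf g)}

def cs (K : Subgroup G) (k : G) : Set G := (fun t => ⁅k, t⁆) '' (K : Set G)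

structure Pre (X K : Subgroup G) : Prop where
  KX : K ≤ X
  nor : ∀ x ∈ X, ∀ k ∈ K, x * k * x⁻¹ ∈ K
  two : ∀ k ∈ K, ∃ n : ℕ, k ^ 2 ^ n = 1
  odd : ∀ x ∈ X, ∃ m : ℕ, Odd m ∧ x ^ m ∈ K
  gen : X ≤ O2 X

lemma Pre.fix [Finite G] {X K : Subgroup G} (h : Pre X K) (D : Subgroup G) (_DK : D ≤ K)
    (Dn : ∀ x ∈ X, ∀ d ∈ D, x * d * x⁻¹ ∈ D) (KD : ∀ a ∈ K, ∀ b ∈ K, ⁅a, b⁆ ∈ D)
    {k : G} (hk : k ∈ K) (hx : ∀ x ∈ X, ⁅k, x⁆ ∈ D) : k ∈ D := by
  have hDn : (D.subgroupOf X).Normal := ⟨fun d hd x => by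
    rw [Subgroup.mem_subgroupOf] at hd ⊢
    exact Dn x x.2 d hd⟩
  have hKn : (K.subgroupOf X).Normal := ⟨fun d hd x => by
    rw [Subgroup.mem_subgroupOf] at hd ⊢
    exact h.nor x x.2 d hd⟩
  have hKn' : ((K.subgroupOf X).map (QuotientGroup.mk' (D.subgroupOf X))).Normal :=
    hKn.map _ (QuotientGroup.mk'_surjective _)
  have key := fixQ ((K.subgroupOf X).map (QuotientGroup.mk' (D.subgroupOf X)))
    ?_ ?_ ?_ ?_ (k := QuotientGroup.mk' (D.subgroupOf X) ⟨k, h.KX hk⟩) ?_ ?_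
  · rw [← MonoidHom.mem_ker, QuotientGroup.ker_mk', Subgroup.mem_subgroupOf] at key
    exact key
  · rintro _ ⟨a, ha, rfl⟩ _ ⟨b, hb, rfl⟩
    rw [← map_mul, ← map_mul]
    apply QuotientGroup.eq.mpr
    rw [Subgroup.mem_subgroupOf]
    rw [SetLike.mem_coe, Subgroup.mem_subgroupOf] at ha hb
    have := KD _ (K.inv_mem hb) _ (K.inv_mem ha)
    rw [commutatorElement_def] at this
    simpa [mul_assoc] using this
  · rintro _ ⟨a, ha, rfl⟩
    rw [SetLike.mem_coe, Subgroup.mem_subgroupOf] at ha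
    obtain ⟨n, hn⟩ := h.two _ ha
    refine ⟨n, ?_⟩
    rw [← map_pow]
    have : a ^ 2 ^ n = 1 := Subtype.ext (by simpa using hn)
    rw [this, map_one]
  · intro x
    obtain ⟨x, rfl⟩ := QuotientGroup.mk'_surjective _ x
    obtain ⟨m, hm, hxm⟩ := h.odd x x.2
    refine ⟨m, hm, ?_⟩
    rw [← map_pow]
    exact ⟨x ^ m, by rw [SetLike.mem_coe, Subgroup.mem_subgroupOf]; simpa using hxm, rfl⟩
  · rw [eq_top_iff]
    intro x _
    obtain ⟨⟨x, hxX⟩, rfl⟩ := QuotientGroup.mk'_surjective _ x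
    have hle : O2 X ≤ ((Subgroup.closure {g : X ⧸ D.subgroupOf X | Odd (orderOf g)}).comap
        (QuotientGroup.mk' (D.subgroupOf X))).map X.subtype := by
      unfold O2
      rw [Subgroup.closure_le]
      rintro y ⟨hyX, hy⟩
      refine ⟨⟨y, hyX⟩, ?_, rfl⟩
      apply Subgroup.subset_closure
      have h1 : orderOf (QuotientGroup.mk' (D.subgroupOf X) ⟨y, hyX⟩) ∣ orderOf y := by
        apply orderOf_dvd_of_pow_eq_one
        rw [← map_pow]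
        have : (⟨y, hyX⟩ : X) ^ orderOf y = 1 := Subtype.ext (by simp [pow_orderOf_eq_one])
        rw [this, map_one]
      exact Odd.of_dvd_nat hy h1
    obtain ⟨⟨y, hyX⟩, hy, hyx⟩ := hle (h.gen hxX)
    have : (⟨x, hxX⟩ : X) = ⟨y, hyX⟩ := Subtype.ext hyx.symm
    rw [this]; exact hy
  · exact ⟨⟨k, h.KX hk⟩, by rw [SetLike.mem_coe, Subgroup.mem_subgroupOf]; exact hk, rfl⟩
  · intro x
    obtain ⟨x, rfl⟩ := QuotientGroup.mk'_surjective _ x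
    rw [← map_mul, ← map_mul]
    apply QuotientGroup.eq.mpr
    rw [Subgroup.mem_subgroupOf]
    have := hx (x⁻¹ : X) (x⁻¹ : X).2
    have h2 := D.inv_mem (Dn _ (X.inv_mem (h.KX hk)) _ this)
    rw [commutatorElement_def] at h2
    simpa [mul_assoc] using h2


lemma Pre.fixPred [Finite G] {X K : Subgroup G} (h : Pre X K) (Φ : G → Prop) (Φ1 : Φ 1)
    (Φm : ∀ a ∈ K, ∀ b ∈ K, Φ a → Φ b → Φ (a * b)) (Φi : ∀ a ∈ K, Φ a → Φ a⁻¹)
    (Φc : ∀ a ∈ K, ∀ b ∈ K, Φ ⁅a, b⁆) {k : G} (hk : k ∈ K)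
    (hx : ∀ g ∈ X, ∀ x ∈ X, Φ (g * ⁅k, x⁆ * g⁻¹)) : Φ k := by
  have hkx : ∀ x ∈ X, ⁅k, x⁆ ∈ K := by
    intro x hx
    have : ⁅k, x⁆ = k * (x * k⁻¹ * x⁻¹) := by rw [commutatorElement_def]; group
    rw [this]
    exact K.mul_mem hk (h.nor x hx _ (K.inv_mem hk))
  have key := h.fix
    { carrier := {d | d ∈ K ∧ ∀ g ∈ X, Φ (g * d * g⁻¹)}
      one_mem' := ⟨K.one_mem, fun g _ => by simpa using Φ1⟩
      mul_mem' := by
        rintro a b ⟨ha, ha'⟩ ⟨hb, hb'⟩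
        refine ⟨K.mul_mem ha hb, fun g hg => ?_⟩
        have : g * (a * b) * g⁻¹ = (g * a * g⁻¹) * (g * b * g⁻¹) := by group
        rw [this]
        exact Φm _ (h.nor g hg a ha) _ (h.nor g hg b hb) (ha' g hg) (hb' g hg)
      inv_mem' := by
        rintro a ⟨ha, ha'⟩
        refine ⟨K.inv_mem ha, fun g hg => ?_⟩
        have : g * a⁻¹ * g⁻¹ = (g * a * g⁻¹)⁻¹ := by group
        rw [this]
        exact Φi _ (h.nor g hg a ha) (ha' g hg) } ?_ ?_ ?_ hk ?_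
  · have := key.2 1 X.one_mem
    simpa using this
  · rintro d ⟨hd, _⟩; exact hd
  · rintro x hxX d ⟨hd, hd'⟩
    refine ⟨h.nor x hxX d hd, fun g hg => ?_⟩
    have : g * (x * d * x⁻¹) * g⁻¹ = (g * x) * d * (g * x)⁻¹ := by group
    rw [this]
    exact hd' _ (X.mul_mem hg hxX)
  · intro a ha b hb
    refine ⟨K.mul_mem (K.mul_mem (K.mul_mem ha hb) (K.inv_mem ha)) (K.inv_mem hb),
      fun g hg => ?_⟩
    have : g * ⁅a, b⁆ * g⁻¹ = ⁅g * a * g⁻¹, g * b * g⁻¹⁆ := by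
      simp only [commutatorElement_def]; group
    rw [this]
    exact Φc _ (h.nor g hg a ha) _ (h.nor g hg b hb)
  · intro x hxX
    exact ⟨hkx x hxX, fun g hg => hx g hg x hxX⟩

structure Cen (X K : Subgroup G) : Prop where
  KX : K ≤ X
  nor : ∀ x ∈ X, ∀ k ∈ K, x * k * x⁻¹ ∈ K
  c1 : ∀ a ∈ K, ∀ b ∈ K, ∀ x ∈ X, Commute ⁅a, b⁆ x

lemma comm_mul_left (a b c : G) : ⁅a * b, c⁆ = a * ⁅b, c⁆ * a⁻¹ * ⁅a, c⁆ := by
  simp only [commutatorElement_def]; group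

lemma comm_mul_right (a b c : G) : ⁅a, b * c⁆ = ⁅a, b⁆ * (b * ⁅a, c⁆ * b⁻¹) := by
  simp only [commutatorElement_def]; group

lemma conj_comm (g a b : G) : g * ⁅a, b⁆ * g⁻¹ = ⁅g * a * g⁻¹, g * b * g⁻¹⁆ := by
  simp only [commutatorElement_def]; group

namespace Cen
variable {X K : Subgroup G} (h : Cen X K)
include h

lemma mul_left {a b c : G} (ha : a ∈ K) (hb : b ∈ K) (hc : c ∈ K) :
    ⁅a * b, c⁆ = ⁅a, c⁆ * ⁅b, c⁆ := by
  rw [comm_mul_left, ← (h.c1 b hb c hc a (h.KX ha)).eq, mul_inv_cancel_right]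
  exact (h.c1 b hb c hc _ (h.KX (K.mul_mem (K.mul_mem (K.mul_mem ha hc) (K.inv_mem ha))
    (K.inv_mem hc)))).eq

lemma mul_right {a b c : G} (ha : a ∈ K) (hb : b ∈ K) (hc : c ∈ K) :
    ⁅a, b * c⁆ = ⁅a, b⁆ * ⁅a, c⁆ := by
  rw [comm_mul_right, ← (h.c1 a ha c hc b (h.KX hb)).eq, mul_inv_cancel_right]

lemma inv_left {a c : G} (ha : a ∈ K) (hc : c ∈ K) : ⁅a⁻¹, c⁆ = ⁅a, c⁆⁻¹ := by
  rw [eq_inv_iff_mul_eq_one, ← h.mul_left (K.inv_mem ha) ha hc, inv_mul_cancel]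
  simp [commutatorElement_def]

lemma inv_right {a c : G} (ha : a ∈ K) (hc : c ∈ K) : ⁅a, c⁻¹⁆ = ⁅a, c⁆⁻¹ := by
  rw [eq_inv_iff_mul_eq_one, ← h.mul_right ha (K.inv_mem hc) hc, inv_mul_cancel]
  simp [commutatorElement_def]

lemma comm_mem {a x : G} (ha : a ∈ K) (hx : x ∈ X) : ⁅a, x⁆ ∈ K := by
  have : ⁅a, x⁆ = a * (x * a⁻¹ * x⁻¹) := by rw [commutatorElement_def]; group
  rw [this]
  exact K.mul_mem ha (h.nor x hx _ (K.inv_mem ha))

lemma comm_mem' {a x : G} (ha : a ∈ K) (hx : x ∈ X) : ⁅x, a⁆ ∈ K := by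
  rw [commutatorElement_def]
  exact K.mul_mem (h.nor x hx _ ha) (K.inv_mem ha)

lemma adj {a b x : G} (ha : a ∈ K) (hb : b ∈ K) (hx : x ∈ X) :
    ⁅⁅a, x⁆, x * b * x⁻¹⁆ = ⁅a, ⁅x, b⁆⁆ := by
  have hb' := h.nor x hx b hb
  have ha' := h.nor x hx _ (K.inv_mem ha)
  have e1 : ⁅a, x⁆ = a * (x * a⁻¹ * x⁻¹) := by rw [commutatorElement_def]; group
  have e2 : ⁅x, b⁆ = (x * b * x⁻¹) * b⁻¹ := by rw [commutatorElement_def]
  rw [e1, e2, h.mul_left ha ha' hb', h.mul_right ha hb' (K.inv_mem hb), ← conj_comm,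
    h.inv_left ha hb, h.inv_right ha hb]
  congr 1
  rw [← ((h.c1 a ha b hb x hx).inv_left).eq, mul_inv_cancel_right]

lemma cs_adj {K' : Subgroup G} {a x : G} (ha : a ∈ K) (hx : x ∈ X)
    (hK' : ∀ b ∈ K, ⁅x, b⁆ ∈ K') : cs K ⁅a, x⁆ ⊆ cs K' a := by
  rintro _ ⟨t, ht, rfl⟩
  have hb : x⁻¹ * t * x ∈ K := by
    have := h.nor x⁻¹ (X.inv_mem hx) t ht
    simpa using this
  refine ⟨⁅x, x⁻¹ * t * x⁆, hK' _ hb, ?_⟩
  have := h.adj ha hb hx
  have e : x * (x⁻¹ * t * x) * x⁻¹ = t := by group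
  rw [e] at this
  exact this.symm

lemma cs_conj {a x : G} (ha : a ∈ K) (hx : x ∈ X) : cs K (x * a * x⁻¹) = cs K a := by
  ext u
  constructor
  · rintro ⟨t, ht, rfl⟩
    have hb : x⁻¹ * t * x ∈ K := by
      have := h.nor x⁻¹ (X.inv_mem hx) t ht
      simpa using this
    refine ⟨x⁻¹ * t * x, hb, ?_⟩
    have e := conj_comm x a (x⁻¹ * t * x)
    rw [← (h.c1 a ha _ hb x hx).eq, mul_inv_cancel_right] at e
    dsimp only
    rw [e]; congr 1; group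
  · rintro ⟨t, ht, rfl⟩
    refine ⟨x * t * x⁻¹, h.nor x hx t ht, ?_⟩
    dsimp only
    rw [← conj_comm, ← (h.c1 a ha _ ht x hx).eq, mul_inv_cancel_right]

/-- the set of commutators as a subgroup -/
def csg {a : G} (ha : a ∈ K) : Subgroup G where
  carrier := cs K a
  one_mem' := ⟨1, K.one_mem, by simp [commutatorElement_def]⟩
  mul_mem' := by
    rintro _ _ ⟨t, ht, rfl⟩ ⟨u, hu, rfl⟩
    exact ⟨t * u, K.mul_mem ht hu, h.mul_right ha ht hu⟩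
  inv_mem' := by
    rintro _ ⟨t, ht, rfl⟩
    exact ⟨t⁻¹, K.inv_mem ht, h.inv_right ha ht⟩

end Cen

end Pool.Agent.Helper36.Fit
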