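import Mathlib
import Pool.Agent.Helper36.FitLin
import Pool.Agent.Helper36.FitGood

set_option autoImplicit false

namespace Pool.Agent.Helper36.Fit

open scoped commutatorElement IsMulCommutative

variable {G : Type} [Group G]

structure Good (N : ℕ) (X K : Subgroup G) : Prop extends Pre X K where
  c0 : ∀ a ∈ K, ∀ b ∈ K, ⁅a * a, b⁆ = 1
  c1 : ∀ a ∈ K, ∀ b ∈ K, ∀ x ∈ X, Commute ⁅a, b⁆ x
  c2 : ∀ z ∈ K, (∀ k ∈ K, ⁅z, k⁆ = 1) → ∀ x ∈ X, Commute z x
  ca : ∀ k ∈ K, (∃ t ∈ K, ⁅k, t⁆ ≠ 1) → N ≤ (cs K k).ncard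
  cb : K ≤ Subgroup.closure {k | k ∈ K ∧ (cs K k).ncard ≤ N}
  cc : ∀ k ∈ K, ∀ k' ∈ K, (cs K k).ncard ≤ N → (cs K k').ncard ≤ N → cs K k ≠ cs K k' →
    ⁅k, k'⁆ = 1

lemma Good.cen {N : ℕ} {X K : Subgroup G} (h : Good N X K) : Cen X K := ⟨h.KX, h.nor, h.c1⟩

lemma Good.zc [Finite G] {N : ℕ} {X K : Subgroup G} (h : Good N X K) {z : G} (hz : z ∈ K)
    (hc : ∀ k ∈ K, ⁅z, k⁆ = 1) : z ∈ ⁅K, K⁆ := by
  apply h.toPre.fix ⁅K, K⁆
  · rw [Subgroup.commutator_le]
    intro a ha b hb
    exact h.cen.comm_mem ha (h.KX hb)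
  · intro x hx d hd
    rw [Subgroup.commutator_def] at hd
    induction hd using Subgroup.closure_induction with
    | mem d hd =>
      obtain ⟨a, ha, b, hb, rfl⟩ := hd
      rw [conj_comm]
      exact Subgroup.commutator_mem_commutator (h.nor x hx a ha) (h.nor x hx b hb)
    | one => simp
    | mul a b _ _ ha hb =>
      have : x * (a * b) * x⁻¹ = (x * a * x⁻¹) * (x * b * x⁻¹) := by group
      rw [this]; exact Subgroup.mul_mem _ ha hb
    | inv a _ ha =>
      have : x * a⁻¹ * x⁻¹ = (x * a * x⁻¹)⁻¹ := by group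
      rw [this]; exact Subgroup.inv_mem _ ha
  · intro a ha b hb
    exact Subgroup.commutator_mem_commutator ha hb
  · exact hz
  · intro x hx
    have := h.c2 z hz hc x hx
    rw [commutatorElement_eq_one_iff_commute.mpr this]
    exact Subgroup.one_mem _

section bridge

variable (K : Subgroup G)

abbrev VV := Additive (Abelianization K)
abbrev WW := Additive (Subgroup.center K)

variable {K}

def iV (a : K) : VV K := Additive.ofMul (Abelianization.of a)
def cW (w : WW K) : G := ((w.toMul : K) : G)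

lemma iV_surj (v : VV K) : ∃ a, v = iV a := by
  obtain ⟨a, ha⟩ := QuotientGroup.mk_surjective (v.toMul)
  exact ⟨a, congrArg Additive.ofMul ha.symm⟩

lemma cW_inj : Function.Injective (cW (K := K)) := by
  intro a b h
  have h1 : (a.toMul : K) = (b.toMul : K) := Subtype.ext h
  have h2 : a.toMul = b.toMul := Subtype.ext h1
  exact h2

lemma cW_sub (a b : WW K) : cW (a - b) = cW a * (cW b)⁻¹ := by
  rw [sub_eq_add_neg]; rfl

lemma cW_add (a b : WW K) : cW (a + b) = cW a * cW b := rfl

lemma cW_zero : cW (0 : WW K) = 1 := rfl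

lemma iV_sub (a b : K) : iV a - iV b = iV (a * b⁻¹) := by
  rw [sub_eq_add_neg]; rfl

def Bm (hc : ∀ a b : K, ⁅a, b⁆ ∈ Subgroup.center K) :
    Abelianization K →* (Abelianization K →* Subgroup.center K) :=
  Abelianization.lift
    { toFun := fun a => Abelianization.lift
        { toFun := fun b => ⟨⁅a, b⁆, hc a b⟩
          map_one' := Subtype.ext (by simp [commutatorElement_def])
          map_mul' := fun b c => Subtype.ext (by
            change ⁅a, b * c⁆ = ⁅a, b⁆ * ⁅a, c⁆
            have := (Subgroup.mem_center_iff.mp (hc a c)) b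
            rw [comm_mul_right, this, mul_inv_cancel_right]) }
      map_one' := by
        ext b
        simp [commutatorElement_def]
      map_mul' := fun a b => by
        ext c
        change ((⁅a * b, c⁆ : K) : G) = ((⁅a, c⁆ * ⁅b, c⁆ : K) : G)
        congr 1
        have := (Subgroup.mem_center_iff.mp (hc b c)) a
        rw [comm_mul_left, this, mul_inv_cancel_right]
        exact ((Subgroup.mem_center_iff.mp (hc b c)) _).symm }

def be (hc : ∀ a b : K, ⁅a, b⁆ ∈ Subgroup.center K) : VV K →+ VV K →+ WW K where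
  toFun v := MonoidHom.toAdditive (Bm hc v.toMul)
  map_zero' := by
    refine AddMonoidHom.ext fun v => ?_
    change Additive.ofMul ((Bm hc 1) _) = 0
    rw [map_one]; rfl
  map_add' a b := by
    refine AddMonoidHom.ext fun v => ?_
    change Additive.ofMul ((Bm hc (a.toMul * b.toMul)) _) = _
    rw [map_mul]; rfl

lemma cW_be (hc : ∀ a b : K, ⁅a, b⁆ ∈ Subgroup.center K) (a b : K) :
    cW (be hc (iV a) (iV b)) = ⁅(a : G), (b : G)⁆ := rfl

variable [K.Normal]

def TV (g : G) : VV K →+ VV K :=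
  MonoidHom.toAdditive (Abelianization.map (MulAut.conjNormal g : MulAut K).toMonoidHom)

def TW (g : G) : WW K →+ WW K :=
  MonoidHom.toAdditive (Subgroup.centerCongr (MulAut.conjNormal g : MulAut K)).toMonoidHom

lemma TV_iV (g : G) (a : K) : TV g (iV a) = iV (MulAut.conjNormal g a) := rfl

lemma cW_TW (g : G) (w : WW K) : cW (TW g w) = g * cW w * g⁻¹ := rfl

lemma TV_mul (g h : G) (v : VV K) : TV (g * h) v = TV g (TV h v) := by
  obtain ⟨a, rfl⟩ := iV_surj v
  rw [TV_iV, TV_iV, TV_iV, map_mul]; rfl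

lemma TV_one (v : VV K) : TV 1 v = v := by
  obtain ⟨a, rfl⟩ := iV_surj v
  rw [TV_iV, map_one]; rfl

lemma TW_mul (g h : G) (v : WW K) : TW (g * h) v = TW g (TW h v) := by
  apply cW_inj
  rw [cW_TW, cW_TW, cW_TW]; group

lemma TW_one (v : WW K) : TW 1 v = v := by
  apply cW_inj
  rw [cW_TW]; group

lemma TV_iter (g : G) (j : ℕ) (v : VV K) : (TV g)^[j] v = TV (g ^ j) v := by
  induction j with
  | zero => simp [TV_one]
  | succ j ih => rw [Function.iterate_succ_apply', ih, pow_succ', TV_mul]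

lemma TW_iter (g : G) (j : ℕ) (v : WW K) : (TW g)^[j] v = TW (g ^ j) v := by
  induction j with
  | zero => simp [TW_one]
  | succ j ih => rw [Function.iterate_succ_apply', ih, pow_succ', TW_mul]

lemma TV_bij (g : G) : Function.Bijective (TV (K := K) g) := by
  constructor
  · intro a b hab
    have := congrArg (TV g⁻¹) hab
    rwa [← TV_mul, ← TV_mul, inv_mul_cancel, TV_one, TV_one] at this
  · intro a
    exact ⟨TV (K := K) g⁻¹ a, by rw [← TV_mul, mul_inv_cancel, TV_one]⟩

lemma TW_inj (g : G) : Function.Injective (TW (K := K) g) := by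
  intro a b hab
  have := congrArg (TW g⁻¹) hab
  rwa [← TW_mul, ← TW_mul, inv_mul_cancel, TW_one, TW_one] at this

lemma be_T (hc : ∀ a b : K, ⁅a, b⁆ ∈ Subgroup.center K) (g : G) (a b : VV K) :
    be hc (TV g a) (TV g b) = TW g (be hc a b) := by
  obtain ⟨a, rfl⟩ := iV_surj a
  obtain ⟨b, rfl⟩ := iV_surj b
  apply cW_inj
  rw [TV_iV, TV_iV, cW_be, cW_TW, cW_be, conj_comm, MulAut.conjNormal_apply,
    MulAut.conjNormal_apply]

end bridge


section lin

variable {N : ℕ} {X K : Subgroup G}

lemma hcen (h : Good N X K) (a b : K) : ⁅a, b⁆ ∈ Subgroup.center K := by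
  rw [Subgroup.mem_center_iff]
  intro g
  apply Subtype.ext
  exact ((h.c1 a a.2 b b.2 g (h.KX g.2)).symm).eq

lemma cs_eq (h : Good N X K) (a : K) : cW '' ((be (hcen h) (iV a)).range : Set (WW K)) = cs K a := by
  ext u
  constructor
  · rintro ⟨_, ⟨v, rfl⟩, rfl⟩
    obtain ⟨b, rfl⟩ := iV_surj v
    exact ⟨b, b.2, rfl⟩
  · rintro ⟨b, hb, rfl⟩
    exact ⟨_, ⟨iV ⟨b, hb⟩, rfl⟩, rfl⟩

lemma card_eq (h : Good N X K) (a : K) :
    Nat.card (be (hcen h) (iV a)).range = (cs K a).ncard := by
  rw [← cs_eq h, Set.ncard_image_of_injective _ cW_inj]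
  exact (Nat.card_coe_set_eq _)

lemma center_comm [Finite G] (h : Good N X K) (z : K) (hz : z ∈ Subgroup.center K) :
    z ∈ commutator K := by
  have h1 : (z : G) ∈ ⁅K, K⁆ := h.zc z.2 (fun k hk => by
    rw [commutatorElement_eq_one_iff_mul_comm]
    exact congrArg Subtype.val ((Subgroup.mem_center_iff.mp hz) ⟨k, hk⟩).symm)
  rw [← Subgroup.map_subtype_commutator] at h1
  obtain ⟨z', hz', he⟩ := h1
  have : z' = z := Subtype.ext he
  rwa [this] at hz'

lemma iV_zero_iff [Finite G] (h : Good N X K) (a : K) : iV a = 0 ↔ a ∈ Subgroup.center K := by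
  constructor
  · intro h0
    have h1 : Abelianization.of a = 1 := h0
    have h2 : a ∈ (Abelianization.of (G := K)).ker := h1
    rw [Abelianization.ker_of] at h2
    have : commutator K ≤ Subgroup.center K := by
      rw [commutator_def, Subgroup.commutator_le]
      intro a _ b _
      exact hcen h a b
    exact this h2
  · intro hz
    have h1 := center_comm h a hz
    rw [← Abelianization.ker_of] at h1
    exact h1

lemma c0' (h : Good N X K) (a : K) : a * a ∈ Subgroup.center K := by
  rw [Subgroup.mem_center_iff]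
  intro g
  apply Subtype.ext
  have := h.c0 a a.2 g g.2
  rw [commutatorElement_eq_one_iff_mul_comm] at this
  exact this.symm

lemma lin [Finite G] (h : Good N X K) : FitLin.Lin N (be (hcen h)) where
  alt := by
    intro a b
    obtain ⟨a, rfl⟩ := iV_surj a
    obtain ⟨b, rfl⟩ := iV_surj b
    apply cW_inj
    have : cW (- (be (hcen h) (iV b) (iV a))) = ⁅(b : G), (a : G)⁆⁻¹ := rfl
    rw [this, cW_be, commutatorElement_inv]
  V2 := by
    intro v
    obtain ⟨a, rfl⟩ := iV_surj v
    have : iV a + iV a = iV (a * a) := rfl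
    rw [this, iV_zero_iff h]
    exact c0' h a
  W2 := by
    intro w
    apply cW_inj
    rw [cW_add, cW_zero]
    have h1 := center_comm h _ (w.toMul).2
    rw [commutator_eq_closure] at h1
    have key : ∀ x : K, x ∈ Subgroup.closure (commutatorSet K) →
        (x : G) * x = 1 ∧ x ∈ Subgroup.center K := by
      intro x hx
      induction hx using Subgroup.closure_induction with
      | mem x hx =>
        obtain ⟨a, b, rfl⟩ := hx
        refine ⟨?_, hcen h a b⟩
        change ⁅(a : G), (b : G)⁆ * ⁅(a : G), (b : G)⁆ = 1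
        rw [← h.cen.mul_left a.2 a.2 b.2]
        exact h.c0 a a.2 b b.2
      | one => exact ⟨by simp, Subgroup.one_mem _⟩
      | mul x y _ _ hx hy =>
        refine ⟨?_, Subgroup.mul_mem _ hx.2 hy.2⟩
        have hc : (y : G) * x = x * y :=
          congrArg Subtype.val ((Subgroup.mem_center_iff.mp hx.2) y)
        have : ((x * y : K) : G) * ((x * y : K) : G) = ((x : G) * x) * ((y : G) * y) := by
          change (x : G) * y * ((x : G) * y) = _
          rw [mul_assoc, ← mul_assoc (y : G), hc]; group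
        rw [this, hx.1, hy.1, one_mul]
      | inv x _ hx =>
        refine ⟨?_, Subgroup.inv_mem _ hx.2⟩
        change (x : G)⁻¹ * (x : G)⁻¹ = 1
        rw [← mul_inv_rev, hx.1, inv_one]
    exact (key _ h1).1
  ca := by
    intro v hv
    obtain ⟨a, rfl⟩ := iV_surj v
    rw [card_eq h]
    apply h.ca a a.2
    by_contra hcon
    push Not at hcon
    apply hv
    rw [iV_zero_iff h, Subgroup.mem_center_iff]
    intro g
    apply Subtype.ext
    have := hcon g g.2
    rw [commutatorElement_eq_one_iff_mul_comm] at this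
    exact this.symm
  cb := by
    rw [eq_top_iff]
    intro v _
    obtain ⟨a, rfl⟩ := iV_surj v
    set C := AddSubgroup.closure {v | Nat.card (be (hcen h) v).range ≤ N} with hC
    have hle : Subgroup.closure {k | k ∈ K ∧ (cs K k).ncard ≤ N} ≤
        ((AddSubgroup.toSubgroup' C).comap Abelianization.of).map K.subtype := by
      rw [Subgroup.closure_le]
      rintro y ⟨hyK, hy⟩
      refine ⟨⟨y, hyK⟩, ?_, rfl⟩
      change iV ⟨y, hyK⟩ ∈ C
      apply AddSubgroup.subset_closure
      rw [Set.mem_ofPred_eq, card_eq h]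
      exact hy
    obtain ⟨b, hb, hbe⟩ := hle (h.cb a.2)
    have : b = a := Subtype.ext hbe
    rw [this] at hb
    exact hb
  cc := by
    intro v v' hv hv' hne
    obtain ⟨a, rfl⟩ := iV_surj v
    obtain ⟨b, rfl⟩ := iV_surj v'
    rw [card_eq h] at hv hv'
    apply cW_inj
    rw [cW_be, cW_zero]
    apply h.cc a a.2 b b.2 hv hv'
    intro heq
    apply hne
    rw [← cs_eq h, ← cs_eq h] at heq
    exact SetLike.coe_injective (Set.image_injective.mpr cW_inj heq)

end lin

theorem cent1 [Finite G] {N : ℕ} {X1 K1 X2 K2 : Subgroup G} [hK1 : K1.Normal] [hX2 : X2.Normal]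
    (h1 : Good N X1 K1) (h2 : Good N X2 K2) (h12 : ∀ k ∈ K1, k ∈ X2 → k ∈ K2)
    {z : G} (hz : z ∈ K1) (hzc : ∀ k ∈ K1, ⁅z, k⁆ = 1) : ∀ x ∈ X2, Commute z x := by
  -- commutators with X2 lie in K2
  have hr : ∀ a ∈ K1, ∀ y ∈ X2, ⁅y, a⁆ ∈ K2 := by
    intro a ha y hy
    apply h12
    · rw [commutatorElement_def]
      exact K1.mul_mem (hK1.conj_mem a ha y) (K1.inv_mem ha)
    · have : ⁅y, a⁆ = y * (a * y⁻¹ * a⁻¹) := by rw [commutatorElement_def]; group
      rw [this]
      exact X2.mul_mem hy (hX2.conj_mem _ (X2.inv_mem hy) a)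
  have main : ∀ y ∈ X2, Odd (orderOf y) → ∀ a b : VV K1,
      TW y (be (hcen h1) a b) = be (hcen h1) a b := by
    intro y hy hodd
    have cfix : ∀ u ∈ K2, ∀ u' ∈ K2, ∀ x ∈ X2, x * ⁅u, u'⁆ * x⁻¹ = ⁅u, u'⁆ := by
      intro u hu u' hu' x hx
      rw [← (h2.c1 u hu u' hu' x hx).eq, mul_inv_cancel_right]
    have eV : ∀ a : K1, TV y (iV a) - iV a = iV (MulAut.conjNormal y a * a⁻¹) := by
      intro a; rw [TV_iV, iV_sub]
    have cr : ∀ a : K1, ((MulAut.conjNormal y a * a⁻¹ : K1) : G) = ⁅y, (a : G)⁆ := by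
      intro a; rfl
    have rK2 : ∀ a : K1, ((MulAut.conjNormal y a * a⁻¹ : K1) : G) ∈ K2 := by
      intro a; rw [cr]; exact hr a a.2 y hy
    have gK2 : ∀ (t : K2) (r : K1), (r : G) ∈ K2 →
        TV (t : G) (iV r) - iV r = iV (MulAut.conjNormal (t : G) r * r⁻¹) := by
      intro t r _; rw [TV_iV, iV_sub]
    refine FitLin.step1' (lin h1) (TV y) (TW y) (be_T _ y) hodd ?_ ?_ (TV_bij y).2 (TW_inj y)
      (fun t : K2 => TV (t : G)) (fun t : K2 => TW (t : G)) (fun t => be_T _ _)
      (fun t => TV_bij _) (fun t => TW_inj _) ?_ ?_ ?_ ?_ ?_ ?_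
    · intro v; rw [TV_iter, pow_orderOf_eq_one, TV_one]
    · intro v; rw [TW_iter, pow_orderOf_eq_one, TW_one]
    · intro a b
      obtain ⟨a, rfl⟩ := iV_surj a
      obtain ⟨b, rfl⟩ := iV_surj b
      rw [eV, eV]
      apply cW_inj
      rw [cW_TW, cW_be]
      exact cfix _ (rK2 a) _ (rK2 b) y hy
    · intro t a b
      obtain ⟨a, rfl⟩ := iV_surj a
      obtain ⟨b, rfl⟩ := iV_surj b
      rw [eV, eV]
      apply cW_inj
      rw [cW_TW, cW_be]
      exact cfix _ (rK2 a) _ (rK2 b) t (h2.KX t.2)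
    · intro t a
      obtain ⟨a, rfl⟩ := iV_surj a
      rw [eV, gK2 t _ (rK2 a), TV_iV]
      congr 1
      apply Subtype.ext
      rw [MulAut.conjNormal_apply]
      exact cfix _ t.2 _ (rK2 a) y hy
    · intro t a b
      obtain ⟨a, rfl⟩ := iV_surj a
      obtain ⟨b, rfl⟩ := iV_surj b
      rw [eV, eV, gK2 t _ (rK2 a)]
      apply cW_inj
      rw [cW_be, cW_zero, commutatorElement_eq_one_iff_commute]
      exact h2.c1 _ t.2 _ (rK2 a) _ (h2.KX (rK2 b))
    · intro t w
      apply cW_inj
      have e : ∀ w : WW K1, cW (TW y w - w) = ⁅y, cW w⁆ := by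
        intro w; rw [cW_sub, cW_TW, commutatorElement_def]
      have e' : ∀ w : WW K1, cW (TW (t : G) w - w) = ⁅(t : G), cW w⁆ := by
        intro w; rw [cW_sub, cW_TW, commutatorElement_def]
      rw [cW_TW, e', e]
      exact cfix _ t.2 _ (hr _ (w.toMul : K1).2 y hy) y hy
    · intro w hw
      apply cW_inj
      have e : cW (TW y w - w) = ⁅y, cW w⁆ := by
        rw [cW_sub, cW_TW, commutatorElement_def]
      have hK : cW (TW y w - w) ∈ K2 := by rw [e]; exact hr _ (w.toMul : K1).2 y hy
      have := h2.c2 _ hK (fun t ht => by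
        have := congrArg cW (hw ⟨t, ht⟩)
        rw [cW_TW] at this
        rw [commutatorElement_eq_one_iff_mul_comm]
        exact (mul_inv_eq_iff_eq_mul.mp this).symm) y hy
      rw [cW_TW, ← this.eq, mul_inv_cancel_right]
  have main2 : ∀ y ∈ X2, Odd (orderOf y) → Commute z y := by
    intro y hy hodd
    have hz' : (⟨z, hz⟩ : K1) ∈ Subgroup.center K1 := by
      rw [Subgroup.mem_center_iff]
      intro g
      apply Subtype.ext
      have := hzc g g.2
      rw [commutatorElement_eq_one_iff_mul_comm] at this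
      exact this.symm
    have hz2 := center_comm h1 _ hz'
    rw [commutator_eq_closure] at hz2
    have key : ∀ x : K1, x ∈ Subgroup.closure (commutatorSet K1) → Commute (x : G) y := by
      intro x hx
      induction hx using Subgroup.closure_induction with
      | mem x hx =>
        obtain ⟨a, b, rfl⟩ := hx
        have := congrArg cW (main y hy hodd (iV a) (iV b))
        rw [cW_TW, cW_be] at this
        have h3 : y * ⁅(a : G), (b : G)⁆ = ⁅(a : G), (b : G)⁆ * y := by
          rw [← mul_inv_eq_iff_eq_mul]; exact this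
        exact h3.symm
      | one => exact Commute.one_left _
      | mul x x' _ _ hx hx' => exact Commute.mul_left hx hx'
      | inv x _ hx => exact Commute.inv_left hx
    exact key _ hz2
  intro x hx
  have hle : O2 X2 ≤ Subgroup.centralizer {z} := by
    unfold O2
    rw [Subgroup.closure_le]
    rintro y ⟨hy, ho⟩
    exact Subgroup.mem_centralizer_singleton_iff.mpr (main2 y hy ho).symm.eq
  exact (Subgroup.mem_centralizer_singleton_iff.mp (hle (h2.gen hx))).symm

end Pool.Agent.Helper36.Fit
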