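import Mathlib
import Pool.Agent.Helper36.FitBridge

set_option autoImplicit false
set_option linter.unusedSectionVars false

namespace Pool.Agent.Helper36.Fit

open scoped commutatorElement

variable {G : Type} [Group G]

lemma O2_mono {A B : Subgroup G} (h : A ≤ B) : O2 A ≤ O2 B :=
  Subgroup.closure_mono (fun _ hg => ⟨h hg.1, hg.2⟩)

lemma cs_of_central {K : Subgroup G} {k : G} (h : ∀ t ∈ K, ⁅k, t⁆ = 1) : cs K k = {1} := by
  ext u
  constructor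
  · rintro ⟨t, ht, rfl⟩; exact h t ht
  · intro hu
    rw [Set.mem_singleton_iff] at hu
    rw [hu]
    exact ⟨1, K.one_mem, h 1 K.one_mem⟩

lemma Good.orth [Finite G] {N : ℕ} {X K : Subgroup G} (h : Good N X K) {r s : G} (hr : r ∈ K)
    (hs : s ∈ K) {U U' : Set G} (hU : cs K r ⊆ U) (hU' : cs K s ⊆ U') (cU : U.ncard ≤ N)
    (cU' : U'.ncard ≤ N) (hne : U ≠ U') : ⁅r, s⁆ = 1 := by
  by_cases h1 : ∃ t ∈ K, ⁅r, t⁆ ≠ 1
  · by_cases h2 : ∃ t ∈ K, ⁅s, t⁆ ≠ 1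
    · have e1 := h.ca r hr h1
      have e2 := h.ca s hs h2
      have f1 : cs K r = U := Set.eq_of_subset_of_ncard_le hU (cU.trans e1)
      have f2 : cs K s = U' := Set.eq_of_subset_of_ncard_le hU' (cU'.trans e2)
      exact h.cc r hr s hs (by rw [f1]; exact cU) (by rw [f2]; exact cU') (by rw [f1, f2]; exact hne)
    · push Not at h2
      rw [← commutatorElement_inv, h2 r hr, inv_one]
  · push Not at h1
    exact h1 s hs

/-- normal subgroups -/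
theorem Good.normal [Finite G] {N : ℕ} (hN : 1 ≤ N) {X K XM : Subgroup G} (h : Good N X K)
    (hXM : XM ≤ X) (hn : ∀ x ∈ X, ∀ y ∈ XM, x * y * x⁻¹ ∈ XM) (hgen : XM ≤ O2 XM) :
    Good N XM (K ⊓ XM) := by
  have hpre : Pre XM (K ⊓ XM) :=
    { KX := inf_le_right
      nor := fun x hx k hk => ⟨h.nor x (hXM hx) k hk.1, hn x (hXM hx) k hk.2⟩
      two := fun k hk => h.two k hk.1
      odd := fun x hx => by
        obtain ⟨m, hm, hxm⟩ := h.odd x (hXM hx)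
        exact ⟨m, hm, hxm, XM.pow_mem hx m⟩
      gen := hgen }
  have hcen : Cen XM (K ⊓ XM) :=
    ⟨hpre.KX, hpre.nor, fun a ha b hb x hx => h.c1 a ha.1 b hb.1 x (hXM hx)⟩
  have hcX := h.cen
  have hxb : ∀ x ∈ XM, ∀ b ∈ K, ⁅x, b⁆ ∈ K ⊓ XM := by
    intro x hx b hb
    refine ⟨hcX.comm_mem' hb (hXM hx), ?_⟩
    have : ⁅x, b⁆ = x * (b * x⁻¹ * b⁻¹) := by rw [commutatorElement_def]; group
    rw [this]
    exact XM.mul_mem hx (hn b (h.KX hb) _ (XM.inv_mem hx))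
  have hbx : ∀ x ∈ XM, ∀ b ∈ K, ⁅b, x⁆ ∈ K ⊓ XM := by
    intro x hx b hb
    rw [← commutatorElement_inv]
    exact Subgroup.inv_mem _ (hxb x hx b hb)
  have hcs : ∀ a ∈ K, ∀ x ∈ XM, cs K ⁅a, x⁆ ⊆ cs (K ⊓ XM) a := fun a ha x hx =>
    hcX.cs_adj ha (hXM hx) (hxb x hx)
  have hcs' : ∀ a, cs (K ⊓ XM) a ⊆ cs K a := by
    rintro a _ ⟨t, ht, rfl⟩; exact ⟨t, ht.1, rfl⟩
  -- central elements
  have hcentral : ∀ z ∈ K ⊓ XM, (∀ x ∈ XM, ∀ t ∈ K, ⁅⁅z, x⁆, t⁆ = 1) → ∀ t ∈ K, ⁅z, t⁆ = 1 := by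
    intro z hz hzx
    apply hpre.fixPred (fun d => ∀ t ∈ K, ⁅d, t⁆ = 1) (k := z)
    · intro t _; simp [commutatorElement_def]
    · intro a ha b hb h1 h2 t ht
      rw [hcX.mul_left ha.1 hb.1 ht, h1 t ht, h2 t ht, one_mul]
    · intro a ha h1 t ht
      rw [hcX.inv_left ha.1 ht, h1 t ht, inv_one]
    · intro a ha b hb t ht
      rw [commutatorElement_eq_one_iff_commute]
      exact h.c1 a ha.1 b hb.1 t (h.KX ht)
    · exact hz
    · intro g hg x hx t ht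
      have e := hcX.cs_conj (hcX.comm_mem hz.1 (hXM hx)) (hXM hg)
      rw [cs_of_central (hzx x hx)] at e
      have : ⁅g * ⁅z, x⁆ * g⁻¹, t⁆ ∈ cs K (g * ⁅z, x⁆ * g⁻¹) := ⟨t, ht, rfl⟩
      rw [e] at this
      exact this
  refine { toPre := hpre, c0 := ?_, c1 := hcen.c1, c2 := ?_, ca := ?_, cb := ?_, cc := ?_ }
  · intro a ha b hb; exact h.c0 a ha.1 b hb.1
  · intro z hz hzk x hx
    apply h.c2 z hz.1 _ x (hXM hx)
    apply hcentral z hz
    intro x hx t ht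
    have : ⁅⁅z, x⁆, t⁆ ∈ cs (K ⊓ XM) z := hcs z hz.1 x hx ⟨t, ht, rfl⟩
    rw [cs_of_central hzk] at this
    exact this
  · intro k hk hkt
    have : ∃ x ∈ XM, ∃ t ∈ K, ⁅⁅k, x⁆, t⁆ ≠ 1 := by
      by_contra hcon
      push Not at hcon
      obtain ⟨t, ht, hne⟩ := hkt
      exact hne (hcentral k hk hcon t ht.1)
    obtain ⟨x, hx, hxt⟩ := this
    exact (h.ca _ (hcX.comm_mem hk.1 (hXM hx)) hxt).trans
      (Set.ncard_le_ncard (hcs k hk.1 x hx) (Set.toFinite _))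
  · intro k hk
    set S := {k | k ∈ K ⊓ XM ∧ (cs (K ⊓ XM) k).ncard ≤ N} with hS
    have hSle : Subgroup.closure S ≤ K ⊓ XM := by
      rw [Subgroup.closure_le]; exact fun y hy => hy.1
    have hcm : ∀ a ∈ K, ∀ d ∈ K ⊓ XM, ⁅a, d⁆ ∈ Subgroup.closure S := by
      intro a ha d hd
      apply Subgroup.subset_closure
      refine ⟨hbx d hd.2 a ha, ?_⟩
      rw [cs_of_central, Set.ncard_singleton]
      · exact hN
      · intro t ht
        rw [commutatorElement_eq_one_iff_commute]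
        exact h.c1 a ha d hd.1 t (h.KX ht.1)
    have hnorm : ∀ a ∈ K, ∀ d ∈ Subgroup.closure S, a * d * a⁻¹ ∈ Subgroup.closure S := by
      intro a ha d hd
      have : a * d * a⁻¹ = ⁅a, d⁆ * d := by rw [commutatorElement_def]; group
      rw [this]
      exact Subgroup.mul_mem _ (hcm a ha d (hSle hd)) hd
    have hSK : Subgroup.closure {k | k ∈ K ∧ (cs K k).ncard ≤ N} ≤ K := by
      rw [Subgroup.closure_le]; exact fun y hy => hy.1
    have key : ∀ a ∈ Subgroup.closure {k | k ∈ K ∧ (cs K k).ncard ≤ N}, ∀ x ∈ XM,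
        ⁅a, x⁆ ∈ Subgroup.closure S := by
      intro a ha
      induction ha using Subgroup.closure_induction with
      | mem a ha =>
        intro x hx
        apply Subgroup.subset_closure
        refine ⟨hbx x hx a ha.1, ?_⟩
        refine (Set.ncard_le_ncard ?_ (Set.toFinite _)).trans ha.2
        exact (hcs' _).trans ((hcs a ha.1 x hx).trans (hcs' _))
      | one => intro x _; simp [commutatorElement_def]
      | mul a b ha hb ha' hb' =>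
        intro x hx
        rw [comm_mul_left]
        exact Subgroup.mul_mem _ (hnorm a (hSK ha) _ (hb' x hx)) (ha' x hx)
      | inv a ha ha' =>
        intro x hx
        have : ⁅a⁻¹, x⁆ = a⁻¹ * ⁅a, x⁆⁻¹ * a⁻¹⁻¹ := by simp only [commutatorElement_def]; group
        rw [this]
        exact hnorm a⁻¹ (K.inv_mem (hSK ha)) _ (Subgroup.inv_mem _ (ha' x hx))
    apply hpre.fix (Subgroup.closure S) hSle _ _ hk (fun x hx => key k (h.cb hk.1) x hx)
    · intro x hx d hd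
      induction hd using Subgroup.closure_induction with
      | mem d hd =>
        apply Subgroup.subset_closure
        refine ⟨hpre.nor x hx d hd.1, ?_⟩
        rw [hcen.cs_conj hd.1 hx]; exact hd.2
      | one => simp
      | mul a b _ _ ha hb =>
        have : x * (a * b) * x⁻¹ = (x * a * x⁻¹) * (x * b * x⁻¹) := by group
        rw [this]; exact Subgroup.mul_mem _ ha hb
      | inv a _ ha =>
        have : x * a⁻¹ * x⁻¹ = (x * a * x⁻¹)⁻¹ := by group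
        rw [this]; exact Subgroup.inv_mem _ ha
    · intro a ha b hb
      exact hcm a ha.1 b hb
  · intro k hk k' hk' ck ck' hne
    have A : ∀ k1 ∈ K ⊓ XM, ∀ k2 ∈ K ⊓ XM, cs (K ⊓ XM) k1 = cs (K ⊓ XM) k →
        cs (K ⊓ XM) k2 = cs (K ⊓ XM) k' → ∀ x ∈ XM, ∀ x' ∈ XM, ⁅⁅k1, x⁆, ⁅k2, x'⁆⁆ = 1 := by
      intro k1 hk1 k2 hk2 e1 e2 x hx x' hx'
      refine h.orth (hcX.comm_mem hk1.1 (hXM hx)) (hcX.comm_mem hk2.1 (hXM hx'))
        (hcs k1 hk1.1 x hx) (hcs k2 hk2.1 x' hx') ?_ ?_ ?_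
      · rw [e1]; exact ck
      · rw [e2]; exact ck'
      · rw [e1, e2]; exact hne
    have B : ∀ k1 ∈ K ⊓ XM, cs (K ⊓ XM) k1 = cs (K ⊓ XM) k → ∀ x ∈ XM, ⁅⁅k1, x⁆, k'⁆ = 1 := by
      intro k1 hk1 e1 x hx
      have hr := hbx x hx k1 hk1.1
      apply hpre.fixPred (fun d => ⁅⁅k1, x⁆, d⁆ = 1) (k := k')
      · simp [commutatorElement_def]
      · intro a ha b hb h1 h2
        rw [hcen.mul_right hr ha hb, h1, h2, one_mul]
      · intro a ha h1
        rw [hcen.inv_right hr ha, h1, inv_one]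
      · intro a ha b hb
        rw [commutatorElement_eq_one_iff_commute]
        exact (hcen.c1 a ha b hb _ (hpre.KX hr)).symm
      · exact hk'
      · intro g hg y hy
        rw [conj_comm]
        exact A k1 hk1 _ (hpre.nor g hg k' hk') e1 (hcen.cs_conj hk' hg) x hx _
          (XM.mul_mem (XM.mul_mem hg hy) (XM.inv_mem hg))
    apply hpre.fixPred (fun d => ⁅d, k'⁆ = 1) (k := k)
    · simp [commutatorElement_def]
    · intro a ha b hb h1 h2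
      rw [hcen.mul_left ha hb hk', h1, h2, one_mul]
    · intro a ha h1
      rw [hcen.inv_left ha hk', h1, inv_one]
    · intro a ha b hb
      rw [commutatorElement_eq_one_iff_commute]
      exact (hcen.c1 a ha b hb _ (hpre.KX hk'))
    · exact hk
    · intro g hg y hy
      rw [conj_comm]
      exact B _ (hpre.nor g hg k hk) (hcen.cs_conj hk hg) _
        (XM.mul_mem (XM.mul_mem hg hy) (XM.inv_mem hg))


lemma Pre.fixPred2 [Finite G] {X K X1 X2 : Subgroup G} (h : Pre X K)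
    (hX : ∀ x ∈ X, ∃ x1 ∈ X1, ∃ x2 ∈ X2, x1 * x2 = x) (h1 : X1 ≤ X)
    (Φ : G → Prop) (Φ1 : Φ 1)
    (Φm : ∀ a ∈ K, ∀ b ∈ K, Φ a → Φ b → Φ (a * b)) (Φi : ∀ a ∈ K, Φ a → Φ a⁻¹)
    (Φc : ∀ a ∈ K, ∀ b ∈ K, Φ ⁅a, b⁆) {k : G} (hk : k ∈ K)
    (hx : ∀ g ∈ X, ∀ x, (x ∈ X1 ∨ x ∈ X2) → Φ (g * ⁅k, x⁆ * g⁻¹)) : Φ k := by
  have hkx : ∀ k ∈ K, ∀ x ∈ X, ⁅k, x⁆ ∈ K := by
    intro k hk x hx
    have : ⁅k, x⁆ = k * (x * k⁻¹ * x⁻¹) := by rw [commutatorElement_def]; group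
    rw [this]
    exact K.mul_mem hk (h.nor x hx _ (K.inv_mem hk))
  apply h.fixPred Φ Φ1 Φm Φi Φc hk
  intro g hg x hxX
  obtain ⟨x1, hx1, x2, hx2, rfl⟩ := hX x hxX
  have hx2' : x2 ∈ X := by
    have := X.mul_mem (X.inv_mem (h1 hx1)) hxX
    simpa using this
  have e : g * ⁅k, x1 * x2⁆ * g⁻¹ = (g * ⁅k, x1⁆ * g⁻¹) * ((g * x1) * ⁅k, x2⁆ * (g * x1)⁻¹) := by
    simp only [commutatorElement_def]; group
  rw [e]
  apply Φm
  · exact h.nor g hg _ (hkx k hk _ (h1 hx1))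
  · exact h.nor _ (X.mul_mem hg (h1 hx1)) _ (hkx k hk _ hx2')
  · exact hx g hg x1 (Or.inl hx1)
  · exact hx _ (X.mul_mem hg (h1 hx1)) x2 (Or.inr hx2)

lemma pow_split (H : Subgroup G) [hH : H.Normal] (a b : G) (hb : b ∈ H) (j : ℕ) :
    ∃ d ∈ H, (a * b) ^ j = a ^ j * d := by
  induction j with
  | zero => exact ⟨1, H.one_mem, by simp⟩
  | succ j ih =>
    obtain ⟨d, hd, he⟩ := ih
    refine ⟨(a⁻¹ * d * a) * b, H.mul_mem ?_ hb, ?_⟩
    · have := hH.conj_mem d hd a⁻¹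
      simpa using this
    · rw [pow_succ, he, pow_succ]; group

section sup

variable [Finite G] {N : ℕ} {X1 K1 X2 K2 : Subgroup G} [iX1 : X1.Normal] [iK1 : K1.Normal]
  [iX2 : X2.Normal] [iK2 : K2.Normal]

omit [Finite G] iX1 iK1 iX2 iK2 in
lemma mem12 (h1 : Good N X1 K1) (h2 : Good N X2 K2) : ∀ k ∈ K1, k ∈ X2 → k ∈ K2 := by
  intro k hk hk2
  obtain ⟨n, hn⟩ := h1.two k hk
  obtain ⟨m, hm, hkm⟩ := h2.odd k hk2
  exact mem_of_pow hn hm hkm

/-- central elements of K1 commute with X1 ⊔ X2 -/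
lemma cenX (h1 : Good N X1 K1) (h2 : Good N X2 K2) {z : G} (hz : z ∈ K1)
    (hzc : ∀ k ∈ K1, ⁅z, k⁆ = 1) : ∀ x ∈ X1 ⊔ X2, Commute z x := by
  intro x hx
  obtain ⟨x1, hx1, x2, hx2, rfl⟩ := Subgroup.mem_sup_of_normal_right.mp hx
  exact Commute.mul_right (h1.c2 z hz hzc x1 hx1) (cent1 h1 h2 (mem12 h1 h2) hz hzc x2 hx2)

/-- the same for K2 -/
lemma cenX' (h1 : Good N X1 K1) (h2 : Good N X2 K2) {z : G} (hz : z ∈ K2)
    (hzc : ∀ k ∈ K2, ⁅z, k⁆ = 1) : ∀ x ∈ X1 ⊔ X2, Commute z x := by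
  intro x hx
  rw [sup_comm] at hx
  exact cenX h2 h1 hz hzc x hx

omit [Finite G] iX1 iK1 iX2 iK2 in
lemma com_central {X K : Subgroup G} (h : Good N X K) {a b : G} (ha : a ∈ K) (hb : b ∈ K) :
    ∀ k ∈ K, ⁅⁅a, b⁆, k⁆ = 1 := by
  intro k hk
  rw [commutatorElement_eq_one_iff_commute]
  exact h.c1 a ha b hb k (h.KX hk)

lemma cenK1 (h1 : Good N X1 K1) (h2 : Good N X2 K2) : Cen (X1 ⊔ X2) K1 :=
  ⟨h1.KX.trans le_sup_left, fun x _ k hk => iK1.conj_mem k hk x,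
    fun _ ha _ hb => cenX h1 h2 (h1.cen.comm_mem ha (h1.KX hb)) (com_central h1 ha hb)⟩

lemma cenK2 (h1 : Good N X1 K1) (h2 : Good N X2 K2) : Cen (X1 ⊔ X2) K2 := by
  rw [sup_comm]; exact cenK1 h2 h1

omit [Finite G] iX1 in
lemma inter (h1 : Good N X1 K1) (h2 : Good N X2 K2) {a x : G} (ha : a ∈ K1) (hx : x ∈ X2) :
    ⁅a, x⁆ ∈ K1 ∧ ⁅a, x⁆ ∈ K2 := by
  have e1 : ⁅a, x⁆ ∈ K1 := by
    have : ⁅a, x⁆ = a * (x * a⁻¹ * x⁻¹) := by rw [commutatorElement_def]; group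
    rw [this]
    exact K1.mul_mem ha (iK1.conj_mem _ (K1.inv_mem ha) x)
  have e2 : ⁅a, x⁆ ∈ X2 := by
    rw [commutatorElement_def]
    exact X2.mul_mem (iX2.conj_mem x hx a) (X2.inv_mem hx)
  exact ⟨e1, mem12 h1 h2 _ e1 e2⟩

/-- step 2 -/
lemma step2 (h1 : Good N X1 K1) (h2 : Good N X2 K2) {a t : G} (ha : a ∈ K1) (ht : t ∈ K2) :
    ∀ x ∈ X1 ⊔ X2, Commute ⁅a, t⁆ x := by
  have hX2 : X2 ≤ X1 ⊔ X2 := le_sup_right
  have c1 := cenK1 h1 h2
  have c2 := cenK2 h1 h2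
  have A : ∀ a ∈ K1, ∀ t ∈ K2, ∀ x ∈ X2, ∀ y ∈ X1 ⊔ X2, Commute ⁅⁅a, t⁆, x⁆ y := by
    intro a ha t ht x hx
    have hl := inter h1 h2 ha (h2.KX ht)
    have hlx := inter h1 h2 hl.1 hx
    apply cenX h1 h2 hlx.1
    intro b' hb'
    have hb : x⁻¹ * b' * x ∈ K1 := by
      have := iK1.conj_mem b' hb' x⁻¹
      simpa using this
    have e := c1.adj hl.1 hb (hX2 hx)
    have e' : x * (x⁻¹ * b' * x) * x⁻¹ = b' := by group
    rw [e'] at e
    rw [e]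
    set r := ⁅x, x⁻¹ * b' * x⁆ with hr
    have hr12 : r ∈ K1 ∧ r ∈ K2 := by
      have := inter h1 h2 hb hx
      rw [hr, ← commutatorElement_inv]
      exact ⟨K1.inv_mem this.1, K2.inv_mem this.2⟩
    have hb2 : t⁻¹ * r * t ∈ K1 := by
      have := iK1.conj_mem r hr12.1 t⁻¹
      simpa using this
    have hb22 : t⁻¹ * r * t ∈ K2 := by
      have := iK2.conj_mem r hr12.2 t⁻¹
      simpa using this
    have f := c1.adj ha hb2 (hX2 (h2.KX ht))
    have f' : t * (t⁻¹ * r * t) * t⁻¹ = r := by group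
    rw [f'] at f
    rw [f, commutatorElement_eq_one_iff_commute]
    exact (c2.c1 t ht _ hb22 a (c1.KX ha)).symm
  have hl := inter h1 h2 ha (h2.KX ht)
  apply cenX' h1 h2 hl.2
  apply h2.toPre.fixPred (fun d => ∀ k ∈ K2, ⁅d, k⁆ = 1) (k := ⁅a, t⁆)
  · intro t _; simp [commutatorElement_def]
  · intro a ha b hb h1 h2 t ht
    rw [c2.mul_left ha hb ht, h1 t ht, h2 t ht, one_mul]
  · intro a ha h1 t ht
    rw [c2.inv_left ha ht, h1 t ht, inv_one]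
  · intro a ha b hb k hk
    exact com_central h2 ha hb k hk
  · exact hl.2
  · intro g hg x hx k hk
    rw [conj_comm, conj_comm, commutatorElement_eq_one_iff_commute]
    exact A _ (iK1.conj_mem a ha g) _ (iK2.conj_mem t ht g) _ (iX2.conj_mem x hx g) k
      (hX2 (h2.KX hk))

lemma cenK (h1 : Good N X1 K1) (h2 : Good N X2 K2) : Cen (X1 ⊔ X2) (K1 ⊔ K2) where
  KX := sup_le_sup h1.KX h2.KX
  nor := fun x _ k hk => (Subgroup.sup_normal K1 K2).conj_mem k hk x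
  c1 := by
    have c1 := cenK1 h1 h2
    have c2 := cenK2 h1 h2
    intro a ha b hb x hx
    obtain ⟨a1, ha1, a2, ha2, rfl⟩ := Subgroup.mem_sup_of_normal_right.mp ha
    obtain ⟨b1, hb1, b2, hb2, rfl⟩ := Subgroup.mem_sup_of_normal_right.mp hb
    have p11 := c1.c1 a1 ha1 b1 hb1
    have p22 := c2.c1 a2 ha2 b2 hb2
    have p12 := step2 h1 h2 ha1 hb2
    have p21 : ∀ x ∈ X1 ⊔ X2, Commute ⁅a2, b1⁆ x := by
      intro x hx
      rw [← commutatorElement_inv]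
      exact (step2 h1 h2 hb1 ha2 x hx).inv_left
    have q : ∀ a : G, a ∈ K1 ∨ a ∈ K2 → (∀ x ∈ X1 ⊔ X2, Commute ⁅a, b1⁆ x) →
        (∀ x ∈ X1 ⊔ X2, Commute ⁅a, b2⁆ x) → ∀ x ∈ X1 ⊔ X2, Commute ⁅a, b1 * b2⁆ x := by
      intro a _ e1 e2 x hx
      rw [comm_mul_right, ← (e2 b1 (c1.KX hb1)).eq, mul_inv_cancel_right]
      exact (e1 x hx).mul_left (e2 x hx)
    have r1 := q a1 (Or.inl ha1) p11 p12
    have r2 := q a2 (Or.inr ha2) p21 p22
    rw [comm_mul_left, ← (r2 a1 (c1.KX ha1)).eq, mul_inv_cancel_right]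
    exact (r2 x hx).mul_left (r1 x hx)

lemma csK1 (h1 : Good N X1 K1) (h2 : Good N X2 K2) {k : G} (hk : k ∈ K1) :
    cs (K1 ⊔ K2) k = cs K1 k := by
  have c := cenK h1 h2
  have c1 := cenK1 h1 h2
  have hK1 : K1 ≤ K1 ⊔ K2 := le_sup_left
  have hK2 : K2 ≤ K1 ⊔ K2 := le_sup_right
  have hX1 : X1 ≤ X1 ⊔ X2 := le_sup_left
  have A : ∀ k2 ∈ K2, ⁅k, k2⁆ ∈ c1.csg hk := by
    intro k2 hk2
    apply h1.toPre.fixPred (fun d => ⁅d, k2⁆ ∈ c1.csg hk) (k := k)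
    · simp [commutatorElement_def]
    · intro a ha b hb e1 e2
      rw [c.mul_left (hK1 ha) (hK1 hb) (hK2 hk2)]
      exact Subgroup.mul_mem _ e1 e2
    · intro a ha e1
      rw [c.inv_left (hK1 ha) (hK2 hk2)]
      exact Subgroup.inv_mem _ e1
    · intro a ha b hb
      have : ⁅⁅a, b⁆, k2⁆ = 1 := by
        rw [commutatorElement_eq_one_iff_commute]
        exact c1.c1 a ha b hb k2 (c.KX (hK2 hk2))
      rw [this]; exact Subgroup.one_mem _
    · exact hk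
    · intro g hg x hx
      rw [conj_comm]
      set k' := g * k * g⁻¹
      set x' := g * x * g⁻¹
      have hk' : k' ∈ K1 := iK1.conj_mem k hk g
      have hx' : x' ∈ X1 := iX1.conj_mem x hx g
      have hb : x'⁻¹ * k2 * x' ∈ K2 := by
        have := iK2.conj_mem k2 hk2 x'⁻¹
        simpa using this
      have e := c.adj (hK1 hk') (hK2 hb) (hX1 hx')
      have e' : x' * (x'⁻¹ * k2 * x') * x'⁻¹ = k2 := by group
      rw [e'] at e
      rw [e]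
      have e2 : cs K1 k' = cs K1 k := c1.cs_conj hk (hX1 hg)
      change _ ∈ cs K1 k
      rw [← e2]
      refine ⟨_, ?_, rfl⟩
      have := (inter h2 h1 hb hx').2
      rw [← commutatorElement_inv]
      exact K1.inv_mem this
  ext u
  constructor
  · rintro ⟨t, ht, rfl⟩
    obtain ⟨t1, ht1, t2, ht2, rfl⟩ := Subgroup.mem_sup_of_normal_right.mp ht
    dsimp only
    rw [c.mul_right (hK1 hk) (hK1 ht1) (hK2 ht2)]
    exact (c1.csg hk).mul_mem ⟨t1, ht1, rfl⟩ (A t2 ht2)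
  · rintro ⟨t, ht, rfl⟩
    exact ⟨t, hK1 ht, rfl⟩

lemma csK2 (h1 : Good N X1 K1) (h2 : Good N X2 K2) {k : G} (hk : k ∈ K2) :
    cs (K1 ⊔ K2) k = cs K2 k := by
  rw [sup_comm]; exact csK1 h2 h1 hk


lemma preK (h1 : Good N X1 K1) (h2 : Good N X2 K2) : Pre (X1 ⊔ X2) (K1 ⊔ K2) where
  KX := (cenK h1 h2).KX
  nor := (cenK h1 h2).nor
  two := by
    intro k hk
    obtain ⟨k1, hk1, k2, hk2, rfl⟩ := Subgroup.mem_sup_of_normal_right.mp hk
    obtain ⟨n, hn⟩ := h1.two k1 hk1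
    obtain ⟨d, hd, he⟩ := pow_split K2 k1 k2 hk2 (2 ^ n)
    rw [hn, one_mul] at he
    obtain ⟨m, hm⟩ := h2.two d hd
    exact ⟨n + m, by rw [pow_add, pow_mul, he, hm]⟩
  odd := by
    intro x hx
    obtain ⟨x2, hx2, x1, hx1, rfl⟩ := Subgroup.mem_sup_of_normal_right.mp (sup_comm X1 X2 ▸ hx)
    obtain ⟨m, hm, hxm⟩ := h2.odd x2 hx2
    obtain ⟨d, hd, he⟩ := pow_split X1 x2 x1 hx1 m
    obtain ⟨m', hm', hdm⟩ := h1.odd d hd
    refine ⟨m * m', hm.mul hm', ?_⟩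
    rw [pow_mul, he]
    have e : x2 ^ m * d = d * (d⁻¹ * x2 ^ m * d) := by group
    have hc : d⁻¹ * x2 ^ m * d ∈ K2 := by
      have := iK2.conj_mem _ hxm d⁻¹
      simpa using this
    obtain ⟨d', hd', he'⟩ := pow_split K2 d _ hc m'
    rw [e, he']
    exact Subgroup.mul_mem_sup hdm hd'
  gen := sup_le (h1.gen.trans (O2_mono le_sup_left)) (h2.gen.trans (O2_mono le_sup_right))

lemma cs_inv {X K : Subgroup G} (c : Cen X K) {a : G} (ha : a ∈ K) : cs K a⁻¹ = cs K a := by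
  have key : ∀ a ∈ K, cs K a⁻¹ ⊆ cs K a := by
    rintro a ha _ ⟨t, ht, rfl⟩
    dsimp only
    rw [c.inv_left ha ht]
    exact (c.csg ha).inv_mem ⟨t, ht, rfl⟩
  apply Set.Subset.antisymm (key a ha)
  have := key a⁻¹ (K.inv_mem ha)
  rwa [inv_inv] at this

theorem Good.sup (h1 : Good N X1 K1) (h2 : Good N X2 K2) :
    Good N (X1 ⊔ X2) (K1 ⊔ K2) := by
  have hpre := preK h1 h2
  have c := cenK h1 h2
  have c1 := cenK1 h1 h2
  have c2 := cenK2 h1 h2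
  have hK1 : K1 ≤ K1 ⊔ K2 := le_sup_left
  have hK2 : K2 ≤ K1 ⊔ K2 := le_sup_right
  have hX1 : X1 ≤ X1 ⊔ X2 := le_sup_left
  have hX2 : X2 ≤ X1 ⊔ X2 := le_sup_right
  have hXX : ∀ x ∈ X1 ⊔ X2, ∃ x1 ∈ X1, ∃ x2 ∈ X2, x1 * x2 = x := fun x hx =>
    Subgroup.mem_sup_of_normal_right.mp hx
  have hX12 : ∀ x, (x ∈ X1 ∨ x ∈ X2) → x ∈ X1 ⊔ X2 := by
    rintro x (hx | hx)
    · exact hX1 hx
    · exact hX2 hx
  -- commutators of elements of K with elements of X_i lie in K_i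
  have hri : ∀ k ∈ K1 ⊔ K2, ∀ x, (x ∈ X1 ∨ x ∈ X2) → (⁅k, x⁆ ∈ K1 ∨ ⁅k, x⁆ ∈ K2) := by
    intro k hk x hx
    have hkx : ⁅k, x⁆ ∈ K1 ⊔ K2 := c.comm_mem hk (hX12 x hx)
    obtain ⟨n, hn⟩ := hpre.two _ hkx
    rcases hx with hx | hx
    · left
      have : ⁅k, x⁆ ∈ X1 := by
        rw [commutatorElement_def]
        exact X1.mul_mem (iX1.conj_mem x hx k) (X1.inv_mem hx)
      obtain ⟨m, hm, hm'⟩ := h1.odd _ this
      exact mem_of_pow hn hm hm'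
    · right
      have : ⁅k, x⁆ ∈ X2 := by
        rw [commutatorElement_def]
        exact X2.mul_mem (iX2.conj_mem x hx k) (X2.inv_mem hx)
      obtain ⟨m, hm, hm'⟩ := h2.odd _ this
      exact mem_of_pow hn hm hm'
  have csadj : ∀ k ∈ K1 ⊔ K2, ∀ x, (x ∈ X1 ∨ x ∈ X2) → cs (K1 ⊔ K2) ⁅k, x⁆ ⊆ cs (K1 ⊔ K2) k :=
    fun k hk x hx => c.cs_adj hk (hX12 x hx) (fun b hb => c.comm_mem' hb (hX12 x hx))
  -- noncentral elements of K1 or K2 have large cs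
  have big : ∀ r, (r ∈ K1 ∨ r ∈ K2) → (∃ t ∈ K1 ⊔ K2, ⁅r, t⁆ ≠ 1) →
      N ≤ (cs (K1 ⊔ K2) r).ncard := by
    rintro r hr ⟨t, ht, hne⟩
    rcases hr with hr | hr
    · rw [csK1 h1 h2 hr]
      apply h1.ca r hr
      by_contra hcon
      push Not at hcon
      exact hne (commutatorElement_eq_one_iff_commute.mpr (cenX h1 h2 hr hcon t (c.KX ht)))
    · rw [csK2 h1 h2 hr]
      apply h2.ca r hr
      by_contra hcon
      push Not at hcon
      exact hne (commutatorElement_eq_one_iff_commute.mpr (cenX' h1 h2 hr hcon t (c.KX ht)))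
  have central : ∀ z ∈ K1 ⊔ K2, (∀ x, (x ∈ X1 ∨ x ∈ X2) → ∀ t ∈ K1 ⊔ K2, ⁅⁅z, x⁆, t⁆ = 1) →
      ∀ t ∈ K1 ⊔ K2, ⁅z, t⁆ = 1 := by
    intro z hz hzx
    apply hpre.fixPred2 hXX hX1 (fun d => ∀ t ∈ K1 ⊔ K2, ⁅d, t⁆ = 1) (k := z)
    · intro t _; simp [commutatorElement_def]
    · intro a ha b hb e1 e2 t ht
      rw [c.mul_left ha hb ht, e1 t ht, e2 t ht, one_mul]
    · intro a ha e1 t ht
      rw [c.inv_left ha ht, e1 t ht, inv_one]
    · intro a ha b hb t ht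
      rw [commutatorElement_eq_one_iff_commute]
      exact c.c1 a ha b hb t (c.KX ht)
    · exact hz
    · intro g hg x hx t ht
      have e := c.cs_conj (c.comm_mem hz (hX12 x hx)) hg
      rw [cs_of_central (hzx x hx)] at e
      have : ⁅g * ⁅z, x⁆ * g⁻¹, t⁆ ∈ cs (K1 ⊔ K2) (g * ⁅z, x⁆ * g⁻¹) := ⟨t, ht, rfl⟩
      rw [e] at this
      exact this
  refine { toPre := hpre, c0 := ?_, c1 := c.c1, c2 := ?_, ca := ?_, cb := ?_, cc := ?_ }
  · -- c0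
    intro a ha b hb
    obtain ⟨a1, ha1, a2, ha2, rfl⟩ := Subgroup.mem_sup_of_normal_right.mp ha
    rw [c.mul_left ha ha hb, c.mul_left (hK1 ha1) (hK2 ha2) hb]
    have p : ⁅a1, b⁆ * ⁅a1, b⁆ = 1 := by
      rw [← c.mul_left (hK1 ha1) (hK1 ha1) hb, commutatorElement_eq_one_iff_commute]
      exact cenX h1 h2 (K1.mul_mem ha1 ha1) (h1.c0 a1 ha1) b (c.KX hb)
    have q : ⁅a2, b⁆ * ⁅a2, b⁆ = 1 := by
      rw [← c.mul_left (hK2 ha2) (hK2 ha2) hb, commutatorElement_eq_one_iff_commute]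
      exact cenX' h1 h2 (K2.mul_mem ha2 ha2) (h2.c0 a2 ha2) b (c.KX hb)
    have hc : ⁅a1, b⁆ * ⁅a2, b⁆ = ⁅a2, b⁆ * ⁅a1, b⁆ :=
      (c.c1 a1 (hK1 ha1) b hb _ (c.KX (c.comm_mem (hK2 ha2) (c.KX hb)))).eq
    calc ⁅a1, b⁆ * ⁅a2, b⁆ * (⁅a1, b⁆ * ⁅a2, b⁆)
        = ⁅a1, b⁆ * (⁅a2, b⁆ * ⁅a1, b⁆) * ⁅a2, b⁆ := by group
      _ = (⁅a1, b⁆ * ⁅a1, b⁆) * (⁅a2, b⁆ * ⁅a2, b⁆) := by rw [← hc]; group
      _ = 1 := by rw [p, q, one_mul]
  · -- c2
    intro z hz hzk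
    have A : ∀ x, (x ∈ X1 ∨ x ∈ X2) → ∀ y ∈ X1 ⊔ X2, Commute ⁅z, x⁆ y := by
      intro x hx
      have e : ∀ t ∈ K1 ⊔ K2, ⁅⁅z, x⁆, t⁆ = 1 := by
        intro t ht
        have := csadj z hz x hx ⟨t, ht, rfl⟩
        rw [cs_of_central hzk] at this
        exact this
      rcases hri z hz x hx with h' | h'
      · exact cenX h1 h2 h' (fun k hk => e k (hK1 hk))
      · exact cenX' h1 h2 h' (fun k hk => e k (hK2 hk))
    apply hpre.fixPred2 hXX hX1 (fun d => ∀ x ∈ X1 ⊔ X2, Commute d x) (k := z)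
    · intro x _; exact Commute.one_left _
    · intro a _ b _ e1 e2 x hx; exact (e1 x hx).mul_left (e2 x hx)
    · intro a _ e1 x hx; exact (e1 x hx).inv_left
    · intro a ha b hb x hx; exact c.c1 a ha b hb x hx
    · exact hz
    · intro g hg x hx
      rw [← (A x hx g hg).eq, mul_inv_cancel_right]
      exact A x hx
  · -- ca
    intro k hk hkt
    have : ∃ x, (x ∈ X1 ∨ x ∈ X2) ∧ ∃ t ∈ K1 ⊔ K2, ⁅⁅k, x⁆, t⁆ ≠ 1 := by
      by_contra hcon
      push Not at hcon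
      obtain ⟨t, ht, hne⟩ := hkt
      exact hne (central k hk hcon t ht)
    obtain ⟨x, hx, hxt⟩ := this
    exact (big _ (hri k hk x hx) hxt).trans
      (Set.ncard_le_ncard (csadj k hk x hx) (Set.toFinite _))
  · -- cb
    apply sup_le
    · refine h1.cb.trans (Subgroup.closure_mono ?_)
      rintro k ⟨hk, hk'⟩
      exact ⟨hK1 hk, by rw [csK1 h1 h2 hk]; exact hk'⟩
    · refine h2.cb.trans (Subgroup.closure_mono ?_)
      rintro k ⟨hk, hk'⟩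
      exact ⟨hK2 hk, by rw [csK2 h1 h2 hk]; exact hk'⟩
  · -- cc
    intro k hk k' hk' ck ck' hne
    -- orthogonality between elements of K1 and K2
    have o12 : ∀ r ∈ K1, ∀ s ∈ K2, ∀ U U' : Set G, cs (K1 ⊔ K2) r ⊆ U → cs (K1 ⊔ K2) s ⊆ U' →
        U.ncard ≤ N → U'.ncard ≤ N → U ≠ U' → ⁅r, s⁆ = 1 := by
      intro r hr s hs U U' hU hU' cU cU' hne
      apply h1.toPre.fixPred (fun d => ⁅d, s⁆ = 1) (k := r)
      · simp [commutatorElement_def]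
      · intro a ha b hb e1 e2
        rw [c.mul_left (hK1 ha) (hK1 hb) (hK2 hs), e1, e2, one_mul]
      · intro a ha e1
        rw [c.inv_left (hK1 ha) (hK2 hs), e1, inv_one]
      · intro a ha b hb
        rw [commutatorElement_eq_one_iff_commute]
        exact c1.c1 a ha b hb s (c.KX (hK2 hs))
      · exact hr
      · intro g hg x hx
        rw [conj_comm]
        set r' := g * r * g⁻¹
        set x' := g * x * g⁻¹
        have hr' : r' ∈ K1 := iK1.conj_mem r hr g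
        have hx' : x' ∈ X1 := iX1.conj_mem x hx g
        have hb : x'⁻¹ * s * x' ∈ K2 := by
          have := iK2.conj_mem s hs x'⁻¹
          simpa using this
        have e := c.adj (hK1 hr') (hK2 hb) (hX1 hx')
        have e' : x' * (x'⁻¹ * s * x') * x'⁻¹ = s := by group
        rw [e'] at e
        rw [e]
        set b := x'⁻¹ * s * x' with hbdef
        have hcb : cs (K1 ⊔ K2) b = cs (K1 ⊔ K2) s := by
          have := c.cs_conj (hK2 hs) ((X1 ⊔ X2).inv_mem (hX1 hx'))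
          rw [inv_inv] at this
          exact this
        have hxbK : ⁅x', b⁆ ∈ K1 := by
          have := (inter h2 h1 hb hx').2
          rw [← commutatorElement_inv]
          exact K1.inv_mem this
        have hcs2 : cs (K1 ⊔ K2) ⁅x', b⁆ ⊆ U' := by
          rw [← commutatorElement_inv, cs_inv c (c.comm_mem (hK2 hb) (hX1 hx'))]
          refine (csadj b (hK2 hb) x' (Or.inl hx')).trans ?_
          rw [hcb]; exact hU'
        have hcs1 : cs (K1 ⊔ K2) r' ⊆ U := by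
          rw [c.cs_conj (hK1 hr) (hX1 hg)]; exact hU
        rw [csK1 h1 h2 hr'] at hcs1
        rw [csK1 h1 h2 hxbK] at hcs2
        exact h1.orth hr' hxbK hcs1 hcs2 cU cU' hne
    have oall : ∀ r, (r ∈ K1 ∨ r ∈ K2) → ∀ s, (s ∈ K1 ∨ s ∈ K2) → ∀ U U' : Set G,
        cs (K1 ⊔ K2) r ⊆ U → cs (K1 ⊔ K2) s ⊆ U' →
        U.ncard ≤ N → U'.ncard ≤ N → U ≠ U' → ⁅r, s⁆ = 1 := by
      intro r hr s hs U U' hU hU' cU cU' hne
      rcases hr with hr | hr <;> rcases hs with hs | hs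
      · rw [csK1 h1 h2 hr] at hU
        rw [csK1 h1 h2 hs] at hU'
        exact h1.orth hr hs hU hU' cU cU' hne
      · exact o12 r hr s hs U U' hU hU' cU cU' hne
      · rw [← commutatorElement_inv, o12 s hs r hr U' U hU' hU cU' cU hne.symm, inv_one]
      · rw [csK2 h1 h2 hr] at hU
        rw [csK2 h1 h2 hs] at hU'
        exact h2.orth hr hs hU hU' cU cU' hne
    have A : ∀ k1 ∈ K1 ⊔ K2, ∀ k2 ∈ K1 ⊔ K2, cs (K1 ⊔ K2) k1 = cs (K1 ⊔ K2) k →
        cs (K1 ⊔ K2) k2 = cs (K1 ⊔ K2) k' → ∀ x, (x ∈ X1 ∨ x ∈ X2) → ∀ x', (x' ∈ X1 ∨ x' ∈ X2) →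
        ⁅⁅k1, x⁆, ⁅k2, x'⁆⁆ = 1 := by
      intro k1 hk1 k2 hk2 e1 e2 x hx x' hx'
      refine oall _ (hri k1 hk1 x hx) _ (hri k2 hk2 x' hx') _ _ (csadj k1 hk1 x hx)
        (csadj k2 hk2 x' hx') ?_ ?_ ?_
      · rw [e1]; exact ck
      · rw [e2]; exact ck'
      · rw [e1, e2]; exact hne
    have conjX : ∀ g ∈ X1 ⊔ X2, ∀ x, (x ∈ X1 ∨ x ∈ X2) →
        (g * x * g⁻¹ ∈ X1 ∨ g * x * g⁻¹ ∈ X2) := by
      rintro g _ x (hx | hx)
      · exact Or.inl (iX1.conj_mem x hx g)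
      · exact Or.inr (iX2.conj_mem x hx g)
    have B : ∀ k1 ∈ K1 ⊔ K2, cs (K1 ⊔ K2) k1 = cs (K1 ⊔ K2) k → ∀ x, (x ∈ X1 ∨ x ∈ X2) →
        ⁅⁅k1, x⁆, k'⁆ = 1 := by
      intro k1 hk1 e1 x hx
      have hr : ⁅k1, x⁆ ∈ K1 ⊔ K2 := c.comm_mem hk1 (hX12 x hx)
      apply hpre.fixPred2 hXX hX1 (fun d => ⁅⁅k1, x⁆, d⁆ = 1) (k := k')
      · simp [commutatorElement_def]
      · intro a ha b hb e1 e2
        rw [c.mul_right hr ha hb, e1, e2, one_mul]
      · intro a ha e1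
        rw [c.inv_right hr ha, e1, inv_one]
      · intro a ha b hb
        rw [commutatorElement_eq_one_iff_commute]
        exact (c.c1 a ha b hb _ (c.KX hr)).symm
      · exact hk'
      · intro g hg y hy
        rw [conj_comm]
        exact A k1 hk1 _ (c.nor g hg k' hk') e1 (c.cs_conj hk' hg) x hx _ (conjX g hg y hy)
    apply hpre.fixPred2 hXX hX1 (fun d => ⁅d, k'⁆ = 1) (k := k)
    · simp [commutatorElement_def]
    · intro a ha b hb e1 e2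
      rw [c.mul_left ha hb hk', e1, e2, one_mul]
    · intro a ha e1
      rw [c.inv_left ha hk', e1, inv_one]
    · intro a ha b hb
      rw [commutatorElement_eq_one_iff_commute]
      exact (c.c1 a ha b hb _ (c.KX hk'))
    · exact hk
    · intro g hg y hy
      rw [conj_comm]
      exact B _ (c.nor g hg k hk) (c.cs_conj hk hg) _ (conjX g hg y hy)

end sup

end Pool.Agent.Helper36.Fit
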