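import Mathlib

set_option autoImplicit false
set_option linter.unusedSectionVars false

namespace Pool.Agent.Helper36.Fit

/-- Fitting classes -/
def IsFit (F : (H : Type) → [Group H] → Prop) : Prop :=
  (∀ (H : Type) [Group H], F H → Finite H) ∧
  (∀ (H K : Type) [Group H] [Group K], Nonempty (H ≃* K) → F H → F K) ∧
  (∀ (H : Type) [Group H] (N : Subgroup H), N.Normal → F H → F ↥N) ∧
  (∀ (H : Type) [Group H] (N M : Subgroup H), N.Normal → M.Normal →
     F ↥N → F ↥M → F ↥(N ⊔ M))

section fit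
variable {Q : (H : Type) → [Group H] → Prop} (hQ : IsFit Q)
include hQ

lemma IsFit.range {A H : Type} [Group A] [Group H] (f : A →* H) (hf : Function.Injective f)
    (hA : Q A) : Q ↥f.range :=
  hQ.2.1 A f.range ⟨f.ofInjective hf⟩ hA

lemma IsFit.top {H : Type} [Group H] (N M : Subgroup H) (hN : N.Normal) (hM : M.Normal)
    (h : N ⊔ M = ⊤) (qN : Q ↥N) (qM : Q ↥M) : Q H := by
  have := hQ.2.2.2 H N M hN hM qN qM
  rw [h] at this
  exact hQ.2.1 _ _ ⟨Subgroup.topEquiv⟩ this

/-- a normal subgroup which is the image of an injective homomorphism -/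
lemma IsFit.of_range {A H : Type} [Group A] [Group H] (f : A →* H) (hf : Function.Injective f)
    (hn : f.range.Normal) (hH : Q H) : Q A :=
  hQ.2.1 _ _ ⟨(f.ofInjective hf).symm⟩ (hQ.2.2.1 H f.range hn hH)

lemma IsFit.prod {A B : Type} [Group A] [Group B] (hA : Q A) (hB : Q B) : Q (A × B) := by
  have hr1 : (MonoidHom.inl A B).range = (MonoidHom.snd A B).ker := by
    ext ⟨x, y⟩
    constructor
    · rintro ⟨a, ha⟩
      rw [MonoidHom.mem_ker]
      have := congrArg Prod.snd ha
      exact this.symm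
    · intro h
      rw [MonoidHom.mem_ker] at h
      exact ⟨x, Prod.ext rfl h.symm⟩
  have hr2 : (MonoidHom.inr A B).range = (MonoidHom.fst A B).ker := by
    ext ⟨x, y⟩
    constructor
    · rintro ⟨a, ha⟩
      rw [MonoidHom.mem_ker]
      have := congrArg Prod.fst ha
      exact this.symm
    · intro h
      rw [MonoidHom.mem_ker] at h
      exact ⟨y, Prod.ext h.symm rfl⟩
  apply hQ.top (MonoidHom.inl A B).range (MonoidHom.inr A B).range
  · rw [hr1]; infer_instance
  · rw [hr2]; infer_instance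
  · rw [eq_top_iff]
    rintro ⟨x, y⟩ _
    have : (x, y) = (MonoidHom.inl A B x) * (MonoidHom.inr A B y) := by simp
    rw [this]
    exact Subgroup.mul_mem_sup ⟨x, rfl⟩ ⟨y, rfl⟩
  · exact hQ.range _ (fun a b h => congrArg Prod.fst h) hA
  · exact hQ.range _ (fun a b h => congrArg Prod.snd h) hB

end fit

/-- the group of maps `v ↦ s v + u` -/
@[ext] structure Aff (k E : Type) [Field k] where
  s : kˣ
  v : E

namespace Aff
variable {k E : Type} [Field k] [AddCommGroup E] [Module k E]

instance : Group (Aff k E) where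
  mul x y := ⟨x.s * y.s, (x.s : k) • y.v + x.v⟩
  one := ⟨1, 0⟩
  inv x := ⟨x.s⁻¹, -(((x.s⁻¹ : kˣ) : k) • x.v)⟩
  mul_assoc x y z := by
    apply Aff.ext
    · exact mul_assoc _ _ _
    · change ((x.s * y.s : kˣ) : k) • z.v + ((x.s : k) • y.v + x.v)
        = (x.s : k) • ((y.s : k) • z.v + y.v) + x.v
      rw [smul_add, smul_smul, Units.val_mul, add_assoc]
  one_mul x := by
    apply Aff.ext
    · exact one_mul _
    · change ((1 : kˣ) : k) • x.v + 0 = x.v
      simp
  mul_one x := by
    apply Aff.ext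
    · exact mul_one _
    · change (x.s : k) • (0 : E) + x.v = x.v
      simp
  inv_mul_cancel x := by
    apply Aff.ext
    · exact inv_mul_cancel _
    · change ((x.s⁻¹ : kˣ) : k) • x.v + -(((x.s⁻¹ : kˣ) : k) • x.v) = 0
      simp

lemma mul_s (x y : Aff k E) : (x * y).s = x.s * y.s := rfl
lemma mul_v (x y : Aff k E) : (x * y).v = (x.s : k) • y.v + x.v := rfl
lemma one_s : (1 : Aff k E).s = 1 := rfl
lemma one_v : (1 : Aff k E).v = 0 := rfl

def sHom : Aff k E →* kˣ where
  toFun x := x.s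
  map_one' := rfl
  map_mul' _ _ := rfl

def congr {E' : Type} [AddCommGroup E'] [Module k E'] (e : E ≃ₗ[k] E') : Aff k E ≃* Aff k E' where
  toFun x := ⟨x.s, e x.v⟩
  invFun x := ⟨x.s, e.symm x.v⟩
  left_inv x := by simp
  right_inv x := by simp
  map_mul' x y := by
    apply Aff.ext
    · rfl
    · change e ((x.s : k) • y.v + x.v) = (x.s : k) • e y.v + e x.v
      rw [map_add, map_smul]

variable {Q : (H : Type) → [Group H] → Prop} (hQ : IsFit Q)
include hQ

lemma fit_prod {E' : Type} [AddCommGroup E'] [Module k E'] (h : Q (Aff k E)) (h' : Q (Aff k E')) :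
    Q (Aff k (E × E')) := by
  let f : Aff k (E × E') →* Aff k E × Aff k E' :=
    { toFun := fun x => (⟨x.s, x.v.1⟩, ⟨x.s, x.v.2⟩)
      map_one' := rfl
      map_mul' := fun _ _ => rfl }
  refine hQ.of_range f ?_ ?_ (hQ.prod h h')
  · intro x y hxy
    have h1 := congrArg (fun z => z.1.s) hxy
    have h2 := congrArg (fun z => z.1.v) hxy
    have h3 := congrArg (fun z => z.2.v) hxy
    exact Aff.ext h1 (Prod.ext h2 h3)
  · let g : Aff k E × Aff k E' →* kˣ :=
      { toFun := fun x => x.1.s * x.2.s⁻¹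
        map_one' := by simp [one_s]
        map_mul' := fun x y => by
          simp only [Prod.fst_mul, Prod.snd_mul, mul_s, mul_inv]
          exact mul_mul_mul_comm _ _ _ _ }
    have : f.range = g.ker := by
      ext ⟨x, y⟩
      rw [MonoidHom.mem_ker]
      constructor
      · rintro ⟨z, hz⟩
        rw [← hz]
        exact mul_inv_cancel _
      · intro hg
        have hg' : x.s = y.s := mul_inv_eq_one.mp hg
        exact ⟨⟨x.s, (x.v, y.v)⟩, Prod.ext (Aff.ext rfl rfl) (Aff.ext hg' rfl)⟩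
    rw [this]
    infer_instance

lemma fit_fin (h : Q (Aff k k)) (n : ℕ) : Q (Aff k (Fin (n + 1) → k)) := by
  induction n with
  | zero => exact hQ.2.1 _ _ ⟨congr (LinearEquiv.funUnique (Fin 1) k k).symm⟩ h
  | succ n ih =>
    exact hQ.2.1 _ _ ⟨congr (Fin.consLinearEquiv k (fun _ : Fin (n + 2) => k))⟩ (fit_prod hQ h ih)

lemma fit_all [Module.Finite k E] [Nontrivial E] (h : Q (Aff k k)) : Q (Aff k E) := by
  have hpos : 0 < Module.finrank k E := Module.finrank_pos
  obtain ⟨n, hn⟩ : ∃ n, Module.finrank k E = n + 1 := ⟨_, (Nat.succ_pred_eq_of_pos hpos).symm⟩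
  have e : E ≃ₗ[k] (Fin (n + 1) → k) :=
    LinearEquiv.ofFinrankEq _ _ (by rw [hn]; simp)
  exact hQ.2.1 _ _ ⟨congr e.symm⟩ (fit_fin hQ h n)

end Aff

end Pool.Agent.Helper36.Fit
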