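import Mathlib
import Pool.Agent.Helper36.FitEx
import Pool.Agent.Helper36.FitClosure

set_option autoImplicit false
set_option linter.unusedSectionVars false

namespace Pool.Agent.Helper36.Fit

open scoped commutatorElement

section transport
variable {A G : Type} [Group A] [Group G] (f : A →* G) (hf : Function.Injective f)
include hf

lemma O2_map (B : Subgroup A) : O2 (B.map f) = (O2 B).map f := by
  unfold O2
  rw [MonoidHom.map_closure]
  congr 1
  ext g
  constructor
  · rintro ⟨⟨b, hb, rfl⟩, ho⟩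
    rw [orderOf_injective f hf] at ho
    exact ⟨b, ⟨hb, ho⟩, rfl⟩
  · rintro ⟨b, ⟨hb, ho⟩, rfl⟩
    exact ⟨⟨b, hb, rfl⟩, by rw [orderOf_injective f hf]; exact ho⟩

lemma cs_map (K : Subgroup A) (k : A) : cs (K.map f) (f k) = f '' cs K k := by
  ext u
  constructor
  · rintro ⟨_, ⟨t, ht, rfl⟩, rfl⟩
    exact ⟨⁅k, t⁆, ⟨t, ht, rfl⟩, map_commutatorElement f k t⟩
  · rintro ⟨_, ⟨t, ht, rfl⟩, rfl⟩
    exact ⟨f t, ⟨t, ht, rfl⟩, (map_commutatorElement f k t).symm⟩

lemma cs_map_ncard (K : Subgroup A) (k : A) : (cs (K.map f) (f k)).ncard = (cs K k).ncard := by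
  rw [cs_map f hf, Set.ncard_image_of_injective _ hf]

lemma comm_map_one {a b : A} : ⁅f a, f b⁆ = 1 ↔ ⁅a, b⁆ = 1 := by
  rw [← map_commutatorElement]
  exact map_eq_one_iff f hf

lemma commute_map {a b : A} : Commute (f a) (f b) ↔ Commute a b := by
  rw [← commutatorElement_eq_one_iff_commute, ← commutatorElement_eq_one_iff_commute,
    comm_map_one f hf]

lemma closure_map_set (N : ℕ) (K : Subgroup A) :
    {k | k ∈ K.map f ∧ (cs (K.map f) k).ncard ≤ N} = f '' {k | k ∈ K ∧ (cs K k).ncard ≤ N} := by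
  ext u
  constructor
  · rintro ⟨⟨k, hk, rfl⟩, h⟩
    rw [cs_map_ncard f hf] at h
    exact ⟨k, ⟨hk, h⟩, rfl⟩
  · rintro ⟨k, ⟨hk, h⟩, rfl⟩
    exact ⟨⟨k, hk, rfl⟩, by rw [cs_map_ncard f hf]; exact h⟩

theorem good_map {N : ℕ} {X K : Subgroup A} :
    Good N (X.map f) (K.map f) ↔ Good N X K := by
  have hm : ∀ {B : Subgroup A} {a : A}, f a ∈ B.map f ↔ a ∈ B := fun {B a} =>
    Subgroup.mem_map_iff_mem hf
  constructor
  · intro h
    refine { KX := ?_, nor := ?_, two := ?_, odd := ?_, gen := ?_, c0 := ?_, c1 := ?_, c2 := ?_,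
             ca := ?_, cb := ?_, cc := ?_ }
    · exact (Subgroup.map_le_map_iff_of_injective hf).mp h.KX
    · intro x hx k hk
      have := h.nor (f x) (hm.mpr hx) (f k) (hm.mpr hk)
      rw [← map_mul, ← map_inv, ← map_mul, hm] at this
      exact this
    · intro k hk
      obtain ⟨n, hn⟩ := h.two (f k) (hm.mpr hk)
      exact ⟨n, hf (by rw [map_pow, hn, map_one])⟩
    · intro x hx
      obtain ⟨m, hm1, hm2⟩ := h.odd (f x) (hm.mpr hx)
      rw [← map_pow, hm] at hm2
      exact ⟨m, hm1, hm2⟩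
    · have := h.gen
      rw [O2_map f hf] at this
      exact (Subgroup.map_le_map_iff_of_injective hf).mp this
    · intro a ha b hb
      have := h.c0 (f a) (hm.mpr ha) (f b) (hm.mpr hb)
      rw [← map_mul, comm_map_one f hf] at this
      exact this
    · intro a ha b hb x hx
      have := h.c1 (f a) (hm.mpr ha) (f b) (hm.mpr hb) (f x) (hm.mpr hx)
      rw [← map_commutatorElement, commute_map f hf] at this
      exact this
    · intro z hz hzk x hx
      have := h.c2 (f z) (hm.mpr hz) (by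
        rintro _ ⟨k, hk, rfl⟩
        exact (comm_map_one f hf).mpr (hzk k hk)) (f x) (hm.mpr hx)
      exact (commute_map f hf).mp this
    · rintro k hk ⟨t, ht, hne⟩
      have := h.ca (f k) (hm.mpr hk) ⟨f t, hm.mpr ht, fun h' => hne ((comm_map_one f hf).mp h')⟩
      rwa [cs_map_ncard f hf] at this
    · have := h.cb
      rw [closure_map_set f hf, ← MonoidHom.map_closure] at this
      exact (Subgroup.map_le_map_iff_of_injective hf).mp this
    · intro k hk k' hk' c c' hne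
      have := h.cc (f k) (hm.mpr hk) (f k') (hm.mpr hk') (by rwa [cs_map_ncard f hf])
        (by rwa [cs_map_ncard f hf]) (by
          rw [cs_map f hf, cs_map f hf]
          exact fun h' => hne (Set.image_injective.mpr hf h'))
      exact (comm_map_one f hf).mp this
  · intro h
    refine { KX := ?_, nor := ?_, two := ?_, odd := ?_, gen := ?_, c0 := ?_, c1 := ?_, c2 := ?_,
             ca := ?_, cb := ?_, cc := ?_ }
    · exact (Subgroup.map_le_map_iff_of_injective hf).mpr h.KX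
    · rintro _ ⟨x, hx, rfl⟩ _ ⟨k, hk, rfl⟩
      rw [← map_mul, ← map_inv, ← map_mul, hm]
      exact h.nor x hx k hk
    · rintro _ ⟨k, hk, rfl⟩
      obtain ⟨n, hn⟩ := h.two k hk
      exact ⟨n, by rw [← map_pow, hn, map_one]⟩
    · rintro _ ⟨x, hx, rfl⟩
      obtain ⟨m, hm1, hm2⟩ := h.odd x hx
      exact ⟨m, hm1, by rw [← map_pow, hm]; exact hm2⟩
    · rw [O2_map f hf]
      exact (Subgroup.map_le_map_iff_of_injective hf).mpr h.gen
    · rintro _ ⟨a, ha, rfl⟩ _ ⟨b, hb, rfl⟩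
      rw [← map_mul, comm_map_one f hf]
      exact h.c0 a ha b hb
    · rintro _ ⟨a, ha, rfl⟩ _ ⟨b, hb, rfl⟩ _ ⟨x, hx, rfl⟩
      rw [← map_commutatorElement, commute_map f hf]
      exact h.c1 a ha b hb x hx
    · rintro _ ⟨z, hz, rfl⟩ hzk _ ⟨x, hx, rfl⟩
      rw [commute_map f hf]
      exact h.c2 z hz (fun k hk => (comm_map_one f hf).mp (hzk (f k) (hm.mpr hk))) x hx
    · rintro _ ⟨k, hk, rfl⟩ ⟨_, ⟨t, ht, rfl⟩, hne⟩
      rw [cs_map_ncard f hf]
      exact h.ca k hk ⟨t, ht, fun h' => hne ((comm_map_one f hf).mpr h')⟩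
    · rw [closure_map_set f hf, ← MonoidHom.map_closure]
      exact (Subgroup.map_le_map_iff_of_injective hf).mpr h.cb
    · rintro _ ⟨k, hk, rfl⟩ _ ⟨k', hk', rfl⟩ c c' hne
      rw [cs_map_ncard f hf] at c c'
      rw [comm_map_one f hf]
      apply h.cc k hk k' hk' c c'
      intro h'
      apply hne
      rw [cs_map f hf, cs_map f hf, h']

end transport

/-- the class -/
def Cls (N : ℕ) (H : Type) [Group H] : Prop :=
  Finite H ∧ ∃ K : Subgroup H, Good N (O2 ⊤) K

lemma exists_good_iff {A G : Type} [Group A] [Group G] (f : A →* G) (hf : Function.Injective f)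
    (N : ℕ) : (∃ K : Subgroup A, Good N (O2 ⊤) K) ↔ ∃ K : Subgroup G, Good N (O2 f.range) K := by
  constructor
  · rintro ⟨K, hK⟩
    refine ⟨K.map f, ?_⟩
    rw [MonoidHom.range_eq_map, O2_map f hf, good_map f hf]
    exact hK
  · rintro ⟨K, hK⟩
    have hle : K ≤ f.range := by
      refine hK.KX.trans ?_
      unfold O2
      rw [Subgroup.closure_le]
      exact fun y hy => hy.1
    have : K = (K.comap f).map f := (Subgroup.map_comap_eq_self hle).symm
    rw [this, MonoidHom.range_eq_map, O2_map f hf, good_map f hf] at hK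
    exact ⟨_, hK⟩

lemma cls_sub {H : Type} [Group H] [Finite H] (N : ℕ) (B : Subgroup H) :
    Cls N ↥B ↔ ∃ K : Subgroup H, Good N (O2 B) K := by
  unfold Cls
  rw [exists_good_iff B.subtype B.subtype_injective, Subgroup.range_subtype]
  exact ⟨fun h => h.2, fun h => ⟨inferInstance, h⟩⟩

instance O2_normal {H : Type} [Group H] (B : Subgroup H) [hB : B.Normal] : (O2 B).Normal := by
  constructor
  intro y hy g
  have hle : O2 B ≤ (O2 B).comap (MulAut.conj g).toMonoidHom := by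
    nth_rewrite 1 [O2]
    rw [Subgroup.closure_le]
    rintro z ⟨hz, ho⟩
    apply Subgroup.subset_closure
    refine ⟨hB.conj_mem z hz g, ?_⟩
    have : orderOf ((MulAut.conj g).toMonoidHom z) = orderOf z :=
      orderOf_injective _ (MulAut.conj g).injective z
    rw [this]; exact ho
  exact hle hy

lemma good_normal {H : Type} [Group H] {N : ℕ} {X K : Subgroup H} [hX : X.Normal]
    (h : Good N X K) : K.Normal := by
  constructor
  intro k hk g
  have h1 := hX.conj_mem k (h.KX hk) g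
  obtain ⟨n, hn⟩ := h.two k hk
  obtain ⟨m, hm, hkm⟩ := h.odd _ h1
  refine mem_of_pow (n := n) ?_ hm hkm
  rw [conj_pow, hn]; simp

lemma mem_of_coprime {G : Type} [Group G] {K : Subgroup G} {g : G} {u v : ℕ}
    (hc : Nat.Coprime u v) (hu : g ^ u ∈ K) (hv : g ^ v ∈ K) : g ∈ K := by
  have hb := Nat.gcd_eq_gcd_ab u v
  rw [Nat.Coprime.gcd_eq_one hc] at hb
  have : g = (g ^ u) ^ (Nat.gcdA u v) * (g ^ v) ^ (Nat.gcdB u v) := by
    rw [← zpow_natCast, ← zpow_natCast, ← zpow_mul, ← zpow_mul, ← zpow_add, ← hb]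
    simp
  rw [this]
  exact K.mul_mem (K.zpow_mem hu _) (K.zpow_mem hv _)

lemma pow_mem_O2 {H : Type} [Group H] [Finite H] (B : Subgroup H) {g : H} (hg : g ∈ B) :
    ∃ n : ℕ, g ^ 2 ^ n ∈ O2 B := by
  obtain ⟨n, m, hm, he⟩ := Nat.exists_eq_two_pow_mul_odd (orderOf_pos g).ne'
  refine ⟨n, Subgroup.subset_closure ⟨B.pow_mem hg _, ?_⟩⟩
  rw [orderOf_pow, he, Nat.gcd_eq_right (dvd_mul_right _ _),
    Nat.mul_div_cancel_left _ (by positivity)]
  exact hm

lemma O2_sup {H : Type} [Group H] [Finite H] (B C : Subgroup H) [hB : B.Normal] [hC : C.Normal] :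
    O2 (B ⊔ C) = O2 B ⊔ O2 C := by
  apply le_antisymm
  · nth_rewrite 1 [O2]
    rw [Subgroup.closure_le]
    rintro g ⟨hg, ho⟩
    obtain ⟨b, hb, c, hc, rfl⟩ := Subgroup.mem_sup_of_normal_right.mp hg
    obtain ⟨n, hn⟩ := pow_mem_O2 B hb
    obtain ⟨d, hd, he⟩ := pow_split C b c hc (2 ^ n)
    obtain ⟨m, hm⟩ := pow_mem_O2 C hd
    set Y := O2 B ⊔ O2 C
    have hY : Y.Normal := Subgroup.sup_normal _ _
    have hbY : b ^ 2 ^ n ∈ Y := Subgroup.mem_sup_left hn
    have e1 : b ^ 2 ^ n * d = d * (d⁻¹ * b ^ 2 ^ n * d) := by group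
    have hbY' : d⁻¹ * b ^ 2 ^ n * d ∈ Y := by
      have := hY.conj_mem _ hbY d⁻¹
      simpa using this
    obtain ⟨d', hd', he'⟩ := pow_split Y d _ hbY' (2 ^ m)
    have h3 : (b * c) ^ 2 ^ (n + m) ∈ Y := by
      rw [pow_add, pow_mul, he, e1, he']
      exact Y.mul_mem (Subgroup.mem_sup_right hm) hd'
    have h4 : (b * c) ^ orderOf (b * c) ∈ Y := by
      rw [pow_orderOf_eq_one]; exact Y.one_mem
    exact mem_of_coprime ((Nat.coprime_two_left.mpr ho).pow_left _) h3 h4
  · exact sup_le (O2_mono le_sup_left) (O2_mono le_sup_right)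

theorem cls_isFit (N : ℕ) (hN : 1 ≤ N) : IsFit (fun H _ => Cls N H) := by
  refine ⟨fun H _ h => h.1, ?_, ?_, ?_⟩
  · rintro H K _ _ ⟨e⟩ ⟨hfin, h⟩
    refine ⟨Finite.of_equiv H e.toEquiv, ?_⟩
    have := (exists_good_iff e.toMonoidHom e.injective N).mp h
    have hr : e.toMonoidHom.range = ⊤ := MonoidHom.range_eq_top.mpr e.surjective
    rwa [hr] at this
  · rintro H _ B hB ⟨hfin, K, hK⟩
    rw [cls_sub]
    exact ⟨_, hK.normal hN (O2_mono le_top)
      (fun x _ y hy => (O2_normal B).conj_mem y hy x)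
      (Subgroup.closure_mono (fun y hy => ⟨Subgroup.subset_closure hy, hy.2⟩))⟩
  · intro H _ B C hB hC cB cC
    have fB : Finite ↥B := cB.1
    have fC : Finite ↥C := cC.1
    have fS : Finite ↥(B ⊔ C) := by
      have : Function.Surjective (fun p : ↥B × ↥C =>
          (⟨(p.1 : H) * p.2, Subgroup.mul_mem_sup p.1.2 p.2.2⟩ : ↥(B ⊔ C))) := by
        rintro ⟨x, hx⟩
        obtain ⟨b, hb, c, hc, rfl⟩ := Subgroup.mem_sup_of_normal_right.mp hx
        exact ⟨(⟨b, hb⟩, ⟨c, hc⟩), rfl⟩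
      exact Finite.of_surjective _ this
    have nB : (B.subgroupOf (B ⊔ C)).Normal := hB.subgroupOf _
    have nC : (C.subgroupOf (B ⊔ C)).Normal := hC.subgroupOf _
    have hsup : B.subgroupOf (B ⊔ C) ⊔ C.subgroupOf (B ⊔ C) = ⊤ := by
      rw [eq_top_iff]
      rintro ⟨x, hx⟩ _
      obtain ⟨b, hb, c, hc, rfl⟩ := Subgroup.mem_sup_of_normal_right.mp hx
      have : (⟨b * c, hx⟩ : ↥(B ⊔ C)) = ⟨b, Subgroup.mem_sup_left hb⟩ * ⟨c, Subgroup.mem_sup_right hc⟩ :=
        rfl
      rw [this]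
      exact Subgroup.mul_mem_sup hb hc
    have key : ∀ (D : Subgroup H), D ≤ B ⊔ C → Cls N ↥D →
        ∃ K : Subgroup ↥(B ⊔ C), Good N (O2 (D.subgroupOf (B ⊔ C))) K := by
      intro D hD hcls
      have := (exists_good_iff (Subgroup.inclusion hD) (Subgroup.inclusion_injective hD) N).mp hcls.2
      rw [Subgroup.inclusion_range] at this
      exact this
    obtain ⟨K1, h1⟩ := key B le_sup_left cB
    obtain ⟨K2, h2⟩ := key C le_sup_right cC
    have n1 := good_normal h1
    have n2 := good_normal h2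
    refine ⟨fS, K1 ⊔ K2, ?_⟩
    rw [← hsup, O2_sup]
    exact Good.sup h1 h2

end Pool.Agent.Helper36.Fit
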