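import Mathlib
import Pool.Agent.Helper36.FitEx
import Pool.Agent.Helper36.FitClosure

set_option autoImplicit false
set_option linter.unusedSectionVars false

namespace Pool.Agent.Helper36.Fit

open scoped commutatorElement

/-- matrices `[[s, a, c], [0, 1, b], [0, 0, t]]` -/
@[ext] structure TT (k F : Type) [Field k] where
  s : kˣ
  t : kˣ
  a : F
  b : F
  c : F

namespace TT
variable {k F : Type} [Field k] [Field F] [Algebra k F]

def co (s : kˣ) : F := algebraMap k F (s : k)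

lemma co_mul (s t : kˣ) : co (F := F) (s * t) = co s * co t := by
  simp [co]

lemma co_one : co (F := F) (1 : kˣ) = 1 := by simp [co]

lemma co_inv_mul (s : kˣ) : co (F := F) s⁻¹ * co s = 1 := by
  rw [← co_mul, inv_mul_cancel, co_one]

lemma co_ne (s : kˣ) : co (F := F) s ≠ 0 := by
  intro h
  have := co_inv_mul (F := F) s
  rw [h, mul_zero] at this
  exact zero_ne_one this

lemma co_inv (s : kˣ) : co (F := F) s⁻¹ = (co s)⁻¹ := eq_inv_of_mul_eq_one_left (co_inv_mul s)

instance : Group (TT k F) where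
  mul x y := ⟨x.s * y.s, x.t * y.t, co x.s * y.a + x.a, y.b + co y.t * x.b,
    co x.s * y.c + x.a * y.b + co y.t * x.c⟩
  one := ⟨1, 1, 0, 0, 0⟩
  inv x := ⟨x.s⁻¹, x.t⁻¹, -(co x.s⁻¹ * x.a), -(co x.t⁻¹ * x.b),
    co x.s⁻¹ * co x.t⁻¹ * (x.a * x.b - x.c)⟩
  mul_assoc x y z := by
    apply TT.ext
    · exact mul_assoc _ _ _
    · exact mul_assoc _ _ _
    · change co (x.s * y.s) * z.a + (co x.s * y.a + x.a) = co x.s * (co y.s * z.a + y.a) + x.a
      rw [co_mul]; ring
    · change z.b + co z.t * (y.b + co y.t * x.b) = (z.b + co z.t * y.b) + co (y.t * z.t) * x.b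
      rw [co_mul]; ring
    · change co (x.s * y.s) * z.c + (co x.s * y.a + x.a) * z.b
        + co z.t * (co x.s * y.c + x.a * y.b + co y.t * x.c)
        = co x.s * (co y.s * z.c + y.a * z.b + co z.t * y.c) + x.a * (z.b + co z.t * y.b)
          + co (y.t * z.t) * x.c
      rw [co_mul, co_mul]; ring
  one_mul x := by
    apply TT.ext
    · exact one_mul _
    · exact one_mul _
    · change co 1 * x.a + 0 = x.a
      rw [co_one]; ring
    · change x.b + co x.t * 0 = x.b
      ring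
    · change co 1 * x.c + 0 * x.b + co x.t * 0 = x.c
      rw [co_one]; ring
  mul_one x := by
    apply TT.ext
    · exact mul_one _
    · exact mul_one _
    · change co x.s * 0 + x.a = x.a
      ring
    · change 0 + co 1 * x.b = x.b
      rw [co_one]; ring
    · change co x.s * 0 + x.a * 0 + co 1 * x.c = x.c
      rw [co_one]; ring
  inv_mul_cancel x := by
    apply TT.ext
    · exact inv_mul_cancel _
    · exact inv_mul_cancel _
    · change co x.s⁻¹ * x.a + -(co x.s⁻¹ * x.a) = 0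
      ring
    · change x.b + co x.t * -(co x.t⁻¹ * x.b) = 0
      have := co_inv_mul (F := F) x.t
      linear_combination (-x.b) * this
    · change co x.s⁻¹ * x.c + -(co x.s⁻¹ * x.a) * x.b
        + co x.t * (co x.s⁻¹ * co x.t⁻¹ * (x.a * x.b - x.c)) = 0
      have := co_inv_mul (F := F) x.t
      linear_combination (co x.s⁻¹ * (x.a * x.b - x.c)) * this

lemma mul_def (x y : TT k F) : x * y = ⟨x.s * y.s, x.t * y.t, co x.s * y.a + x.a,
    y.b + co y.t * x.b, co x.s * y.c + x.a * y.b + co y.t * x.c⟩ := rfl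

lemma inv_def (x : TT k F) : x⁻¹ = ⟨x.s⁻¹, x.t⁻¹, -(co x.s⁻¹ * x.a), -(co x.t⁻¹ * x.b),
    co x.s⁻¹ * co x.t⁻¹ * (x.a * x.b - x.c)⟩ := rfl

lemma one_def : (1 : TT k F) = ⟨1, 1, 0, 0, 0⟩ := rfl

instance [Finite k] [Finite F] : Finite (TT k F) := by
  have : Function.Injective (fun x : TT k F => (x.s, x.t, x.a, x.b, x.c)) := by
    intro x y h
    simp only [Prod.mk.injEq] at h
    exact TT.ext h.1 h.2.1 h.2.2.1 h.2.2.2.1 h.2.2.2.2
  exact Finite.of_injective _ this

section fitT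

/-- top row -/
def f1 : Aff k (F × F) →* TT k F where
  toFun x := ⟨x.s, 1, x.v.1, 0, x.v.2⟩
  map_one' := rfl
  map_mul' x y := by
    rw [mul_def]
    apply TT.ext
    · rfl
    · simp
    · change (x.s : k) • y.v.1 + x.v.1 = co x.s * y.v.1 + x.v.1
      rw [Algebra.smul_def]; rfl
    · simp
    · change (x.s : k) • y.v.2 + x.v.2 = co x.s * y.v.2 + x.v.1 * 0 + co 1 * x.v.2
      rw [Algebra.smul_def, co_one]; simp [co]

/-- last column -/
def f2 : Aff k (F × F) →* TT k F where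
  toFun x := ⟨1, x.s⁻¹, 0, co x.s⁻¹ * x.v.1, co x.s⁻¹ * x.v.2⟩
  map_one' := by
    rw [one_def, Aff.one_s, Aff.one_v]; simp
  map_mul' x y := by
    rw [mul_def]
    have h1 := co_inv_mul (F := F) x.s
    apply TT.ext
    · simp
    · simp [Aff.mul_s, mul_comm]
    · simp
    · change co (x.s * y.s)⁻¹ * ((x.s : k) • y.v.1 + x.v.1)
        = co y.s⁻¹ * y.v.1 + co y.s⁻¹ * (co x.s⁻¹ * x.v.1)
      rw [Algebra.smul_def, mul_inv, co_mul]
      change co x.s⁻¹ * co y.s⁻¹ * (co x.s * y.v.1 + x.v.1) = _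
      linear_combination (co y.s⁻¹ * y.v.1) * h1
    · change co (x.s * y.s)⁻¹ * ((x.s : k) • y.v.2 + x.v.2)
        = co 1 * (co y.s⁻¹ * y.v.2) + 0 * (co y.s⁻¹ * y.v.1) + co y.s⁻¹ * (co x.s⁻¹ * x.v.2)
      rw [Algebra.smul_def, mul_inv, co_mul, co_one]
      change co x.s⁻¹ * co y.s⁻¹ * (co x.s * y.v.2 + x.v.2) = _
      linear_combination (co y.s⁻¹ * y.v.2) * h1

def g1 : TT k F →* TT k F where
  toFun x := ⟨1, x.t, 0, x.b, 0⟩
  map_one' := rfl
  map_mul' x y := by
    rw [mul_def, mul_def]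
    apply TT.ext <;> simp

def g2 : TT k F →* TT k F where
  toFun x := ⟨x.s, 1, x.a, 0, 0⟩
  map_one' := rfl
  map_mul' x y := by
    rw [mul_def, mul_def]
    apply TT.ext <;> simp

lemma f1_range : (f1 (k := k) (F := F)).range = (g1 (k := k) (F := F)).ker := by
  ext x
  rw [MonoidHom.mem_ker]
  constructor
  · rintro ⟨y, rfl⟩; rfl
  · intro h
    have ht : x.t = 1 := congrArg TT.t h
    have hb : x.b = 0 := congrArg TT.b h
    exact ⟨⟨x.s, (x.a, x.c)⟩, TT.ext rfl ht.symm rfl hb.symm rfl⟩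

lemma f2_range : (f2 (k := k) (F := F)).range = (g2 (k := k) (F := F)).ker := by
  ext x
  rw [MonoidHom.mem_ker]
  constructor
  · rintro ⟨y, rfl⟩; rfl
  · intro h
    have hs : x.s = 1 := congrArg TT.s h
    have ha : x.a = 0 := congrArg TT.a h
    have e := co_inv_mul (F := F) x.t
    refine ⟨⟨x.t⁻¹, (co x.t⁻¹ * x.b, co x.t⁻¹ * x.c)⟩, TT.ext hs.symm (inv_inv _) ha.symm ?_ ?_⟩
    · change co (x.t⁻¹)⁻¹ * (co x.t⁻¹ * x.b) = x.b
      rw [inv_inv]; linear_combination x.b * e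
    · change co (x.t⁻¹)⁻¹ * (co x.t⁻¹ * x.c) = x.c
      rw [inv_inv]; linear_combination x.c * e

lemma f1_inj : Function.Injective (f1 (k := k) (F := F)) := by
  intro x y h
  have h1 : x.s = y.s := congrArg TT.s h
  have h2 : x.v.1 = y.v.1 := congrArg TT.a h
  have h3 : x.v.2 = y.v.2 := congrArg TT.c h
  exact Aff.ext h1 (Prod.ext h2 h3)

lemma f2_inj : Function.Injective (f2 (k := k) (F := F)) := by
  intro x y h
  have h1 : x.s⁻¹ = y.s⁻¹ := congrArg TT.t h
  have h2 : co x.s⁻¹ * x.v.1 = co y.s⁻¹ * y.v.1 := congrArg TT.b h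
  have h3 : co x.s⁻¹ * x.v.2 = co y.s⁻¹ * y.v.2 := congrArg TT.c h
  have h4 : x.s = y.s := inv_injective h1
  rw [h4] at h2 h3
  exact Aff.ext h4 (Prod.ext (mul_left_cancel₀ (co_ne _) h2) (mul_left_cancel₀ (co_ne _) h3))

variable {Q : (H : Type) → [Group H] → Prop} (hQ : IsFit Q)
include hQ

lemma fit_TT [Module.Finite k F] (h : Q (Aff k k)) : Q (TT k F) := by
  have hA : Q (Aff k (F × F)) := Aff.fit_all hQ h
  apply hQ.top (f1 (k := k) (F := F)).range (f2 (k := k) (F := F)).range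
  · rw [f1_range]; infer_instance
  · rw [f2_range]; infer_instance
  · rw [eq_top_iff]
    intro x _
    have : x = (⟨x.s, 1, x.a, 0, co x.t⁻¹ * (x.c - x.a * x.b)⟩ : TT k F)
        * ⟨1, x.t, 0, x.b, 0⟩ := by
      rw [mul_def]
      have e := co_inv_mul (F := F) x.t
      apply TT.ext
      · simp
      · simp
      · simp
      · simp
      · change x.c = co x.s * 0 + x.a * x.b + co x.t * (co x.t⁻¹ * (x.c - x.a * x.b))
        linear_combination (-(x.c - x.a * x.b)) * e
    rw [this]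
    refine Subgroup.mul_mem_sup ?_ ?_
    · rw [f1_range]; rfl
    · rw [f2_range]; rfl
  · exact hQ.range _ f1_inj hA
  · exact hQ.range _ f2_inj hA

end fitT


/-- the subgroup `s = t` -/
def hh : TT k F →* kˣ where
  toFun x := x.s * x.t⁻¹
  map_one' := by rw [one_def]; simp
  map_mul' x y := by
    rw [mul_def]
    simp only [mul_inv]
    exact mul_mul_mul_comm _ _ _ _

def HH (k F : Type) [Field k] [Field F] [Algebra k F] : Subgroup (TT k F) := hh.ker

lemma mem_HH {x : TT k F} : x ∈ HH k F ↔ x.s = x.t := by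
  unfold HH
  rw [MonoidHom.mem_ker]
  exact mul_inv_eq_one

instance : (HH k F).Normal := by unfold HH; infer_instance

def kk : TT k F →* kˣ × kˣ where
  toFun x := (x.s, x.t)
  map_one' := rfl
  map_mul' _ _ := rfl

def KK (k F : Type) [Field k] [Field F] [Algebra k F] : Subgroup (TT k F) := kk.ker

lemma mem_KK {x : TT k F} : x ∈ KK k F ↔ x.s = 1 ∧ x.t = 1 := by
  unfold KK
  rw [MonoidHom.mem_ker]
  exact Prod.mk_eq_one

instance : (KK k F).Normal := by unfold KK; infer_instance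

def ee (a b c : F) : TT k F := ⟨1, 1, a, b, c⟩

lemma ee_mem (a b c : F) : ee a b c ∈ KK k F := mem_KK.mpr ⟨rfl, rfl⟩

lemma eq_ee {x : TT k F} (h : x ∈ KK k F) : x = ee x.a x.b x.c :=
  TT.ext (mem_KK.mp h).1 (mem_KK.mp h).2 rfl rfl rfl

lemma ee_mul (a b c a' b' c' : F) :
    (ee a b c : TT k F) * ee a' b' c' = ee (a' + a) (b' + b) (c' + a * b' + c) := by
  rw [mul_def]; unfold ee
  apply TT.ext <;> simp [co_one]

lemma ee_inv (a b c : F) : (ee a b c : TT k F)⁻¹ = ee (-a) (-b) (a * b - c) := by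
  rw [inv_def]; unfold ee
  apply TT.ext <;> simp [co_one]

lemma ee_comm (a b c a' b' c' : F) :
    ⁅(ee a b c : TT k F), (ee a' b' c' : TT k F)⁆ = ee 0 0 (a * b' - a' * b) := by
  rw [commutatorElement_def, ee_mul, ee_inv, ee_inv, ee_mul, ee_mul]
  unfold ee
  apply TT.ext
  · rfl
  · rfl
  · change -a' + (-a + (a' + a)) = 0; ring
  · change -b' + (-b + (b' + b)) = 0; ring
  · ring

lemma ee_one : (ee 0 0 0 : TT k F) = 1 := rfl

lemma ee_inj {a b c a' b' c' : F} (h : (ee a b c : TT k F) = ee a' b' c') :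
    a = a' ∧ b = b' ∧ c = c' :=
  ⟨congrArg TT.a h, congrArg TT.b h, congrArg TT.c h⟩

lemma comm_center {x : TT k F} (hx : x ∈ HH k F) (z : F) : Commute (ee 0 0 z) x := by
  have h := mem_HH.mp hx
  change _ * _ = _ * _
  rw [mul_def, mul_def]
  unfold ee
  apply TT.ext
  · simp
  · simp
  · simp [co_one]
  · simp [co_one]
  · change co 1 * x.c + 0 * x.b + co x.t * z = co x.s * z + x.a * 0 + co 1 * x.c
    rw [co_one, h]; ring

lemma cs_sub {x : TT k F} (hx : x ∈ KK k F) : cs (KK k F) x ⊆ Set.range (ee 0 0) := by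
  rintro _ ⟨t, ht, rfl⟩
  dsimp only
  rw [eq_ee hx, eq_ee ht, ee_comm]
  exact ⟨_, rfl⟩

lemma cs_full {x : TT k F} (hx : x ∈ KK k F) (h : x.a ≠ 0 ∨ x.b ≠ 0) :
    cs (KK k F) x = Set.range (ee 0 0) := by
  apply Set.Subset.antisymm (cs_sub hx)
  rintro _ ⟨z, rfl⟩
  rw [eq_ee hx]
  rcases h with h | h
  · refine ⟨ee 0 (z / x.a) 0, ee_mem _ _ _, ?_⟩
    dsimp only
    rw [ee_comm]; congr 1; field_simp; ring
  · refine ⟨ee (- z / x.b) 0 0, ee_mem _ _ _, ?_⟩
    dsimp only
    rw [ee_comm]; congr 1; field_simp; ring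

lemma central_iff {x : TT k F} (hx : x ∈ KK k F) (h : ∀ t ∈ KK k F, ⁅x, t⁆ = 1) :
    x.a = 0 ∧ x.b = 0 := by
  constructor
  · have := h (ee 0 1 0) (ee_mem _ _ _)
    rw [eq_ee hx, ee_comm, ← ee_one] at this
    have := (ee_inj this).2.2
    simpa using this
  · have := h (ee 1 0 0) (ee_mem _ _ _)
    rw [eq_ee hx, ee_comm, ← ee_one] at this
    have := (ee_inj this).2.2
    simpa using this

lemma ncard_range [Finite F] : (Set.range (ee 0 0 : F → TT k F)).ncard = Nat.card F := by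
  rw [← Set.image_univ, Set.ncard_image_of_injective _ (fun a b h => (ee_inj h).2.2),
    Set.ncard_univ]

section good

variable (h2 : ∀ z : F, z + z = 0) (h3 : ∀ u : kˣ, u ^ 3 = 1) (w : kˣ) (hw : w ≠ 1)
include h3

lemma O2_le : O2 (HH k F) ≤ HH k F := by
  unfold O2
  rw [Subgroup.closure_le]
  exact fun y hy => hy.1

lemma pow3 (x : TT k F) : x ^ 3 ∈ KK k F := by
  unfold KK
  rw [MonoidHom.mem_ker, map_pow]
  exact Prod.ext (h3 _) (h3 _)

include hw

lemma ww : 1 + co (F := F) w + co w * co w = 0 := by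
  have h : co (F := F) w * (co w * co w) = 1 := by
    rw [← co_mul, ← co_mul, ← co_one (k := k) (F := F)]
    congr 1
    rw [← h3 w, pow_three]
  have hne : co (F := F) w - 1 ≠ 0 := by
    intro h0
    apply hw
    have h0' : algebraMap k F (w : k) = algebraMap k F 1 := by
      rw [map_one]; exact sub_eq_zero.mp h0
    have := (algebraMap k F).injective h0'
    exact Units.ext this
  apply mul_left_cancel₀ hne
  linear_combination h

lemma odd_mem {x : TT k F} (hx : x ∈ HH k F) (h : x ^ 3 = 1) : x ∈ O2 (HH k F) := by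
  apply Subgroup.subset_closure
  refine ⟨hx, ?_⟩
  have : orderOf x ∣ 3 := orderOf_dvd_of_pow_eq_one h
  exact Odd.of_dvd_nat (by decide) this

lemma ea_mem (a : F) : (ee a 0 0 : TT k F) ∈ O2 (HH k F) := by
  have e1 : (⟨w, w, a, 0, 0⟩ : TT k F) ∈ O2 (HH k F) := by
    apply odd_mem h3 w hw (mem_HH.mpr rfl)
    rw [pow_succ, pow_two, mul_def, mul_def, one_def]
    apply TT.ext
    · change w * w * w = 1
      rw [← h3 w, pow_three']
    · change w * w * w = 1
      rw [← h3 w, pow_three']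
    · change co (w * w) * a + (co w * a + a) = 0
      rw [co_mul]
      linear_combination a * ww (F := F) h3 w hw
    · change 0 + co w * (0 + co w * 0) = (0 : F)
      ring
    · change co (w * w) * 0 + (co w * a + a) * 0 + co w * (co w * 0 + a * 0 + co w * 0) = (0 : F)
      ring
  have e2 : (⟨w⁻¹, w⁻¹, 0, 0, 0⟩ : TT k F) ∈ O2 (HH k F) := by
    apply odd_mem h3 w hw (mem_HH.mpr rfl)
    rw [pow_succ, pow_two, mul_def, mul_def, one_def]
    apply TT.ext
    · change w⁻¹ * w⁻¹ * w⁻¹ = 1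
      rw [← h3 w⁻¹, pow_three']
    · change w⁻¹ * w⁻¹ * w⁻¹ = 1
      rw [← h3 w⁻¹, pow_three']
    · simp
    · simp
    · simp
  have e3 : (ee a 0 0 : TT k F) = ⟨w, w, a, 0, 0⟩ * ⟨w⁻¹, w⁻¹, 0, 0, 0⟩ := by
    rw [mul_def]; unfold ee
    apply TT.ext <;> simp
  rw [e3]
  exact Subgroup.mul_mem _ e1 e2

lemma eb_mem (b : F) : (ee 0 b 0 : TT k F) ∈ O2 (HH k F) := by
  have e1 : ∀ b : F, (⟨w, w, 0, b, 0⟩ : TT k F) ∈ O2 (HH k F) := by
    intro b
    apply odd_mem h3 w hw (mem_HH.mpr rfl)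
    rw [pow_succ, pow_two, mul_def, mul_def, one_def]
    apply TT.ext
    · change w * w * w = 1
      rw [← h3 w, pow_three']
    · change w * w * w = 1
      rw [← h3 w, pow_three']
    · change co (w * w) * 0 + (co w * 0 + 0) = (0 : F)
      ring
    · change b + co w * (b + co w * b) = 0
      linear_combination b * ww (F := F) h3 w hw
    · change co (w * w) * 0 + (co w * 0 + 0) * b + co w * (co w * 0 + 0 * b + co w * 0) = (0 : F)
      ring
  have e2 : (⟨w⁻¹, w⁻¹, 0, 0, 0⟩ : TT k F) ∈ O2 (HH k F) := by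
    apply odd_mem h3 w hw (mem_HH.mpr rfl)
    rw [pow_succ, pow_two, mul_def, mul_def, one_def]
    apply TT.ext
    · change w⁻¹ * w⁻¹ * w⁻¹ = 1
      rw [← h3 w⁻¹, pow_three']
    · change w⁻¹ * w⁻¹ * w⁻¹ = 1
      rw [← h3 w⁻¹, pow_three']
    · simp
    · simp
    · simp
  have e3 : (ee 0 b 0 : TT k F) = ⟨w, w, 0, co w * b, 0⟩ * ⟨w⁻¹, w⁻¹, 0, 0, 0⟩ := by
    rw [mul_def]; unfold ee
    apply TT.ext
    · simp
    · simp
    · simp
    · change b = 0 + co w⁻¹ * (co w * b)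
      have := co_inv_mul (F := F) w
      linear_combination (-b) * this
    · simp
  rw [e3]
  exact Subgroup.mul_mem _ (e1 _) e2

lemma KK_le : KK k F ≤ O2 (HH k F) := by
  intro x hx
  rw [eq_ee hx]
  have e1 : (ee x.a x.b x.c : TT k F) = (ee 0 x.b 0 * ee x.a 0 0) *
      ⁅(ee x.c 0 0 : TT k F), (ee 0 1 0 : TT k F)⁆ := by
    rw [ee_comm, ee_mul, ee_mul]; congr 1 <;> ring
  rw [e1]
  refine Subgroup.mul_mem _ (Subgroup.mul_mem _ (eb_mem h3 w hw _) (ea_mem h3 w hw _)) ?_
  rw [commutatorElement_def]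
  exact Subgroup.mul_mem _ (Subgroup.mul_mem _ (Subgroup.mul_mem _ (ea_mem h3 w hw _)
    (eb_mem h3 w hw _)) (Subgroup.inv_mem _ (ea_mem h3 w hw _)))
    (Subgroup.inv_mem _ (eb_mem h3 w hw _))

include h2

lemma two_pow {x : TT k F} (hx : x ∈ KK k F) : x ^ 2 ^ 2 = 1 := by
  rw [eq_ee hx]
  have : (ee x.a x.b x.c : TT k F) ^ 2 ^ 2
      = (ee x.a x.b x.c * ee x.a x.b x.c) * (ee x.a x.b x.c * ee x.a x.b x.c) := by
    rw [show 2 ^ 2 = 2 * 2 from rfl, pow_mul, pow_two, pow_two]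
  rw [this, ee_mul, ee_mul, h2, h2, ← ee_one]
  congr 1
  have := h2 (x.c + x.a * x.b + x.c)
  linear_combination this + (x.b + x.b) * h2 x.a

theorem good [Finite F] : Good (Nat.card F) (O2 (HH k F)) (KK k F) where
  KX := KK_le h3 w hw
  nor := fun x _ y hy => Subgroup.Normal.conj_mem inferInstance y hy x
  two := fun x hx => ⟨2, two_pow h2 h3 w hw hx⟩
  odd := fun x _ => ⟨3, by decide, pow3 h3 x⟩
  gen := Subgroup.closure_mono (fun y hy => ⟨Subgroup.subset_closure hy, hy.2⟩)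
  c0 := by
    intro a ha b hb
    rw [eq_ee ha, eq_ee hb, ee_mul, ee_comm, h2, h2, ← ee_one]; congr 1; ring
  c1 := by
    intro a ha b hb x hx
    rw [eq_ee ha, eq_ee hb, ee_comm]
    exact comm_center (O2_le h3 hx) _
  c2 := by
    intro z hz hzk x hx
    obtain ⟨ha, hb⟩ := central_iff hz hzk
    rw [eq_ee hz, ha, hb]
    exact comm_center (O2_le h3 hx) _
  ca := by
    rintro y hy ⟨t, ht, hne⟩
    rw [cs_full hy, ncard_range]
    by_contra hcon
    push Not at hcon
    apply hne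
    rw [eq_ee hy, eq_ee ht, ee_comm, hcon.1, hcon.2, ← ee_one]; congr 1; ring
  cb := by
    intro y hy
    apply Subgroup.subset_closure
    refine ⟨hy, ?_⟩
    rw [← ncard_range (k := k)]
    exact Set.ncard_le_ncard (cs_sub hy) (Set.finite_range _)
  cc := by
    intro y hy y' hy' _ _ hne
    by_contra hcon
    apply hne
    rw [cs_full hy, cs_full hy']
    · by_contra h'
      push Not at h'
      apply hcon
      rw [eq_ee hy, eq_ee hy', ee_comm, h'.1, h'.2, ← ee_one]; congr 1; ring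
    · by_contra h'
      push Not at h'
      apply hcon
      rw [eq_ee hy, eq_ee hy', ee_comm, h'.1, h'.2, ← ee_one]; congr 1; ring

theorem good_unique [Finite F] {N : ℕ} {K : Subgroup (TT k F)} (h : Good N (O2 (HH k F)) K) :
    N = Nat.card F := by
  have hK : K = KK k F := by
    apply le_antisymm
    · intro x hx
      obtain ⟨n, hn⟩ := h.two x hx
      exact mem_of_pow hn (by decide : Odd 3) (pow3 h3 x)
    · intro x hx
      obtain ⟨m, hm, hxm⟩ := h.odd x (KK_le h3 w hw hx)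
      exact mem_of_pow (two_pow h2 h3 w hw hx) hm hxm
  subst hK
  apply le_antisymm
  · have := h.ca (ee 1 0 0) (ee_mem _ _ _) ⟨ee 0 1 0, ee_mem _ _ _, by
      rw [ee_comm, ← ee_one]
      intro h'
      have := (ee_inj h').2.2
      simp at this⟩
    rwa [cs_full (ee_mem _ _ _) (Or.inl one_ne_zero), ncard_range] at this
  · by_contra hlt
    push Not at hlt
    have hle : Subgroup.closure {y | y ∈ KK k F ∧ (cs (KK k F) y).ncard ≤ N} ≤
        (Subgroup.closure (Set.range (ee 0 0)) : Subgroup (TT k F)) := by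
      apply Subgroup.closure_mono
      rintro y ⟨hy, hy'⟩
      by_cases hc : y.a ≠ 0 ∨ y.b ≠ 0
      · rw [cs_full hy hc, ncard_range] at hy'
        exact absurd hy' (not_le.mpr hlt)
      · push Not at hc
        refine ⟨y.c, ?_⟩
        rw [eq_ee hy, hc.1, hc.2]; rfl
    have h1 := hle (h.cb (ee_mem 1 0 0))
    have hle2 : Subgroup.closure (Set.range (ee 0 0)) ≤ (g2 (k := k) (F := F)).ker := by
      rw [Subgroup.closure_le]
      rintro _ ⟨z, rfl⟩
      rfl
    have h2 := hle2 h1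
    rw [MonoidHom.mem_ker] at h2
    have := congrArg TT.a h2
    exact one_ne_zero this

end good

end TT

end Pool.Agent.Helper36.Fit
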