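import Pool.Agent.Helper71.PieceComb
import Pool.Agent.Helper20.LinkIso
import Pool.Agent.Helper36.Cpt

/-!
Pieces of places of type III are linked only with pieces of the same place and of its conjugate
(module NoLink for theorem III of MP_bf54cf_ag).
-/

namespace Pool.Agent.Helper36

open Module NumberField Matrix
open Pool.Agent.Helper7 Pool.Agent.Helper8.D Pool.Agent.Helper24
open Pool.Agent.Helper28.GPC (pact pact_fst pact_mul pact_one pact_flip lk_pact exists_not_cpt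
  swap_ne eq_swap_of_ne swap_swap' SQ exists_Q)
open Pool.Agent.GPC (Emb AbVar)

set_option linter.unusedSectionVars false

lemma swap_perm (a b : Fin 2) : Equiv.swap a b (Equiv.swap 0 1 a) = Equiv.swap 0 1 b := by
  revert a b; decide

section nolink

variable {I : Type} [Fintype I] [DecidableEq I] (n : I → ℕ) (A : I → AbVar)
  {K : I → Type} [∀ i, Field (K i)] [∀ i, NumberField (K i)]
  {k : ℕ} (α : MultilinearMap ℂ
    (fun _ : Fin (2 * k) => HW (fun i => Fin (A i).g ⊕ Fin (A i).g) n) ℂ)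
  (F : ∀ i, Fac3 (pData (A i)) (K i))

/-- places of type III and rank four -/
abbrev UQ : Type := {s : Emb K // (F s.1).isQ}

instance instUQ : MulAction (ℂ ≃+* ℂ) (UQ A F) where
  smul τ u := ⟨actT (L := K) τ u.1, u.2⟩
  one_smul u := Subtype.ext (Pool.Agent.Helper28.GPC.actT_one u.1)
  mul_smul τ τ' u := Subtype.ext (Pool.Agent.Helper28.GPC.actT_mul τ τ' u.1)

lemma smul_UQ (τ : ℂ ≃+* ℂ) (u : UQ A F) : (τ • u).1 = actT (L := K) τ u.1 := rfl

/-- the conjugate place -/
def cU (u : UQ A F) : UQ A F := ⟨conjT u.1, u.2⟩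

/-- the compact half of a place -/
noncomputable def cc (u : UQ A F) : Fin 2 := (cpt_unique A F u.1 u.2).choose

lemma cc_spec (u : UQ A F) : Cpt A F (u.1, cc A F u) := (cpt_unique A F u.1 u.2).choose_spec.1

lemma cc_uniq (u : UQ A F) (ε : Fin 2) (h : Cpt A F (u.1, ε)) : ε = cc A F u :=
  (cpt_unique A F u.1 u.2).choose_spec.2 ε h

/-- the compact or the noncompact half of a place -/
noncomputable def half (u : UQ A F) (b : Bool) : Fin 2 :=
  cond b (cc A F u) (Equiv.swap 0 1 (cc A F u))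

/-- the piece given by a place and a type -/
noncomputable def pc (x : UQ A F × Bool) : Emb K × Fin 2 := (x.1.1, half A F x.1 x.2)

lemma pc_cpt (x : UQ A F × Bool) : Cpt A F (pc A F x) ↔ x.2 = true := by
  obtain ⟨u, b⟩ := x
  cases b
  · constructor
    · intro h
      exact absurd (cc_uniq A F u _ h) (swap_ne _)
    · intro h
      exact Bool.noConfusion h
  · exact ⟨fun _ => rfl, fun _ => cc_spec A F u⟩

lemma pc_inj {x y : UQ A F × Bool} (h : pc A F x = pc A F y) : x = y := by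
  refine Prod.ext (Subtype.ext (congrArg Prod.fst h)) ?_
  have h1 := pc_cpt A F x
  rw [h, pc_cpt A F y] at h1
  exact (Bool.eq_iff_iff.mpr h1).symm

open Classical in
lemma pc_surj (t : Emb K × Fin 2) (ht : (F t.1.1).isQ) :
    pc A F (⟨t.1, ht⟩, decide (Cpt A F t)) = t := by
  refine Prod.ext rfl ?_
  show half A F ⟨t.1, ht⟩ (decide (Cpt A F t)) = t.2
  by_cases h : Cpt A F t
  · rw [decide_eq_true h]
    exact (cc_uniq A F ⟨t.1, ht⟩ t.2 h).symm
  · rw [decide_eq_false h]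
    show Equiv.swap 0 1 (cc A F ⟨t.1, ht⟩) = t.2
    refine (eq_swap_of_ne fun h1 => h ?_).symm
    have h2 := cc_spec A F ⟨t.1, ht⟩
    rw [← h1] at h2
    exact h2

open Classical in
/-- the action of automorphisms on the pieces -/
noncomputable def actB (τ : ℂ ≃+* ℂ) (x : UQ A F × Bool) : UQ A F × Bool :=
  (τ • x.1, decide (Cpt A F (pact n (fun i => pData (A i)) α F τ (pc A F x))))

lemma pc_actB (τ : ℂ ≃+* ℂ) (x : UQ A F × Bool) :
    pc A F (actB n A α F τ x) = pact n (fun i => pData (A i)) α F τ (pc A F x) :=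
  pc_surj A F (pact n (fun i => pData (A i)) α F τ (pc A F x)) x.1.2

lemma card_fib (i : I) (hi : (F i).isQ) [DecidableEq (UQ A F)] :
    (Finset.univ.filter fun w : UQ A F => w.1.1 = i).card = finrank ℚ (K i) := by
  classical
  rw [← Embeddings.card (K i) ℂ, ← Finset.card_univ]
  symm
  refine Finset.card_bij (fun σ _ => (⟨⟨i, σ⟩, hi⟩ : UQ A F)) (fun σ _ => ?_) (fun σ _ τ _ h => ?_)
    (fun w hw => ?_)
  · exact Finset.mem_filter.mpr ⟨Finset.mem_univ _, rfl⟩
  · have h1 : (⟨i, σ⟩ : Emb K) = ⟨i, τ⟩ := congrArg Subtype.val h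
    exact eq_of_heq (Sigma.mk.inj h1).2
  · obtain ⟨⟨j, σ⟩, hj⟩ := w
    have h1 : j = i := (Finset.mem_filter.mp hw).2
    subst h1
    exact ⟨σ, Finset.mem_univ _, rfl⟩

variable
  (hB : ∀ v : Fin (2 * k) → HW (fun i => Fin (A i).g ⊕ Fin (A i).g) n,
    (∀ r, IsRatP n (fun i => pData (A i)) (v r)) →
      ∃ q : ℚ, α v = (2 * Real.pi * Complex.I) ^ k * q)
  (hA : ∀ v : Fin (2 * k) → HW (fun i => Fin (A i).g ⊕ Fin (A i).g) n,
    (∀ r i m j, IsAlgebraic ℚ (v r i m j)) → IsAlgebraic ℚ (α v))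
  (hCE : ∀ (i : I) (F' : QF (pData (A i)) (K i) 4), F i = .Q F' →
    ∀ f : Module.End ℂ (Fin (A i).g ⊕ Fin (A i).g → ℂ),
      (∀ v ∈ (pData (A i)).Q, f v ∈ (pData (A i)).Q) →
      (∀ v, f (hod (A i) v) = hod (A i) (f v)) →
      ∃ x y, ∀ v, f v = F'.ρ x v + F'.ρ y (F'.j v))

include hB hA hCE in
/-- pieces of type III are not linked with pieces of real type -/
theorem not_lk_S (t t' : Emb K × Fin 2) (ht : (F t.1.1).isQ) (ht' : (F t'.1.1).isS) :
    ¬ Lk n (fun i => pData (A i)) α F t t' := by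
  intro h
  have hϖ : (2 * Real.pi * Complex.I : ℂ) ≠ 0 := Complex.two_pi_I_ne_zero
  obtain ⟨F', hF'⟩ := exists_Q (fun i => pData (A i)) F ht
  obtain ⟨⟨i, σ⟩, ε⟩ := t
  obtain ⟨τ, hτ⟩ := exists_not_cpt n A α F hϖ hB hA
    (fun t t' ht ht' => cpt_of_lk n A α F hB hA t t' ht ht') hF' (hCE i F' hF') σ
    (Equiv.swap 0 1 ε)
  -- the other half of the image is compact
  rw [pact_flip] at hτ
  have hQ : (F (pact n (fun i => pData (A i)) α F τ (⟨i, σ⟩, ε)).1.1).isQ := ht
  have hc : Cpt A F (pact n (fun i => pData (A i)) α F τ (⟨i, σ⟩, ε)) := by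
    obtain ⟨δ, hδ, -⟩ := cpt_unique A F (pact n (fun i => pData (A i)) α F τ (⟨i, σ⟩, ε)).1 hQ
    by_cases h1 : δ = (pact n (fun i => pData (A i)) α F τ (⟨i, σ⟩, ε)).2
    · rw [h1] at hδ
      exact hδ
    · exfalso
      apply hτ
      rw [← eq_swap_of_ne h1]
      exact hδ
  have h2 := lk_pact n (fun i => pData (A i)) α F hϖ hB hA τ (t := (⟨i, σ⟩, ε)) (t' := t')
    (Or.inr ht) (Or.inl ht') h
  have h3 := (cpt_of_lk n A α F hB hA (pact n (fun i => pData (A i)) α F τ (⟨i, σ⟩, ε))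
    (pact n (fun i => pData (A i)) α F τ t') (Or.inr ht) (Or.inl ht') h2).mp hc
  exact cpt_not_S A F (pact n (fun i => pData (A i)) α F τ t').1 ht' _ h3

include hB hA hCE in
/-- Pieces of places of type III are linked only with pieces of the same place and of its
conjugate. -/
theorem no_link
    (hHom : ∀ i j, (F i).isQ → (F j).isQ → i ≠ j →
      ∀ g : (Fin (A i).g ⊕ Fin (A i).g → ℂ) →ₗ[ℂ] (Fin (A j).g ⊕ Fin (A j).g → ℂ),
        IsDRB (pData (A i)) (pData (A j)) g → g = 0)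
    (hdeg : ∀ i, (F i).isQ → finrank ℚ (K i) = 2 ∨
      ∃ p : ℕ, p.Prime ∧ finrank ℚ (K i) = 2 * p)
    (hpair : ∀ i j, (F i).isQ → (F j).isQ → i ≠ j →
      (finrank ℚ (K i) = 2 ∧ finrank ℚ (K j) = 2) ∨
      (finrank ℚ (K i) ≠ finrank ℚ (K j) ∧ finrank ℚ (K i) ≠ 2 * finrank ℚ (K j) ∧
        finrank ℚ (K j) ≠ 2 * finrank ℚ (K i)))
    (s : Emb K) (ε : Fin 2) (t' : Emb K × Fin 2) (hs : (F s.1).isQ)
    (ht' : (F t'.1.1).isS ∨ (F t'.1.1).isQ) (h : Lk n (fun i => pData (A i)) α F (s, ε) t') :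
    t'.1 = s ∨ t'.1 = conjT s := by
  classical
  have hϖ : (2 * Real.pi * Complex.I : ℂ) ≠ 0 := Complex.two_pi_I_ne_zero
  have ht'Q : (F t'.1.1).isQ := by
    rcases ht' with ht' | ht'
    · exact absurd h (not_lk_S n A α F hB hA hCE (s, ε) t' hs ht')
    · exact ht'
  have hF2 : ∀ t t' : Emb K × Fin 2, SQ (fun i => pData (A i)) F t →
      SQ (fun i => pData (A i)) F t' → Lk n (fun i => pData (A i)) α F t t' →
      (Cpt A F t ↔ Cpt A F t') := fun t t' ht ht' => cpt_of_lk n A α F hB hA t t' ht ht'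
  have hpQ : ∀ x : UQ A F × Bool, (F (pc A F x).1.1).isQ := fun x => x.1.2
  have hcc : ∀ u : UQ A F, cU A F (cU A F u) = u := fun u => Subtype.ext (conjT_conjT u.1)
  have key := Pool.Agent.Helper71.piece_comb (Γ := ℂ ≃+* ℂ) (U := UQ A F) (J := I)
    (fun u => u.1.1) (fun _ _ => rfl) (by
      rintro ⟨⟨i, σ⟩, hi⟩ ⟨⟨j, τ⟩, hj⟩ hij
      have hij' : i = j := hij
      subst hij'
      obtain ⟨g, hg⟩ := Pool.Agent.Helper84.exists_aut σ τ
      refine ⟨g, Subtype.ext ?_⟩
      show (⟨i, (g : ℂ →+* ℂ).comp σ⟩ : Emb K) = ⟨i, τ⟩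
      rw [hg])
    (cU A F) hcc (by
      rintro ⟨⟨i, σ⟩, hi⟩ hu
      obtain ⟨F', hF'⟩ := exists_Q (fun i => pData (A i)) F (s := ⟨i, σ⟩) hi
      have h1 : (⟨i, ComplexEmbedding.conjugate σ⟩ : Emb K) = ⟨i, σ⟩ := congrArg Subtype.val hu
      exact F'.cplx σ (eq_of_heq (Sigma.mk.inj h1).2)) (fun _ => rfl) (by
      rintro g ⟨⟨i, σ⟩, hi⟩
      obtain ⟨F', hF'⟩ := exists_Q (fun i => pData (A i)) F (s := ⟨i, σ⟩) hi
      apply Subtype.ext
      show (⟨i, (g : ℂ →+* ℂ).comp (ComplexEmbedding.conjugate σ)⟩ : Emb K) =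
        ⟨i, ComplexEmbedding.conjugate ((g : ℂ →+* ℂ).comp σ)⟩
      congr 1
      ext x
      show g (starRingEnd ℂ (σ x)) = starRingEnd ℂ (((g : ℂ →+* ℂ).comp σ) x)
      rw [← F'.hcc, ← F'.hcc]
      rfl)
    (actB n A α F) (fun g g' x => pc_inj A F (by
      rw [pc_actB, pc_actB, pc_actB, pact_mul n _ α F hϖ hB hA]))
    (fun x => pc_inj A F (by rw [pc_actB, pact_one n _ α F hϖ hB hA])) (fun _ _ => rfl)
    (fun x y => Lk n (fun i => pData (A i)) α F (pc A F x) (pc A F y))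
    ⟨fun x => Lk.refl n _ α F _, fun h => h.symm, fun h h' => h.trans h'⟩ (by
      intro g x y hxy
      show Lk n (fun i => pData (A i)) α F (pc A F (actB n A α F g x))
        (pc A F (actB n A α F g y))
      rw [pc_actB, pc_actB]
      exact lk_pact n _ α F hϖ hB hA g (Or.inr (hpQ x)) (Or.inr (hpQ y)) hxy) (by
      intro x y hxy
      have h1 := hF2 _ _ (Or.inr (hpQ x)) (Or.inr (hpQ y)) hxy
      rw [pc_cpt, pc_cpt] at h1
      exact Bool.eq_iff_iff.mpr h1) (by
      intro u b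
      obtain ⟨π, hπ⟩ := Pool.Agent.Helper20.lk_conj n (fun i => pData (A i)) α F hϖ hB hA u.1 u.2
      have h1 := hπ (half A F u b)
      have h2 := hF2 (u.1, half A F u b) (conjT u.1, π (half A F u b)) (Or.inr u.2)
        (Or.inr u.2) h1
      have h3 : π (half A F u b) = half A F (cU A F u) b := by
        have h4 : Cpt A F (u.1, half A F u b) ↔ b = true := pc_cpt A F (u, b)
        rw [h4] at h2
        cases b
        · show _ = Equiv.swap 0 1 (cc A F (cU A F u))
          refine eq_swap_of_ne fun h5 => ?_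
          have h6 : Cpt A F (conjT u.1, π (half A F u false)) := by
            rw [h5]; exact cc_spec A F (cU A F u)
          exact Bool.noConfusion (h2.mpr h6)
        · exact cc_uniq A F (cU A F u) _ (h2.mp rfl)
      rw [h3] at h1
      exact h1) (by
      intro u w h1 h2
      have h1' : Lk n (fun i => pData (A i)) α F (u.1, cc A F u) (w.1, cc A F w) := h1
      have h2' : Lk n (fun i => pData (A i)) α F (u.1, Equiv.swap 0 1 (cc A F u))
        (w.1, Equiv.swap 0 1 (cc A F w)) := h2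
      have h3 := Pool.Agent.Helper20.same_place n (fun i => pData (A i)) α F hϖ hB hA u.1 w.1
        u.2 w.2 (fun hne g hg => hHom _ _ u.2 w.2 hne g hg) (Equiv.swap (cc A F u) (cc A F w))
        (fun ε => by
          by_cases hε : ε = cc A F u
          · rw [hε, Equiv.swap_apply_left]
            exact h1'
          · rw [eq_swap_of_ne hε, swap_perm]
            exact h2')
      exact h3.imp (fun h => Subtype.ext h) (fun h => Subtype.ext h)) (by
      rintro ⟨⟨i, σ⟩, hi⟩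
      obtain ⟨F', hF'⟩ := exists_Q (fun i => pData (A i)) F (s := ⟨i, σ⟩) hi
      obtain ⟨τ, hτ⟩ := exists_not_cpt n A α F hϖ hB hA hF2 hF' (hCE i F' hF') σ
        (half A F ⟨⟨i, σ⟩, hi⟩ true)
      exact ⟨τ, decide_eq_false hτ⟩) (by
      intro u
      rw [card_fib A F u.1.1 u.2]
      exact hdeg _ u.2) (by
      intro u w huw N
      have hN : ∀ x, N x = finrank ℚ (K x.1.1) := fun x => card_fib A F x.1.1 x.2
      rw [hN, hN]
      exact hpair _ _ u.2 w.2 huw)
  have hx := pc_surj A F (s, ε) hs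
  have hy := pc_surj A F t' ht'Q
  have h1 := key (⟨s, hs⟩, decide (Cpt A F (s, ε))) (⟨t'.1, ht'Q⟩, decide (Cpt A F t')) (by
    rw [hx, hy]
    exact h)
  exact h1.imp (fun h => congrArg Subtype.val h) (fun h => congrArg Subtype.val h)

end nolink

end Pool.Agent.Helper36
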