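import Pool.Agent.Helper7.O.Orth5
import Pool.Agent.Helper8.Lie.Semisimple

/-!
Ideals of a semisimple Lie algebra acting on an irreducible orthogonal module of dimension six
(module O6PRIME for theorem III of MP_bf54cf_ag).
-/

open Module LieAlgebra LieModule

namespace Pool.Agent.Helper36

open Pool.Agent.Helper7 Pool.Agent.Helper8

attribute [local instance 100] LieRing.ofAssociativeRing

set_option linter.unusedSectionVars false

section

variable {L : Type*} [LieRing L] [LieAlgebra ℂ L] [FiniteDimensional ℂ L] [IsKilling ℂ L]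
  {W : Type*} [AddCommGroup W] [Module ℂ W] [LieRingModule L W] [LieModule ℂ L W]
  [FiniteDimensional ℂ W]

variable (W) in
/-- a semisimple Lie algebra acts by operators of trace zero -/
lemma trace_toEnd (a : L) : LinearMap.trace ℂ W (toEnd ℂ L W a) = 0 := by
  have h1 := perfect_of_killing a
  induction h1 using Submodule.span_induction with
  | mem x hx =>
    obtain ⟨u, v, rfl⟩ := hx
    rw [LieHom.map_lie, LieRing.of_associative_ring_bracket, map_sub, LinearMap.trace_mul_comm,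
      sub_self]
  | zero => rw [map_zero, map_zero]
  | add x y _ _ hx hy => rw [map_add, map_add, hx, hy, add_zero]
  | smul c x _ hx => rw [map_smul, map_smul, hx, smul_zero]

variable {b : W →ₗ[ℂ] W →ₗ[ℂ] ℂ} (hb : Orth L b)

include hb in
/-- commuting ideals -/
lemma comm_zero (hd : finrank ℂ W = 6) (hS : ∀ u v, SS b u v ∈ imL L W) (a c : L)
    (hac : ⁅a, c⁆ = 0) (hacg : ∀ g : L, ⁅a, ⁅c, g⁆⁆ = 0) (v : W) : ⁅a, ⁅c, v⁆⁆ = 0 := by
  have hcomm : ∀ w : W, ⁅c, ⁅a, w⁆⁆ = ⁅a, ⁅c, w⁆⁆ := by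
    intro w
    have h1 := lie_lie a c w
    rw [hac, zero_lie] at h1
    exact (sub_eq_zero.mp h1.symm).symm
  -- the identity of bilinear maps
  have h1 : ∀ u v w : W, SS b ⁅a, ⁅c, u⁆⁆ v w + SS b ⁅c, u⁆ ⁅a, v⁆ w + SS b ⁅a, u⁆ ⁅c, v⁆ w +
      SS b u ⁅a, ⁅c, v⁆⁆ w = 0 := by
    intro u v w
    obtain ⟨g, hg⟩ := hS u v
    have h2 : ∀ w, ⁅⁅c, g⁆, w⁆ = SS b ⁅c, u⁆ v w + SS b u ⁅c, v⁆ w := by
      intro w
      rw [lie_lie, hg, hg, SS_lie hb]
    have h3 : ⁅⁅a, ⁅c, g⁆⁆, w⁆ = 0 := by rw [hacg, zero_lie]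
    rw [lie_lie, h2, h2, lie_add] at h3
    have h4 := SS_lie hb a ⁅c, u⁆ v w
    have h5 := SS_lie hb a u ⁅c, v⁆ w
    rw [← h3]
    have h6 : ⁅a, SS b ⁅c, u⁆ v w⁆ + ⁅a, SS b u ⁅c, v⁆ w⁆ -
        (SS b ⁅c, u⁆ v ⁅a, w⁆ + SS b u ⁅c, v⁆ ⁅a, w⁆) =
        (⁅a, SS b ⁅c, u⁆ v w⁆ - SS b ⁅c, u⁆ v ⁅a, w⁆) +
        (⁅a, SS b u ⁅c, v⁆ w⁆ - SS b u ⁅c, v⁆ ⁅a, w⁆) := by abel
    rw [h6, h4, h5]
    abel
  -- an operator identity
  obtain ⟨A, hA⟩ : ∃ A, A = toEnd ℂ L W a := ⟨_, rfl⟩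
  obtain ⟨C, hC⟩ : ∃ C, C = toEnd ℂ L W c := ⟨_, rfl⟩
  have hAw : ∀ w, A w = ⁅a, w⁆ := fun w => by rw [hA]; rfl
  have hCw : ∀ w, C w = ⁅c, w⁆ := fun w => by rw [hC]; rfl
  have tA : LinearMap.trace ℂ W A = 0 := by rw [hA]; exact trace_toEnd W a
  have tC : LinearMap.trace ℂ W C = 0 := by rw [hC]; exact trace_toEnd W c
  have h2 : ∀ v y : W, b v y • (A * C) - (b.flip y ∘ₗ (A * C)).smulRight v +
      (b (A v) y • C - (b.flip y ∘ₗ C).smulRight (A v)) +
      (b (C v) y • A - (b.flip y ∘ₗ A).smulRight (C v)) +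
      (b (A (C v)) y • (1 : Module.End ℂ W) - (b.flip y).smulRight (A (C v))) = 0 := by
    intro v y
    ext u
    apply hb.nd
    intro w
    have h3 := congrArg (fun x => b x y) (h1 u v w)
    simp only [SS_apply, map_add, map_sub, map_smul, LinearMap.add_apply, LinearMap.sub_apply,
      LinearMap.smul_apply, smul_eq_mul, map_zero, LinearMap.zero_apply] at h3
    simp only [map_add, map_sub, map_smul, LinearMap.add_apply, LinearMap.sub_apply,
      LinearMap.smul_apply, smul_eq_mul, LinearMap.smulRight_apply, LinearMap.comp_apply,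
      LinearMap.flip_apply, Module.End.mul_apply, Module.End.one_apply, hAw, hCw]
    rw [← h3]
    ring
  have h3 : ∀ v y : W, b v y * LinearMap.trace ℂ W (A * C) + 2 * b (A (C v)) y = 0 := by
    intro v y
    have h4 := congrArg (LinearMap.trace ℂ W) (h2 v y)
    simp only [map_add, map_sub, map_smul, smul_eq_mul, LinearMap.trace_smulRight,
      LinearMap.comp_apply, LinearMap.flip_apply, Module.End.mul_apply, tA, tC, map_zero,
      LinearMap.trace_one, hd] at h4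
    have h5 : b (C (A v)) y = b (A (C v)) y := by
      rw [hAw, hCw, hCw, hAw, hcomm]
    rw [h5] at h4
    push_cast at h4
    linear_combination h4
  obtain ⟨τ, hτ⟩ : ∃ τ, τ = LinearMap.trace ℂ W (A * C) := ⟨_, rfl⟩
  have h4 : ∀ v, A (C v) = (-τ / 2) • v := by
    intro v
    rw [← sub_eq_zero]
    apply hb.nd
    intro y
    have h5 := h3 v y
    rw [← hτ] at h5
    rw [map_sub, map_smul, LinearMap.sub_apply, LinearMap.smul_apply, smul_eq_mul]
    linear_combination h5 / 2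
  have h5 : A * C = (-τ / 2) • (1 : Module.End ℂ W) := by
    ext v
    exact h4 v
  have h6 : τ = 0 := by
    have h7 := congrArg (LinearMap.trace ℂ W) h5
    rw [← hτ, map_smul, LinearMap.trace_one, hd, smul_eq_mul] at h7
    push_cast at h7
    linear_combination h7 / 4
  rw [← hCw, ← hAw, h4, h6]
  simp

include hb in
/-- an ideal acts by zero or as everything -/
theorem ideal_cases [LieModule.IsIrreducible ℂ L W] (hd : finrank ℂ W = 6)
    (hS : ∀ u v, SS b u v ∈ imL L W) (J : LieIdeal ℂ L) :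
    (∀ a ∈ J, ∀ w : W, ⁅a, w⁆ = 0) ∨ ∀ a : L, ∃ a' ∈ J, ∀ w : W, ⁅a, w⁆ = ⁅a', w⁆ := by
  have hcompl := LieIdeal.isCompl_killingCompl J
  obtain ⟨J', hJ'⟩ : ∃ J', J' = J.killingCompl := ⟨_, rfl⟩
  rw [← hJ'] at hcompl
  have h0 : ∀ a ∈ J, ∀ c ∈ J', ⁅a, c⁆ = 0 := by
    intro a ha c hc
    have h1 : ⁅a, c⁆ ∈ J := lie_mem_left ℂ L J a c ha
    have h2 : ⁅a, c⁆ ∈ J' := lie_mem_right ℂ L J' a c hc
    have h3 := hcompl.disjoint
    rw [disjoint_iff] at h3
    have h4 : ⁅a, c⁆ ∈ J ⊓ J' := ⟨h1, h2⟩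
    rw [h3] at h4
    exact (LieSubmodule.mem_bot _).mp h4
  have hzero : ∀ a ∈ J, ∀ c ∈ J', ∀ v : W, ⁅a, ⁅c, v⁆⁆ = 0 := by
    intro a ha c hc v
    exact comm_zero hb hd hS a c (h0 a ha c hc)
      (fun g => h0 a ha _ (lie_mem_left ℂ L J' c g hc)) v
  let N : Submodule ℂ W :=
    { carrier := {v | ∀ a ∈ J, ⁅a, v⁆ = 0}
      zero_mem' := fun a _ => lie_zero a
      add_mem' := fun {x y} hx hy a ha => by rw [lie_add, hx a ha, hy a ha, add_zero]
      smul_mem' := fun c x hx a ha => by rw [lie_smul, hx a ha, smul_zero] }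
  rcases irr_cases (L := L) N (by
    intro x v hv a ha
    have h1 := lie_lie a x v
    have h2 : ⁅⁅a, x⁆, v⁆ = 0 := hv _ (lie_mem_left ℂ L J a x ha)
    rw [h2, hv a ha, lie_zero, sub_zero] at h1
    exact h1.symm) with hN | hN
  · right
    intro a
    have h1 : a ∈ J ⊔ J' := by rw [hcompl.sup_eq_top]; exact LieSubmodule.mem_top a
    rw [LieSubmodule.mem_sup] at h1
    obtain ⟨a', ha', c, hc, rfl⟩ := h1
    refine ⟨a', ha', fun w => ?_⟩
    have h2 : ⁅c, w⁆ ∈ N := fun x hx => hzero x hx c hc w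
    rw [hN] at h2
    rw [add_lie, (Submodule.mem_bot ℂ).mp h2, add_zero]
  · left
    intro a ha w
    have h2 : w ∈ N := by rw [hN]; trivial
    exact h2 a ha

end

end Pool.Agent.Helper36
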