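import Pool.Agent.Helper36.RSix1

/-!
Irreducible orthogonal modules of dimension six with the same kernel are isomorphic
(module O6PRIME for theorem III of MP_bf54cf_ag).
-/

open Module LieAlgebra LieModule

namespace Pool.Agent.Helper36

open Pool.Agent.Helper7 Pool.Agent.Helper8

attribute [local instance 100] LieRing.ofAssociativeRing

set_option linter.unusedSectionVars false

section

variable {L : Type*} [LieRing L] [LieAlgebra ℂ L] {p : Principal L} {W : Type*} [AddCommGroup W]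
  [Module ℂ W] [LieRingModule L W] [LieModule ℂ L W] [FiniteDimensional ℂ W]
  {b : W →ₗ[ℂ] W →ₗ[ℂ] ℂ} (hb : Orth L b) {x z : W} (O : OZ p b x z)

include hb O in
/-- elements of weight four killed by `e` -/
lemma weight_four (a : L) (h4 : ∀ w : W, ⁅⁅p.h, a⁆, w⁆ = (4 : ℂ) • ⁅a, w⁆)
    (he : ∀ w : W, ⁅⁅p.e, a⁆, w⁆ = 0) : ∃ μ : ℂ, ∀ w : W, ⁅a, w⁆ = (μ • SS b z x) w := by
  have hsh : ∀ (v : W) (μ : ℂ), ⁅p.h, v⁆ = μ • v → ⁅p.h, ⁅a, v⁆⁆ = (μ + 4) • ⁅a, v⁆ := by
    intro v μ hv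
    rw [leibniz_lie, h4, hv, lie_smul, add_smul, add_comm]
  have hee : ∀ v : W, ⁅p.e, ⁅a, v⁆⁆ = ⁅a, ⁅p.e, v⁆⁆ := by
    intro v
    rw [leibniz_lie, he, zero_add]
  set x1 := fp p x 1 with hx1
  set x2 := fp p x 2 with hx2
  set x3 := fp p x 3 with hx3
  set x4 := fp p x 4 with hx4
  have hζ := O.ζ
  have hskew : ∀ u v, b ⁅a, u⁆ v = - b u ⁅a, v⁆ := hb.inv a
  have x1ne : x1 ≠ 0 := O.T.fpne 1 (by norm_num)
  have x0ne : x ≠ 0 := O.T.ne
  obtain ⟨c, hc⟩ : ∃ c : ℂ, ⁅a, z⁆ = c • x := by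
    refine O.T.uniq _ ?_
    rw [hsh z 0 (by rw [O.hz, zero_smul])]
    norm_num
  have hw : ∀ i : ℕ, ⁅p.h, ⁅a, fp p x i⁆⁆ = (4 - 2 * i + 4 : ℂ) • ⁅a, fp p x i⁆ := fun i =>
    hsh _ _ (O.hxi i)
  have g0 : ⁅a, x⁆ = 0 := by
    refine O.T.zero_of hb (hw 0) (fun k _ hk => ?_)
    have h1 : ((k + 2 : ℕ) : ℂ) = 0 := by push_cast at hk ⊢; linear_combination hk / 2
    have h2 : k + 2 = 0 := by exact_mod_cast h1
    omega
  have g1 : ⁅a, x1⁆ = 0 := by
    refine O.T.zero_of hb (hw 1) (fun k _ hk => ?_)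
    have h1 : ((k + 1 : ℕ) : ℂ) = 0 := by push_cast at hk ⊢; linear_combination hk / 2
    have h2 : k + 1 = 0 := by exact_mod_cast h1
    omega
  obtain ⟨r, hr⟩ : ∃ r : ℂ, ⁅a, x3⁆ = r • x1 := by
    refine O.wk hb (k := 1) (by norm_num) ?_ ?_
    · have h1 := hw 3
      rw [← hx3] at h1
      rw [h1]; congr 1; norm_num
    · have e0 : b x x3 = 0 := O.T.b_zero hb (i := 0) (j := 3) (by norm_num)
      rw [hskew, hc, map_smul, hb.symm x3 x, e0, smul_zero, neg_zero]
  have hr0 : r = 0 := by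
    have h1 := hskew x3 x3
    rw [hr, map_smul, map_smul, LinearMap.smul_apply, hb.symm x3 x1, smul_eq_mul] at h1
    have h2 : b x1 x3 ≠ 0 := O.b_ne hb (by norm_num)
    have h3 : r * b x1 x3 = 0 := by linear_combination h1 / 2
    exact (mul_eq_zero.mp h3).resolve_right h2
  rw [hr0, zero_smul] at hr
  have g2 : ⁅a, x2⁆ = 0 := by
    have h1 := hee x3
    have h2 : ⁅p.e, x3⁆ = (6 : ℂ) • x2 := by
      have := O.exi 2
      rw [← hx3, ← hx2] at this
      rw [this]; congr 1; norm_num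
    rw [hr, lie_zero, h2, lie_smul] at h1
    exact (smul_eq_zero.mp h1.symm).resolve_left (by norm_num)
  obtain ⟨s, hs⟩ : ∃ s : ℂ, ⁅a, x4⁆ - (b ⁅a, x4⁆ z / b z z) • z = s • x2 := by
    refine O.wk hb (k := 2) (by norm_num) ?_ ?_
    · have h1 := hw 4
      rw [← hx4] at h1
      rw [lie_sub, lie_smul, O.hz, smul_zero, sub_zero, h1]
      norm_num
    · rw [map_sub, LinearMap.sub_apply, map_smul, LinearMap.smul_apply, smul_eq_mul,
        div_mul_cancel₀ _ hζ, sub_self]
  have hs0 : s = 0 := by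
    have h1 := congrArg (fun w => ⁅p.e, w⁆) hs
    simp only [lie_sub, lie_smul, O.ez, smul_zero, sub_zero] at h1
    have h2 : ⁅p.e, x2⁆ = (6 : ℂ) • x1 := by
      have := O.exi 1
      rw [← hx2, ← hx1] at this
      rw [this]; congr 1; norm_num
    have h3 : ⁅p.e, x4⁆ = (4 : ℂ) • x3 := by
      have := O.exi 3
      rw [← hx4, ← hx3] at this
      rw [this]; congr 1; norm_num
    rw [hee, h3, lie_smul, hr, smul_zero, h2, smul_smul] at h1
    have h4 := (smul_eq_zero.mp h1.symm).resolve_right x1ne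
    exact (mul_eq_zero.mp h4).resolve_right (by norm_num)
  have g4 : ⁅a, x4⁆ = (-(c * b x x4) / b z z) • z := by
    rw [hs0, zero_smul, sub_eq_zero] at hs
    rw [hs]
    congr 2
    rw [hskew, hc, map_smul, smul_eq_mul, hb.symm x4 x]
  refine ⟨c / b z z, ?_⟩
  have h1 : LieModule.toEnd ℂ L W a = (c / b z z) • SS b z x := by
    refine O.ext_basis (fun i hi => ?_) ?_
    · have ez : b z (fp p x i) = 0 := by rw [hb.symm]; exact O.xz i hi
      rw [LieModule.toEnd_apply_apply, LinearMap.smul_apply, SS_apply, ez]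
      interval_cases i
      · rw [fp_zero, g0]
        have e1 : b x x = 0 := O.T.b_zero hb (i := 0) (j := 0) (by norm_num)
        rw [e1]; simp
      · rw [← hx1, g1]
        have e1 : b x x1 = 0 := O.T.b_zero hb (i := 0) (j := 1) (by norm_num)
        rw [e1]; simp
      · rw [← hx2, g2]
        have e1 : b x x2 = 0 := O.T.b_zero hb (i := 0) (j := 2) (by norm_num)
        rw [e1]; simp
      · rw [← hx3, hr]
        have e1 : b x x3 = 0 := O.T.b_zero hb (i := 0) (j := 3) (by norm_num)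
        rw [e1]; simp
      · rw [← hx4, g4, zero_smul, zero_sub, smul_neg, smul_smul, ← neg_smul]
        congr 1
        ring
    · have hxz : b x z = 0 := O.xz 0 (by norm_num)
      rw [LieModule.toEnd_apply_apply, LinearMap.smul_apply, SS_apply, hc, hxz, zero_smul,
        sub_zero, smul_smul, div_mul_cancel₀ _ hζ]
  intro w
  exact congrArg (fun T : Module.End ℂ W => T w) h1

include O in
/-- a space of endomorphisms containing the elementary ones of a basis contains all of them -/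
lemma all_of_basis (M : Submodule ℂ (Module.End ℂ W))
    (hzi : ∀ i ≤ 4, SS b z (fp p x i) ∈ M)
    (hij : ∀ i ≤ 4, ∀ j ≤ 4, SS b (fp p x i) (fp p x j) ∈ M) (u v : W) : SS b u v ∈ M := by
  have hiz : ∀ i ≤ 4, SS b (fp p x i) z ∈ M := by
    intro i hi
    rw [SS_swap]
    exact M.neg_mem (hzi i hi)
  obtain ⟨c, d, hu⟩ := O.span u
  obtain ⟨c', d', hv⟩ := O.span v
  have hright : ∀ u' : W, (∀ j ≤ 4, SS b u' (fp p x j) ∈ M) → SS b u' z ∈ M →
      SS b u' v ∈ M := by
    intro u' h1 h2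
    rw [hv, SS_add_right, SS_smul_right]
    refine M.add_mem ?_ (M.smul_mem _ h2)
    have h3 : SS b u' (∑ i ∈ Finset.range 5, c' i • fp p x i) =
        ∑ i ∈ Finset.range 5, c' i • SS b u' (fp p x i) := by
      simp only [Finset.sum_range_succ, Finset.sum_range_zero, SS_add_right, SS_smul_right,
        zero_add]
    rw [h3]
    refine M.sum_mem fun i hi => M.smul_mem _ (h1 i ?_)
    rw [Finset.mem_range] at hi; omega
  rw [hu, SS_add_left, SS_smul_left]
  refine M.add_mem ?_ (M.smul_mem _ (hright z (fun j hj => hzi j hj) (by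
    rw [SS_self]; exact M.zero_mem)))
  have h3 : SS b (∑ i ∈ Finset.range 5, c i • fp p x i) v =
      ∑ i ∈ Finset.range 5, c i • SS b (fp p x i) v := by
    simp only [Finset.sum_range_succ, Finset.sum_range_zero, SS_add_left, SS_smul_left,
      zero_add]
  rw [h3]
  refine M.sum_mem fun i hi => M.smul_mem _ (hright _ (fun j hj => hij i ?_ j hj)
    (hiz i ?_))
  · rw [Finset.mem_range] at hi; omega
  · rw [Finset.mem_range] at hi; omega

include hb O in
/-- the action of a bracket of elements acting as elementary endomorphisms -/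
lemma bracket_SS (μ : ℂ) (a c : L) (i j : ℕ) (hi : i ≤ 4) (hj : j ≤ 4)
    (ha : ∀ w : W, ⁅a, w⁆ = (μ • SS b z (fp p x i)) w)
    (hc : ∀ w : W, ⁅c, w⁆ = (μ • SS b z (fp p x j)) w) (w : W) :
    ⁅⁅a, c⁆, w⁆ = ((μ ^ 2 * b z z) • SS b (fp p x i) (fp p x j)) w := by
  have e1 : ∀ i ≤ 4, b z (fp p x i) = 0 := fun i hi => by rw [hb.symm]; exact O.xz i hi
  rw [lie_lie, hc, hc, ha, ha]
  simp only [LinearMap.smul_apply, lie_smul, ha, map_smul]
  simp only [LinearMap.smul_apply, SS_apply, map_sub, map_smul, LinearMap.sub_apply,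
    LinearMap.smul_apply, smul_eq_mul, e1 i hi, e1 j hj, O.xz i hi, O.xz j hj, lie_sub, lie_smul,
    ha, zero_smul, sub_zero, zero_sub, smul_sub, smul_smul]
  rw [hb.symm (fp p x i) (fp p x j)]
  module

end

end Pool.Agent.Helper36
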