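import Pool.Agent.Helper36.RSix2

/-!
Irreducible orthogonal modules of dimension six with the same kernel are isomorphic
(module O6PRIME for theorem III of MP_bf54cf_ag), continued.
-/

open Module LieAlgebra LieModule

namespace Pool.Agent.Helper36

open Pool.Agent.Helper7 Pool.Agent.Helper8

attribute [local instance 100] LieRing.ofAssociativeRing

set_option linter.unusedSectionVars false

section

variable {L : Type*} [LieRing L] [LieAlgebra ℂ L] {p : Principal L} {W : Type*} [AddCommGroup W]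
  [Module ℂ W] [LieRingModule L W] [LieModule ℂ L W] [FiniteDimensional ℂ W]
  {b : W →ₗ[ℂ] W →ₗ[ℂ] ℂ} (hb : Orth L b) {x z : W} (O : OZ p b x z)

include hb O in
/-- the iterated brackets of an element acting as an elementary endomorphism -/
lemma fp_act (μ : ℂ) (a : L) (h : ∀ w : W, ⁅a, w⁆ = (μ • SS b z x) w) (i : ℕ) :
    ∀ w : W, ⁅fp p a i, w⁆ = (μ • SS b z (fp p x i)) w := by
  induction i with
  | zero => exact h
  | succ n ih =>
    intro w
    rw [fp_succ, lie_lie, ih, ih, LinearMap.smul_apply, LinearMap.smul_apply, lie_smul,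
      ← smul_sub, SS_lie hb, O.fz, SS_zero_left, LinearMap.zero_apply, zero_add, ← fp_succ,
      LinearMap.smul_apply]

include hb O in
/-- a triple bracket -/
lemma triple_SS (μ : ℂ) (a c d : L) (i j k : ℕ) (hi : i ≤ 4) (hj : j ≤ 4)
    (ha : ∀ w : W, ⁅a, w⁆ = (μ • SS b z (fp p x i)) w)
    (hc : ∀ w : W, ⁅c, w⁆ = (μ • SS b z (fp p x j)) w)
    (hd : ∀ w : W, ⁅d, w⁆ = (μ • SS b z (fp p x k)) w) (w : W) :
    ⁅⁅⁅a, c⁆, d⁆, w⁆ = (μ ^ 2 * b z z) • (b (fp p x i) (fp p x k) • ⁅c, w⁆ -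
      b (fp p x j) (fp p x k) • ⁅a, w⁆) := by
  have h1 := bracket_SS hb O μ a c i j hi hj ha hc
  have h2 : ⁅⁅⁅a, c⁆, d⁆, w⁆ = μ • (SS b ⁅⁅a, c⁆, z⁆ (fp p x k) w +
      SS b z ⁅⁅a, c⁆, fp p x k⁆ w) := by
    rw [lie_lie ⁅a, c⁆ d w, hd, hd, LinearMap.smul_apply, LinearMap.smul_apply, lie_smul,
      ← smul_sub, SS_lie hb]
  rw [h2, h1, h1, LinearMap.smul_apply, LinearMap.smul_apply, SS_apply b (fp p x i) (fp p x j) z,
    O.xz i hi, O.xz j hj, zero_smul, zero_smul, sub_zero, smul_zero, SS_zero_left,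
    LinearMap.zero_apply, zero_add, SS_apply b (fp p x i) (fp p x j) (fp p x k), hc, ha,
    SS_smul_right]
  simp only [LinearMap.smul_apply, SS_apply, map_sub, map_smul, LinearMap.sub_apply,
    LinearMap.smul_apply, smul_eq_mul]
  module

include hb in
/-- the form on the basis -/
lemma b_ij (i j : ℕ) (h : i + j = 4) :
    b (fp p x i) (fp p x j) = (-1) ^ i * b x (fp p x 4) := by
  rw [b_fp p hb]
  congr 2
  have h1 : ∀ i, fp p (fp p x j) i = fp p x (i + j) := by
    intro i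
    induction i with
    | zero => rw [zero_add, fp_zero]
    | succ n ih => rw [fp_succ, ih, ← fp_succ]; congr 1; omega
  rw [h1, h]

end

/-- irreducible orthogonal modules of dimension six with comparable kernels are isomorphic -/
theorem exists_iso {L : Type*} [LieRing L] [LieAlgebra ℂ L] [FiniteDimensional ℂ L]
    [IsKilling ℂ L] {W : Type*} [AddCommGroup W] [Module ℂ W] [LieRingModule L W]
    [LieModule ℂ L W] [FiniteDimensional ℂ W] [LieModule.IsIrreducible ℂ L W]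
    {W' : Type*} [AddCommGroup W'] [Module ℂ W'] [LieRingModule L W']
    [LieModule ℂ L W'] [FiniteDimensional ℂ W'] [LieModule.IsIrreducible ℂ L W']
    {b : W →ₗ[ℂ] W →ₗ[ℂ] ℂ} (hb : Orth L b) {b' : W' →ₗ[ℂ] W' →ₗ[ℂ] ℂ} (hb' : Orth L b')
    (hd : finrank ℂ W = 6) (hd' : finrank ℂ W' = 6)
    (hk : ∀ a : L, (∀ w : W, ⁅a, w⁆ = 0) → ∀ w : W', ⁅a, w⁆ = 0) :
    ∃ g : W →ₗ[ℂ] W', g ≠ 0 ∧ ∀ (a : L) (w : W), g ⁅a, w⁆ = ⁅a, g w⁆ := by
  obtain ⟨p⟩ := exists_principal L
  obtain ⟨x, z, O⟩ := exists_oz hb hd p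
  obtain ⟨x', z', O'⟩ := exists_oz hb' hd' p
  obtain ⟨a0, ha0⟩ := O.exists_g0 hb hd
  have hact : ∀ (y : L) (w : W), ⁅⁅y, a0⁆, w⁆ = SS b ⁅y, z⁆ x w + SS b z ⁅y, x⁆ w := by
    intro y w
    rw [lie_lie, ha0, ha0, SS_lie hb]
  have h4' : ∀ w : W', ⁅⁅p.h, a0⁆ - (4 : ℂ) • a0, w⁆ = 0 := by
    refine hk _ (fun w => ?_)
    rw [sub_lie, smul_lie, hact, ha0, O.hz, SS_zero_left, LinearMap.zero_apply, zero_add, O.hx,
      SS_smul_right, LinearMap.smul_apply, sub_self]
  have h4 : ∀ w : W', ⁅⁅p.h, a0⁆, w⁆ = (4 : ℂ) • ⁅a0, w⁆ := by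
    intro w
    have h1 := h4' w
    rw [sub_lie, smul_lie] at h1
    exact sub_eq_zero.mp h1
  have he : ∀ w : W', ⁅⁅p.e, a0⁆, w⁆ = 0 := by
    refine hk _ (fun w => ?_)
    rw [hact, O.ez, SS_zero_left, LinearMap.zero_apply, zero_add, O.T.e0, SS_zero_right,
      LinearMap.zero_apply]
  obtain ⟨μ, hμ⟩ := weight_four hb' O' a0 h4 he
  have ha1 : ∀ w : W, ⁅a0, w⁆ = ((1 : ℂ) • SS b z x) w := fun w => by rw [one_smul]; exact ha0 w
  have hA := fp_act hb O 1 a0 ha1
  have hA' := fp_act hb' O' μ a0 hμ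
  -- `μ` is not zero
  have hμ0 : μ ≠ 0 := by
    intro h0
    rcases ideal_cases hb hd (fun u v => O.all_SS hb hd u v) (LieModule.ker ℂ L W') with h1 | h1
    · have h2 : a0 ∈ LieModule.ker ℂ L W' := by
        rw [LieModule.mem_ker]
        intro w
        rw [hμ, h0, zero_smul, LinearMap.zero_apply]
      have h3 := h1 a0 h2 z
      rw [ha0, SS_apply, show b x z = 0 from O.xz 0 (by norm_num), zero_smul, sub_zero] at h3
      exact (smul_eq_zero.mp h3).elim O.ζ O.T.ne
    · obtain ⟨a', ha', h2⟩ := h1 p.h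
      have h3 : ∀ w : W', ⁅p.h - a', w⁆ = 0 := by
        refine hk _ (fun w => ?_)
        rw [sub_lie, h2, sub_self]
      have h4 := h3 x'
      rw [sub_lie, (LieModule.mem_ker (R := ℂ) (M := W') (x := a')).mp ha' x', sub_zero,
        O'.hx] at h4
      exact (smul_eq_zero.mp h4).elim (by norm_num) O'.T.ne
  -- comparison of the structure constants
  have hrel : b z z * b x (fp p x 4) = μ ^ 2 * b' z' z' * b' x' (fp p x' 4) := by
    have e1 : b (fp p x 1) (fp p x 4) = 0 := O.T.b_zero hb (by norm_num)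
    have e1' : b' (fp p x' 1) (fp p x' 4) = 0 := O'.T.b_zero hb' (by norm_num)
    have h1 : ∀ w : W, ⁅⁅⁅fp p a0 0, fp p a0 1⁆, fp p a0 4⁆ -
        (b z z * b x (fp p x 4)) • fp p a0 1, w⁆ = 0 := by
      intro w
      rw [sub_lie, smul_lie, triple_SS hb O 1 _ _ _ 0 1 4 (by norm_num) (by norm_num) (hA 0)
        (hA 1) (hA 4), e1, fp_zero]
      module
    have h2 := hk _ h1 z'
    rw [sub_lie, smul_lie, triple_SS hb' O' μ _ _ _ 0 1 4 (by norm_num) (by norm_num) (hA' 0)
      (hA' 1) (hA' 4), e1', fp_zero p x', hA' 1 z', LinearMap.smul_apply, SS_apply,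
      O'.xz 1 (by norm_num), zero_smul, zero_smul, sub_zero, sub_zero, smul_smul, smul_smul,
      smul_smul, smul_smul, smul_smul, ← sub_smul] at h2
    have h3 := (smul_eq_zero.mp h2).resolve_right (O'.T.fpne 1 (by norm_num))
    have h4 : μ * b' z' z' * (μ ^ 2 * b' z' z' * b' x' (fp p x' 4) -
        b z z * b x (fp p x 4)) = 0 := by
      linear_combination h3
    have h5 := (mul_eq_zero.mp h4).resolve_left (mul_ne_zero hμ0 O'.ζ)
    exact (sub_eq_zero.mp h5).symm
  -- the basis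
  let B0 : Option (Fin 5) → W := fun o => o.elim z (fun i => fp p x i)
  have hspan : ⊤ ≤ Submodule.span ℂ (Set.range B0) := by
    intro w _
    obtain ⟨c, d, hw⟩ := O.span w
    rw [hw]
    refine Submodule.add_mem _ (Submodule.sum_mem _ fun i hi => Submodule.smul_mem _ _ ?_)
      (Submodule.smul_mem _ _ (Submodule.subset_span ⟨none, rfl⟩))
    rw [Finset.mem_range] at hi
    exact Submodule.subset_span ⟨some ⟨i, hi⟩, rfl⟩
  let B : Basis (Option (Fin 5)) ℂ W := basisOfTopLeSpanOfCardEqFinrank B0 hspan (by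
    rw [hd]; simp)
  have hB : ∀ o, B o = B0 o := fun o => by
    simp only [B, coe_basisOfTopLeSpanOfCardEqFinrank]
  obtain ⟨lam, hlam⟩ : ∃ lam : ℂ, lam = b z z / (μ * b' z' z') := ⟨_, rfl⟩
  have hl0 : lam * (μ * b' z' z') = b z z := by
    rw [hlam]; exact div_mul_cancel₀ _ (mul_ne_zero hμ0 O'.ζ)
  let g : W →ₗ[ℂ] W' := B.constr ℂ (fun o => o.elim (lam • z') (fun i => fp p x' i))
  have hgz : g z = lam • z' := by
    have h1 := B.constr_basis ℂ (fun o => o.elim (lam • z') (fun i : Fin 5 => fp p x' i)) none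
    rw [hB] at h1
    exact h1
  have hgx : ∀ i ≤ 4, g (fp p x i) = fp p x' i := by
    intro i hi
    have h1 := B.constr_basis ℂ (fun o => o.elim (lam • z') (fun i : Fin 5 => fp p x' i))
      (some ⟨i, by omega⟩)
    rw [hB] at h1
    exact h1
  -- the set of elements for which `g` is equivariant
  have hext : ∀ (S T : W →ₗ[ℂ] W'), (∀ i ≤ 4, S (fp p x i) = T (fp p x i)) → S z = T z →
      S = T := by
    intro S T h1 h2
    ext w
    obtain ⟨c, d, hw⟩ := O.span w
    rw [hw, map_add, map_add, map_sum, map_sum, map_smul, map_smul, h2]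
    congr 1
    refine Finset.sum_congr rfl fun i hi => ?_
    rw [Finset.mem_range] at hi
    rw [map_smul, map_smul, h1 i (by omega)]
  have hEa : ∀ i ≤ 4, ∀ w : W, g ⁅fp p a0 i, w⁆ = ⁅fp p a0 i, g w⁆ := by
    intro i hi
    have h1 : g ∘ₗ (SS b z (fp p x i)) = μ • (SS b' z' (fp p x' i) ∘ₗ g) := by
      refine hext _ _ (fun j hj => ?_) ?_
      · rw [LinearMap.comp_apply, LinearMap.smul_apply, LinearMap.comp_apply, SS_apply,
          hgx j hj, SS_apply, hb.symm z, O.xz j hj, hb'.symm z', O'.xz j hj, zero_smul,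
          zero_smul, zero_sub, zero_sub, map_neg, map_smul, hgz, smul_smul, smul_neg, smul_smul]
        congr 2
        by_cases hij : i + j = 4
        · rw [b_ij hb i j hij, b_ij hb' i j hij]
          have h2 : μ * b' z' z' * (lam * b x (fp p x 4) - μ * b' x' (fp p x' 4)) = 0 := by
            linear_combination hrel + b x (fp p x 4) * hl0
          have h3 := (mul_eq_zero.mp h2).resolve_left (mul_ne_zero hμ0 O'.ζ)
          linear_combination (-1) ^ i * h3
        · rw [O.T.b_zero hb hij, O'.T.b_zero hb' hij]; ring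
      · rw [LinearMap.comp_apply, LinearMap.smul_apply, LinearMap.comp_apply, SS_apply,
          hgz, map_smul, SS_apply, O.xz i hi, O'.xz i hi, zero_smul, zero_smul, sub_zero,
          sub_zero, map_smul, hgx i hi, smul_smul, smul_smul]
        congr 1
        linear_combination -hl0
    intro w
    have h2 := congrArg (fun T => T w) h1
    simp only [LinearMap.comp_apply, LinearMap.smul_apply] at h2
    rw [hA i, hA' i, one_smul, LinearMap.smul_apply]
    exact h2
  let E : Submodule ℂ L :=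
    { carrier := {a | ∀ w : W, g ⁅a, w⁆ = ⁅a, g w⁆}
      zero_mem' := fun w => by rw [zero_lie, zero_lie, map_zero]
      add_mem' := fun {u v} hu hv w => by rw [add_lie, add_lie, map_add, hu, hv]
      smul_mem' := fun c u hu w => by rw [smul_lie, smul_lie, map_smul, hu] }
  have hEb : ∀ u ∈ E, ∀ v ∈ E, ⁅u, v⁆ ∈ E := by
    intro u hu v hv w
    have hu' : ∀ w : W, g ⁅u, w⁆ = ⁅u, g w⁆ := hu
    have hv' : ∀ w : W, g ⁅v, w⁆ = ⁅v, g w⁆ := hv
    rw [lie_lie, lie_lie, map_sub, hu', hv', hv', hu']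
  let M' : Submodule ℂ (Module.End ℂ W) :=
    { carrier := {T | ∃ a ∈ E, ∀ w : W, ⁅a, w⁆ = T w}
      zero_mem' := ⟨0, E.zero_mem, fun w => by rw [zero_lie]; rfl⟩
      add_mem' := by
        rintro S T ⟨u, hu, hu'⟩ ⟨v, hv, hv'⟩
        exact ⟨u + v, E.add_mem hu hv, fun w => by rw [add_lie, hu', hv']; rfl⟩
      smul_mem' := by
        rintro c T ⟨u, hu, hu'⟩
        exact ⟨c • u, E.smul_mem c hu, fun w => by rw [smul_lie, hu']; rfl⟩ }
  have hM1 : ∀ i ≤ 4, SS b z (fp p x i) ∈ M' := by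
    intro i hi
    exact ⟨fp p a0 i, hEa i hi, fun w => by rw [hA i, one_smul]⟩
  have hM2 : ∀ i ≤ 4, ∀ j ≤ 4, SS b (fp p x i) (fp p x j) ∈ M' := by
    intro i hi j hj
    have h1 : (1 ^ 2 * b z z) • SS b (fp p x i) (fp p x j) ∈ M' :=
      ⟨⁅fp p a0 i, fp p a0 j⁆, hEb _ (hEa i hi) _ (hEa j hj),
        fun w => bracket_SS hb O 1 _ _ i j hi hj (hA i) (hA j) w⟩
    have h2 := M'.smul_mem (b z z)⁻¹ h1
    rw [smul_smul, one_pow, one_mul, inv_mul_cancel₀ O.ζ, one_smul] at h2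
    exact h2
  have hall : ∀ a : L, a ∈ E := by
    intro a
    have h1 : toEnd ℂ L W a ∈ M' := skew_eq hb.symm hb.nd _ (fun u v => hb.inv a u v) M'
      (all_of_basis O M' hM1 hM2)
    obtain ⟨a', ha', h2⟩ := h1
    have h3 : ∀ w : W, ⁅a - a', w⁆ = 0 := by
      intro w
      rw [sub_lie, h2 w]
      exact sub_self _
    have h4 : a - a' ∈ E := by
      intro w
      rw [h3, hk _ h3, map_zero]
    have h5 := E.add_mem h4 ha'
    rw [sub_add_cancel] at h5
    exact h5
  refine ⟨g, ?_, fun a w => hall a w⟩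
  intro h0
  have h1 := hgx 0 (by norm_num)
  rw [h0, fp_zero, fp_zero, LinearMap.zero_apply] at h1
  exact O'.T.ne h1.symm

end Pool.Agent.Helper36
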