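import Pool.Agent.Helper36.RSix3

/-!
Intersections of ideals acting on an irreducible orthogonal module of dimension six
(module O6PRIME for theorem III of MP_bf54cf_ag).
-/

open Module LieAlgebra LieModule

namespace Pool.Agent.Helper36

open Pool.Agent.Helper7 Pool.Agent.Helper8

attribute [local instance 100] LieRing.ofAssociativeRing

set_option linter.unusedSectionVars false

section

variable {L : Type*} [LieRing L] [LieAlgebra ℂ L] [FiniteDimensional ℂ L] [IsKilling ℂ L]
  {W : Type*} [AddCommGroup W] [Module ℂ W] [LieRingModule L W] [LieModule ℂ L W]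
  [FiniteDimensional ℂ W] [LieModule.IsIrreducible ℂ L W]
  {b : W →ₗ[ℂ] W →ₗ[ℂ] ℂ} (hb : Orth L b)

include hb in
lemma orth_SS (hd : finrank ℂ W = 6) (u v : W) : SS b u v ∈ imL L W := by
  obtain ⟨p⟩ := exists_principal L
  obtain ⟨x, z, O⟩ := exists_oz hb hd p
  exact O.all_SS hb hd u v

include hb in
/-- the action is not trivial -/
lemma exists_act_ne (hd : finrank ℂ W = 6) : ∃ (a : L) (w : W), ⁅a, w⁆ ≠ 0 := by
  obtain ⟨p⟩ := exists_principal L
  obtain ⟨x, z, O⟩ := exists_oz hb hd p
  refine ⟨p.h, x, ?_⟩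
  rw [O.hx]
  exact smul_ne_zero (by norm_num) O.T.ne

include hb in
/-- finite intersections of ideals which do not act by zero act as everything -/
theorem inf_ideals (hd : finrank ℂ W = 6) {ι : Type*} (T : Finset ι) (J : ι → LieIdeal ℂ L)
    (hJ : ∀ t ∈ T, ¬ ∀ a ∈ J t, ∀ w : W, ⁅a, w⁆ = 0) (a : L) :
    ∃ a' : L, (∀ t ∈ T, a' ∈ J t) ∧ ∀ w : W, ⁅a, w⁆ = ⁅a', w⁆ := by
  classical
  have hcase := ideal_cases hb hd (fun u v => orth_SS hb hd u v)
  have key : ∃ J' : LieIdeal ℂ L, (∀ a ∈ J', ∀ t ∈ T, a ∈ J t) ∧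
      ¬ ∀ a ∈ J', ∀ w : W, ⁅a, w⁆ = 0 := by
    induction T using Finset.induction_on with
    | empty =>
      refine ⟨⊤, fun a _ t ht => absurd ht (Finset.notMem_empty t), fun h => ?_⟩
      obtain ⟨a, w, haw⟩ := exists_act_ne (L := L) hb hd
      exact haw (h a (LieSubmodule.mem_top a) w)
    | insert t T ht ih =>
      obtain ⟨J', h1, h2⟩ := ih (fun t' ht' => hJ t' (Finset.mem_insert_of_mem ht'))
      have h3 := (hcase J').resolve_left h2
      have h4 := (hcase (J t)).resolve_left (hJ t (Finset.mem_insert_self t T))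
      refine ⟨J t ⊓ J', fun a ha t' ht' => ?_, fun h => ?_⟩
      · rw [LieSubmodule.mem_inf] at ha
        rcases Finset.mem_insert.mp ht' with rfl | ht'
        · exact ha.1
        · exact h1 a ha.2 t' ht'
      · -- all brackets act by zero
        have h5 : ∀ (a c : L) (w : W), ⁅⁅a, c⁆, w⁆ = 0 := by
          intro a c w
          obtain ⟨a', ha', e1⟩ := h4 a
          obtain ⟨c', hc', e2⟩ := h3 c
          have h6 : ⁅a', c'⁆ ∈ J t ⊓ J' := by
            rw [LieSubmodule.mem_inf]
            exact ⟨lie_mem_left ℂ L (J t) a' c' ha', lie_mem_right ℂ L J' a' c' hc'⟩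
          have h7 := h _ h6 w
          rw [lie_lie] at h7 ⊢
          rw [e1, e2, e2, e1, h7]
        obtain ⟨a, w, haw⟩ := exists_act_ne (L := L) hb hd
        apply haw
        clear haw
        have h6 := perfect_of_killing a
        induction h6 using Submodule.span_induction with
        | mem x hx =>
          obtain ⟨u, v, rfl⟩ := hx
          exact h5 u v w
        | zero => exact zero_lie w
        | add x y _ _ hx hy => rw [add_lie, hx, hy, add_zero]
        | smul c x _ hx => rw [smul_lie, hx, smul_zero]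
  obtain ⟨J', h1, h2⟩ := key
  obtain ⟨a', ha', h3⟩ := (hcase J').resolve_left h2 a
  exact ⟨a', fun t ht => h1 a' ha' t ht, h3⟩

end

/-- the elementary skew endomorphisms span a space of dimension at least nine -/
lemma nine_le {W : Type*} [AddCommGroup W] [Module ℂ W] [FiniteDimensional ℂ W]
    {b : W →ₗ[ℂ] W →ₗ[ℂ] ℂ} (hnd : ∀ x, (∀ y, b x y = 0) → x = 0) (hd : finrank ℂ W = 6)
    (M : Submodule ℂ (Module.End ℂ W)) (hM : ∀ u v, SS b u v ∈ M) : 9 ≤ finrank ℂ M := by
  classical
  let e : Basis (Fin 6) ℂ W := Module.finBasisOfFinrankEq ℂ W hd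
  let p1 : Fin 3 → Fin 6 := fun i => ⟨i, by omega⟩
  let p2 : Fin 3 → Fin 6 := fun i => ⟨3 + i, by omega⟩
  have h12 : ∀ i j, p1 i ≠ p2 j := by
    intro i j h
    have := congrArg Fin.val h
    simp only [p1, p2] at this
    omega
  have h22 : ∀ i j, p2 i = p2 j ↔ i = j := by
    intro i j
    constructor
    · intro h
      have := congrArg Fin.val h
      simp only [p2] at this
      exact Fin.ext (by omega)
    · rintro rfl; rfl
  have h11 : ∀ i j, p1 i = p1 j ↔ i = j := by
    intro i j
    constructor
    · intro h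
      have := congrArg Fin.val h
      simp only [p1] at this
      exact Fin.ext this
    · rintro rfl; rfl
  have hli : LinearIndependent ℂ (fun q : Fin 3 × Fin 3 => SS b (e (p1 q.1)) (e (p2 q.2))) := by
    rw [Fintype.linearIndependent_iff]
    rintro g hg ⟨i, j⟩
    have h1 : ∑ i, g (i, j) • e (p1 i) = 0 := by
      apply hnd
      intro y
      have h2 := congrArg (fun T : Module.End ℂ W => e.coord (p2 j) (T y)) hg
      simp only [LinearMap.sum_apply, LinearMap.smul_apply, SS_apply, map_sum, map_smul, map_sub,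
        LinearMap.zero_apply, map_zero, Basis.coord_apply, Basis.repr_self, smul_eq_mul] at h2
      rw [map_sum, LinearMap.sum_apply, ← h2, Fintype.sum_prod_type]
      refine Finset.sum_congr rfl fun i' _ => ?_
      rw [Finset.sum_eq_single j]
      · rw [Finsupp.single_eq_same, Finsupp.single_eq_of_ne (h12 i' j).symm, mul_one, mul_zero,
          sub_zero, map_smul, LinearMap.smul_apply, smul_eq_mul]
      · intro j' _ hj'
        rw [Finsupp.single_eq_of_ne (fun h => hj' ((h22 _ _).mp h).symm),
          Finsupp.single_eq_of_ne (h12 i' j).symm]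
        ring
      · intro h; exact absurd (Finset.mem_univ _) h
    have h2 := congrArg (fun w => e.coord (p1 i) w) h1
    simp only [map_sum, map_smul, map_zero, Basis.coord_apply, Basis.repr_self, smul_eq_mul] at h2
    rw [Finset.sum_eq_single i] at h2
    · rw [Finsupp.single_eq_same, mul_one] at h2
      exact h2
    · intro i' _ hi'
      rw [Finsupp.single_eq_of_ne (fun h => hi' ((h11 _ _).mp h).symm), mul_zero]
    · intro h; exact absurd (Finset.mem_univ _) h
  have h3 := finrank_span_eq_card hli
  rw [Fintype.card_prod, Fintype.card_fin] at h3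
  rw [show 9 = 3 * 3 by norm_num, ← h3]
  apply Submodule.finrank_mono
  rw [Submodule.span_le]
  rintro _ ⟨q, rfl⟩
  exact hM _ _

/-- dimension of the range of a map vanishing on the kernel of another map -/
lemma finrank_range_le {U V V' : Type*} [AddCommGroup U] [Module ℂ U] [AddCommGroup V]
    [Module ℂ V] [FiniteDimensional ℂ V] [AddCommGroup V'] [Module ℂ V']
    (A : U →ₗ[ℂ] V) (B : U →ₗ[ℂ] V') (h : LinearMap.ker A ≤ LinearMap.ker B) :
    finrank ℂ (LinearMap.range B) ≤ finrank ℂ V := by
  have h1 : LinearMap.range ((LinearMap.ker A).liftQ B h) = LinearMap.range B :=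
    Submodule.range_liftQ _ _ _
  have e := A.quotKerEquivRange
  have : FiniteDimensional ℂ (U ⧸ LinearMap.ker A) := Module.Finite.equiv e.symm
  rw [← h1]
  calc finrank ℂ (LinearMap.range ((LinearMap.ker A).liftQ B h))
      ≤ finrank ℂ (U ⧸ LinearMap.ker A) := LinearMap.finrank_range_le _
    _ = finrank ℂ (LinearMap.range A) := e.finrank_eq
    _ ≤ finrank ℂ V := Submodule.finrank_le _

end Pool.Agent.Helper36
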