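import Pool.Agent.Helper36.RSix4
import Pool.Agent.Helper8.D.HodgeIn
import Pool.Agent.Helper20.LinkIso

/-!
Symmetries of a family concentrated at a place of type III of rank six
(module O6PRIME for theorem III of MP_bf54cf_ag).
-/

open Module NumberField LieAlgebra LieModule

namespace Pool.Agent.Helper36

open Pool.Agent.Helper7 hiding Vs mem_Vs elL exists_elL elL_lie elL_bracket Vs_single Vs_proj
  Vs_ext toVs toVs_apply Vs_irr LL mem_LL phi perfect_lift
open Pool.Agent.Helper8 Pool.Agent.Helper24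
open Pool.Agent.Helper8.D hiding SS
open Pool.Agent.GPC (Emb)

attribute [local instance 100] LieRing.ofAssociativeRing

set_option linter.unusedSectionVars false

section single

variable {κ : Type} [Fintype κ] [DecidableEq κ] {ϖ : ℂ} {P : PData κ ϖ} {K : Type} [Field K]
  [NumberField K]

lemma rho_R (f : Fac3 P K) (F' : QF P K 6) (h : f = .R F') : f.toUF.ρ = F'.ρ := by
  subst h; rfl

/-- the form at a place, on the eigenspace -/
lemma form_nd {r : ℕ} (F' : QF P K r) (σ : K →+* ℂ) (u : κ → ℂ)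
    (h : ∀ w, P.ψ (F'.j (proj F'.ρ σ u)) (proj F'.ρ σ w) = 0) : proj F'.ρ σ u = 0 := by
  have h1 : F'.j (proj F'.ρ σ u) = 0 := by
    apply P.hψnd
    intro w
    rw [sum_proj_apply F'.toUF.ρ w, map_sum]
    refine Finset.sum_eq_zero fun τ _ => ?_
    by_cases hτ : τ = σ
    · rw [hτ]; exact h w
    · rw [F'.j_proj, F'.toUF.proj_eq, F'.toUF.proj_eq]
      have h2 : ∀ a c, P.ψ (F'.e (ComplexEmbedding.conjugate σ) a) (F'.e τ c) = 0 := fun a c =>
        F'.toUF.psi_e _ _ _ _ (by rw [Helper24.conj_conj]; exact hτ)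
      simp only [map_sum, LinearMap.sum_apply, map_smul, LinearMap.smul_apply, h2, smul_zero,
        Finset.sum_const_zero]
  have h2 := F'.jj (proj F'.ρ σ u)
  rw [h1, map_zero, ← Module.End.mul_apply, rho_mul_proj, LinearMap.smul_apply] at h2
  exact (smul_eq_zero.mp h2.symm).resolve_left ((map_ne_zero σ).mpr F'.b_ne)

/-- endomorphisms of a factor of type III and eigenspaces -/
lemma end_proj {r : ℕ} (F' : QF P K r) (g : Module.End ℂ (κ → ℂ)) (hg : IsDRB P P g)
    (σ σ' : K →+* ℂ) (h2 : σ' ≠ σ) (h3 : σ' ≠ ComplexEmbedding.conjugate σ) (v : κ → ℂ) :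
    proj F'.ρ σ' (g (proj F'.ρ σ v)) = 0 := by
  classical
  obtain ⟨x, y, hxy⟩ := F'.hend g hg
  rw [hxy, map_add, F'.toUF.proj_rho, F'.toUF.proj_rho, F'.j_proj, ← Module.End.mul_apply,
    proj_mul_proj, if_neg h2, ← Module.End.mul_apply (proj F'.ρ σ'), proj_mul_proj, if_neg h3,
    LinearMap.zero_apply, LinearMap.zero_apply, smul_zero, smul_zero, add_zero]

end single

section family

variable {I : Type} [Fintype I] [DecidableEq I] (n : I → ℕ)
  {κ : I → Type} [∀ i, Fintype (κ i)] [∀ i, DecidableEq (κ i)] {ϖ : ℂ}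
  (P : ∀ i, PData (κ i) ϖ)
  {K : I → Type} [∀ i, Field (K i)] [∀ i, NumberField (K i)]
  {k : ℕ} (α : MultilinearMap ℂ (fun _ : Fin (2 * k) => HW κ n) ℂ)
  (F : ∀ i, Fac3 (P i) (K i))

lemma exists_R' {i : I} (hs : (F i).isR) : ∃ F', F i = .R F' := by
  cases h : F i with
  | S F' h' => rw [h] at hs; exact hs.elim
  | Q F' => rw [h] at hs; exact hs.elim
  | R F' => exact ⟨F', rfl⟩
  | T F' => rw [h] at hs; exact hs.elim

lemma not_T_of_R {i : I} (hs : (F i).isR) : ¬ (F i).isT := by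
  cases h : F i with
  | S F' h' => exact fun h => h
  | Q F' => exact fun h => h
  | R F' => exact fun h => h
  | T F' => rw [h] at hs; exact hs.elim

/-- the action of an element of the Lie algebra is the normalised action -/
lemma act_nrA (t : Emb K) (X : GG κ) (hX : IsInv n P α X) (x : Vs n P (FU P F) α t) :
    ofVs n P (FU P F) α t ⁅elL n P (FU P F) α X hX, x⁆ =
      nrA P F t X (ofVs n P (FU P F) α t x) := by
  rw [ofVs_apply, elL_act, nrA, ofVs_apply, Vs_proj]

lemma act_toVs (t : Emb K) (X : GG κ) (hX : IsInv n P α X) (v : κ t.1 → ℂ) :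
    ofVs n P (FU P F) α t ⁅elL n P (FU P F) α X hX, toVs n P (FU P F) α t v⁆ =
      nrA P F t X v := by
  classical
  rw [act_nrA, ofVs_toVs, nrA, nrA, ← Module.End.mul_apply (proj _ _), proj_mul_proj, if_pos rfl]

/-- the form on an eigenspace of type III -/
noncomputable def bR (t : Emb K) {r : ℕ} (F' : QF (P t.1) (K t.1) r) :
    Vs n P (FU P F) α t →ₗ[ℂ] Vs n P (FU P F) α t →ₗ[ℂ] ℂ :=
  ((P t.1).ψ.compl₁₂ (F'.j ∘ₗ ofVs n P (FU P F) α t) (ofVs n P (FU P F) α t))

lemma bR_apply (t : Emb K) {r : ℕ} (F' : QF (P t.1) (K t.1) r) (x y : Vs n P (FU P F) α t) :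
    bR n P α F t F' x y = (P t.1).ψ (F'.j (ofVs n P (FU P F) α t x))
      (ofVs n P (FU P F) α t y) := rfl

lemma orth_bR (t : Emb K) (F' : QF (P t.1) (K t.1) 6) (hF : F t.1 = .R F') :
    Orth (LL n P (FU P F) α) (bR n P α F t F') where
  symm x y := by
    rw [bR_apply, bR_apply, F'.jψ, (P t.1).hψalt, neg_neg]
  nd x hx := by
    have hρ : (FU P F t.1).ρ = F'.ρ := by
      show (F t.1).toUF.ρ = F'.ρ
      rw [hF]; rfl
    have h1 : ofVs n P (FU P F) α t x = proj F'.ρ t.2 (ofVs n P (FU P F) α t x) := by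
      rw [← hρ]
      exact (Vs_proj n P (FU P F) α t x).symm
    have h2 : proj F'.ρ t.2 (ofVs n P (FU P F) α t x) = 0 := by
      refine form_nd F' t.2 _ (fun w => ?_)
      have h3 := hx (toVs n P (FU P F) α t w)
      rw [bR_apply, ofVs_toVs, hρ] at h3
      rw [← h1]
      exact h3
    rw [← toVs_ofVs n P (FU P F) α t x, h1, h2, map_zero]
  inv a x y := by
    obtain ⟨X, hX, rfl⟩ := exists_elL n P (FU P F) α a
    have hs := symI n P α hX t.1
    have hR : (F t.1).isR := by rw [hF]; trivial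
    have hch : ch P (FU P F) t X = X.2 / 2 := (F t.1).ch_half (not_T_of_R P F hR) t.2 hs
    have h1 := hs.pol (F'.j (ofVs n P (FU P F) α t x)) (ofVs n P (FU P F) α t y)
    rw [hs.comm F'.j F'.hj] at h1
    rw [bR_apply, bR_apply, act_nrA, act_nrA, nrA, nrA, hch]
    have e1 : proj (FU P F t.1).ρ t.2 (ofVs n P (FU P F) α t x) = ofVs n P (FU P F) α t x :=
      Vs_proj n P (FU P F) α t x
    have e2 : proj (FU P F t.1).ρ t.2 (ofVs n P (FU P F) α t y) = ofVs n P (FU P F) α t y :=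
      Vs_proj n P (FU P F) α t y
    rw [e1, e2, map_sub, map_smul, map_sub, map_sub, map_smul, map_smul, LinearMap.sub_apply,
      LinearMap.smul_apply, smul_eq_mul]
    linear_combination h1

lemma Vs_ext' (t : Emb K) {x y : Vs n P (FU P F) α t}
    (h : ofVs n P (FU P F) α t x = ofVs n P (FU P F) α t y) : x = y :=
  Vs_ext n P (FU P F) α t x y h

/-- the Lie algebra acts by zero at the places of kind `T` -/
lemma act_T (t : Emb K) (ht : (F t.1).isT) (a : LL n P (FU P F) α) (x : Vs n P (FU P F) α t) :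
    ⁅a, x⁆ = 0 := by
  obtain ⟨X, hX, rfl⟩ := exists_elL n P (FU P F) α a
  apply Vs_ext' n P α F t
  rw [act_nrA, nrA_T P F t ht X (symI n P α hX t.1), map_zero]

/-- symmetries without multiplier -/
def G0 : Submodule ℂ (GG κ) :=
  gSub n P α ⊓ LinearMap.ker (LinearMap.snd ℂ ((i : I) → Module.End ℂ (κ i → ℂ)) ℂ)

/-- the element of the Lie algebra given by a symmetry without multiplier -/
noncomputable def elG : G0 n P α →ₗ[ℂ] LL n P (FU P F) α where
  toFun X := elL n P (FU P F) α X.1 X.2.1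
  map_add' _ _ := Subtype.ext (map_add (phi P (FU P F)) _ _)
  map_smul' _ _ := Subtype.ext (map_smul (phi P (FU P F)) _ _)

variable (hϖ : ϖ ≠ 0)
  (hB : ∀ v : Fin (2 * k) → HW κ n, (∀ r, IsRatP n P (v r)) → ∃ q : ℚ, α v = ϖ ^ k * q)
  (hA : ∀ v : Fin (2 * k) → HW κ n, (∀ r i m j, IsAlgebraic ℚ (v r i m j)) →
      IsAlgebraic ℚ (α v))

include hϖ hB hA in
/-- comparison with the places of kinds `S` and `Q` -/
lemma case_SQ (s t : Emb K) (hs : (F s.1).isR) (ht : (F t.1).isS ∨ (F t.1).isQ)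
    (hk : ∀ a : LL n P (FU P F) α, (∀ x : Vs n P (FU P F) α t, ⁅a, x⁆ = 0) →
      ∀ x : Vs n P (FU P F) α s, ⁅a, x⁆ = 0) : False := by
  have hK := isKilling n P α F hϖ hB hA
  have hI := Vs_irr n P (FU P F) α hϖ hB hA s (F s.1).rk_pos
  obtain ⟨F', hF'⟩ := exists_R' P F hs
  have hb := orth_bR n P α F s F' hF'
  have hd : finrank ℂ (Vs n P (FU P F) α s) = 6 := by
    rw [finrank_Vs, hF']; rfl
  let A : G0 n P α →ₗ[ℂ] Matrix (Fin 2) (Fin 2) ℂ × Matrix (Fin 2) (Fin 2) ℂ :=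
    ((AA P F t 0).prod (AA P F t 1)) ∘ₗ (G0 n P α).subtype
  let B : G0 n P α →ₗ[ℂ] Module.End ℂ (Vs n P (FU P F) α s) :=
    (toEnd ℂ (LL n P (FU P F) α) (Vs n P (FU P F) α s) : _ →ₗ[ℂ] _) ∘ₗ elG n P α F
  have hAB : LinearMap.ker A ≤ LinearMap.ker B := by
    rintro ⟨X, hX, hX2⟩ hXA
    rw [LinearMap.mem_ker] at hXA ⊢
    have hX2' : X.2 = 0 := hX2
    have hX' : IsInv n P α X := hX
    have h0 : AA P F t 0 X = 0 := congrArg Prod.fst hXA
    have h1 : AA P F t 1 X = 0 := congrArg Prod.snd hXA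
    have hsym := symI n P α hX' t.1
    rw [hX2'] at hsym
    have h2 : ∀ v, X.1 t.1 (proj (F t.1).toUF.ρ t.2 v) = 0 := by
      intro v
      have h3 := (F t.1).eq_of_A ht t.2 (Y := 0) hsym
        ⟨fun g _ v => by simp, fun u v => by simp⟩ (fun ε => by
          rw [show ((0 : Module.End ℂ (κ t.1 → ℂ)), (0 : ℂ)) = 0 from rfl, map_zero]
          have h4 : ∀ ε, AA P F t ε X = (F t.1).A t.2 ε (X.1 t.1, 0) := fun ε => by
            rw [AA_apply, hX2']
          rw [← h4]
          fin_cases ε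
          · exact h0
          · exact h1) v
      exact h3
    have hnT : ¬ (F t.1).isT := by
      cases h : F t.1 with
      | S F' h' => exact fun h => h
      | Q F' => exact fun h => h
      | R F' => exact fun h => h
      | T F' =>
        rw [h] at ht
        rcases ht with ht | ht <;> exact ht.elim
    have hch : ch P (FU P F) t X = 0 := by
      have := (F t.1).ch_half hnT t.2 hsym
      rw [zero_div] at this
      exact this
    apply LinearMap.ext
    intro x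
    refine hk (elL n P (FU P F) α X hX') (fun y => ?_) x
    apply Vs_ext' n P α F t
    rw [act_nrA, nrA, hch, zero_smul, sub_zero, map_zero]
    exact h2 _
  have h1 := @finrank_range_le (G0 n P α) (Matrix (Fin 2) (Fin 2) ℂ × Matrix (Fin 2) (Fin 2) ℂ)
    (Module.End ℂ (Vs n P (FU P F) α s)) _ _ _ _ _ _ _ A B hAB
  have h2 := nine_le hb.nd hd (LinearMap.range B) (fun u v => by
    obtain ⟨g, hg⟩ := orth_SS hb hd u v
    obtain ⟨X, hX, rfl, hX2, -⟩ := perfect_lift n P (FU P F) α hK g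
    refine ⟨⟨X, hX, hX2⟩, ?_⟩
    apply LinearMap.ext
    intro w
    rw [← hg w]
    rfl)
  have h3 : finrank ℂ (Matrix (Fin 2) (Fin 2) ℂ × Matrix (Fin 2) (Fin 2) ℂ) = 8 := by
    rw [Module.finrank_prod, Module.finrank_matrix]
    simp
  omega

include hϖ hB hA in
/-- comparison with the places of kind `R` -/
lemma case_R (s t : Emb K) (hs : (F s.1).isR) (ht : (F t.1).isR)
    (hRR : ∀ i j, (F i).isR → (F j).isR → i ≠ j → ∀ g : (κ i → ℂ) →ₗ[ℂ] (κ j → ℂ),
      IsDRB (P i) (P j) g → g = 0)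
    (hts : t ≠ s) (hts' : t ≠ conjT s)
    (hk : ∀ a : LL n P (FU P F) α, (∀ x : Vs n P (FU P F) α t, ⁅a, x⁆ = 0) →
      ∀ x : Vs n P (FU P F) α s, ⁅a, x⁆ = 0) : False := by
  have hK := isKilling n P α F hϖ hB hA
  have hI := Vs_irr n P (FU P F) α hϖ hB hA s (F s.1).rk_pos
  have hI' := Vs_irr n P (FU P F) α hϖ hB hA t (F t.1).rk_pos
  have hdR : ∀ u : Emb K, (F u.1).isR → finrank ℂ (Vs n P (FU P F) α u) = 6 := by
    intro u hu
    obtain ⟨F', hF'⟩ := exists_R' P F hu
    rw [finrank_Vs, hF']; rfl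
  obtain ⟨g, hg0, hg⟩ : ∃ g : Vs n P (FU P F) α t →ₗ[ℂ] Vs n P (FU P F) α s, g ≠ 0 ∧
      ∀ (a : LL n P (FU P F) α) (w : Vs n P (FU P F) α t), g ⁅a, w⁆ = ⁅a, g w⁆ := by
    obtain ⟨F', hF'⟩ := exists_R' P F hs
    obtain ⟨F'', hF''⟩ := exists_R' P F ht
    exact exists_iso (orth_bR n P α F t F'' hF'') (orth_bR n P α F s F' hF') (hdR t ht)
      (hdR s hs) hk
  let f : (κ t.1 → ℂ) →ₗ[ℂ] (κ s.1 → ℂ) :=
    ofVs n P (FU P F) α s ∘ₗ g ∘ₗ toVs n P (FU P F) α t
  have hfv : ∀ v, f v = ofVs n P (FU P F) α s (g (toVs n P (FU P F) α t v)) := fun v => rfl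
  have hfp : ∀ v, proj (FU P F s.1).ρ s.2 (f v) = f v := fun v =>
    Vs_proj n P (FU P F) α s (g (toVs n P (FU P F) α t v))
  have hf : ∀ X, IsInv n P α X → ∀ v, X.1 s.1 (f v) = f (X.1 t.1 v) := by
    intro X hX v
    have c1 : ch P (FU P F) s X = X.2 / 2 :=
      (F s.1).ch_half (not_T_of_R P F hs) s.2 (symI n P α hX s.1)
    have c2 : ch P (FU P F) t X = X.2 / 2 :=
      (F t.1).ch_half (not_T_of_R P F ht) t.2 (symI n P α hX t.1)
    have h1 := congrArg (ofVs n P (FU P F) α s)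
      (hg (elL n P (FU P F) α X hX) (toVs n P (FU P F) α t v))
    have h2 : ⁅elL n P (FU P F) α X hX, toVs n P (FU P F) α t v⁆ =
        toVs n P (FU P F) α t (X.1 t.1 v) - (X.2 / 2) • toVs n P (FU P F) α t v := by
      apply Vs_ext' n P α F t
      rw [act_toVs, nrA, c2, map_sub, map_smul, ofVs_toVs, ofVs_toVs,
        commP n P (FU P F) α hX]
    rw [h2, map_sub, map_smul, map_sub, map_smul, ← hfv, ← hfv, act_nrA, ← hfv, nrA, c1, hfp,
      sub_left_inj] at h1
    exact h1.symm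
  obtain ⟨m, c, g', hg', hsum⟩ := Pool.Agent.Helper20.comb_of_comm n P α hϖ hB hA t.1 s.1 f hf
  apply hg0
  apply LinearMap.ext
  intro x
  have hx : f (ofVs n P (FU P F) α t x) = 0 := by
    obtain ⟨i, σ⟩ := s
    obtain ⟨i', τ⟩ := t
    by_cases hi : i' = i
    · subst hi
      obtain ⟨F', hF'⟩ := exists_R' P F hs
      have hρ : (FU P F i').ρ = F'.ρ := by
        show (F i').toUF.ρ = F'.ρ
        rw [hF']; rfl
      have e1 : proj F'.ρ τ (ofVs n P (FU P F) α ⟨i', τ⟩ x) =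
          ofVs n P (FU P F) α ⟨i', τ⟩ x := by
        rw [← hρ]
        exact Vs_proj n P (FU P F) α ⟨i', τ⟩ x
      rw [← hfp, hsum, map_sum]
      refine Finset.sum_eq_zero fun l _ => ?_
      show proj (FU P F i').ρ σ (c l • g' l (ofVs n P (FU P F) α ⟨i', τ⟩ x)) = 0
      rw [hρ, map_smul, ← e1, end_proj F' (g' l) (hg' l) τ σ ?_ ?_, smul_zero]
      · rintro rfl
        exact hts rfl
      · intro h
        apply hts'
        show (⟨i', τ⟩ : Emb K) = ⟨i', ComplexEmbedding.conjugate σ⟩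
        rw [h, Helper24.conj_conj]
    · rw [hsum]
      refine Finset.sum_eq_zero fun l _ => ?_
      rw [hRR i' i ht hs hi (g' l) (hg' l), LinearMap.zero_apply, smul_zero]
  apply Vs_ext' n P α F s
  rw [hfv, toVs_ofVs] at hx
  rw [hx, LinearMap.zero_apply, map_zero]

end family

end Pool.Agent.Helper36
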